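import Pool.Agent.H92.ZO.DefsC

/-!
# Curves, and elementary moves: definitions
-/

open CategoryTheory AlgebraicGeometry

universe u v w

namespace Pool.Agent.H92.ZO

open Pool.Agent.H914 Pool.Agent.H914.VarClass Pool.Agent.H914.VarClass.Obj Pool.Agent.W492.BB
  Pool.Agent.W550.Corr Pool.Agent.TH133

variable {k : Type u} [Field k] {𝒱 : VarClass k}

/-- `T` is a curve of positive genus: the self-intersection number of the diagonal of `T × T`, which
is `2 - 2 g`, is different from `2`. -/
def PositiveGenus (C : TheoryData.{u, v, 0} 𝒱 ℚ) (T : 𝒱.Obj) : Prop :=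
  T.dim = 1 ∧ ∃ q : ℚ, q ≠ 2 ∧ HasDegree C (C.up (Obj.lift (𝟙 T) (𝟙 T)) (dg C T)) q

/-- The property of Bloch and Srinivas of the curve `T`: if the restriction of the class
`α ∈ CH^l(Y × T)` to `Y × t` vanishes for all points `t` of `T` (equivalently, the push-forward to
`Y` of the product of `α` and `Y × c` vanishes for all zero-cycles `c` on `T`) then `α` is supported
on finitely many of the `Y × t`: it is a sum of external products `w × c` with `w ∈ CH^(l-1)(Y)` and
`c ∈ CH^1(T)`. It holds if `k` is a universal domain, for example `k = ℂ`. -/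
def BlochSrinivas (C : TheoryData.{u, v, 0} 𝒱 ℚ) (T : 𝒱.Obj) : Prop :=
  ∀ (Y : 𝒱.Obj) (l : ℤ) (α : C.A (Y.prod T)), C.Deg l α →
    (∀ c : C.A T, C.Deg 1 c → C.down (fst Y T) (C.mul α (C.up (snd Y T) c)) = 0) →
    α ∈ Submodule.span ℚ {β | ∃ (w : C.A Y) (c : C.A T), C.Deg (l - 1) w ∧ C.Deg 1 c ∧
      β = C.ext w c}

section weil

variable {C : TheoryData.{u, v, 0} 𝒱 ℚ} {K : Type w} [Field K] (H : WeilTheoryData.{u, v, w} C K)

/-- The algebraically trivial cycles on `X` which are parametrised by the curve `T` belong to `F^1`,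
for all Chow-Kunneth decompositions of `X`: for `Γ ∈ CH^i(T × X)` and a zero-cycle `c` of degree
zero on `T` the class `Γ_* c` lies in `F^1 CH^i(X)`. -/
def CurveCyclesInF1 (T X : 𝒱.Obj) : Prop :=
  ∀ π, IsCK H X π → ∀ (i : ℕ) (Γ : C.A (T.prod X)) (c : C.A T), C.Deg i Γ → C.Deg 1 c →
    HasDegree C c 0 → C.act Γ c ∈ ckFil C π i 1

/-- `F^0 CH^m(V)` does not change under elementary moves of the decomposition. -/
def MovesAgree (m : ℕ) (V : 𝒱.Obj) : Prop :=
  ∀ π π', IsCK H V π → IsCK H V π' → ElementaryMove C m π π' → ckFil C π m 0 = ckFil C π' m 0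

end weil

end Pool.Agent.H92.ZO
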