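import Pool.Agent.H92.ZO.Local
import Pool.Agent.H92.ZO.DefsB

/-!
# One cycle class decides the independence of `F^0`: blow-ups
-/

open CategoryTheory AlgebraicGeometry

universe u v w

namespace Pool.Agent.H92.ZO

open Pool.Agent.H914 Pool.Agent.H914.VarClass Pool.Agent.H914.VarClass.Obj Pool.Agent.W492.BB
  Pool.Agent.W550.Corr Pool.Agent.TH133

set_option linter.unusedSectionVars false

variable {k : Type u} [Field k] {𝒱 : VarClass k}

/-- `p m` holds for infinitely many `m`. -/
def Infinitely (p : ℕ → Prop) : Prop := ∀ n : ℕ, ∃ m, n ≤ m ∧ p m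

section weil

variable {C : TheoryData.{u, v, 0} 𝒱 ℚ} [hC : IsChowProj C] {K : Type w} [Field K]
  {H : WeilTheoryData.{u, v, w} C K} [hH : IsWeilProj H] {X Y Z V : 𝒱.Obj}

include hC hH

/-- A Chow-Kunneth decomposition from a finite family of orthogonal idempotents with weights. -/
lemma isCK_of_family {ι : Type*} [DecidableEq ι] (I : Finset ι) (e : ι → Cor C V) (wt : ι → ℕ)
    (hm : ∀ s ∈ I, e s ∈ cor0 C V)
    (hmul : ∀ s ∈ I, ∀ t ∈ I, e s * e t = if s = t then e s else 0)
    (hsum : ∑ s ∈ I, e s = 1) (hwt : ∀ s ∈ I, wt s ≤ 2 * V.dim)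
    (hact : ∀ s ∈ I, ∀ (m : ℤ) (a : H.A V), a ∈ H.gr V m → m ≠ wt s → actH C V H (e s) a = 0) :
    IsCK H V (fun n => (∑ s ∈ I.filter (fun s => wt s = n), e s : Cor C V)) := by
  have hmap : ∀ s ∈ I, wt s ∈ Finset.range (2 * V.dim + 1) := fun s hs =>
    Finset.mem_range.2 (by have := hwt s hs; omega)
  apply isCK_of (C := C) (H := H) (X := V)
  · exact fun n => Subalgebra.sum_mem _ fun s hs => hm s (Finset.mem_filter.1 hs).1
  · intro n hn
    apply Finset.sum_eq_zero
    intro s hs
    have h1 := Finset.mem_filter.1 hs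
    have := hwt s h1.1
    omega
  · intro i j
    rw [Finset.sum_mul]
    simp_rw [Finset.mul_sum]
    by_cases hij : i = j
    · subst hij
      rw [if_pos rfl]
      apply Finset.sum_congr rfl
      intro s hs
      rw [Finset.sum_eq_single s]
      · rw [hmul s (Finset.mem_filter.1 hs).1 s (Finset.mem_filter.1 hs).1, if_pos rfl]
      · intro t ht hts
        rw [hmul s (Finset.mem_filter.1 hs).1 t (Finset.mem_filter.1 ht).1,
          if_neg (Ne.symm hts)]
      · exact fun h => absurd hs h
    · rw [if_neg hij]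
      apply Finset.sum_eq_zero
      intro s hs
      apply Finset.sum_eq_zero
      intro t ht
      rw [hmul s (Finset.mem_filter.1 hs).1 t (Finset.mem_filter.1 ht).1, if_neg]
      rintro rfl
      exact hij ((Finset.mem_filter.1 hs).2.symm.trans (Finset.mem_filter.1 ht).2)
  · rw [Finset.sum_fiberwise_of_maps_to hmap, hsum]
  · intro n m a ha
    rw [map_sum, LinearMap.sum_apply]
    by_cases hmn : m = n
    · rw [if_pos hmn]
      have h1 : actH C V H (∑ s ∈ I, e s) a = a := by rw [hsum, map_one]; rfl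
      rw [map_sum, LinearMap.sum_apply] at h1
      conv_rhs => rw [← h1]
      apply Finset.sum_subset (Finset.filter_subset _ _)
      intro s hs hs'
      apply hact s hs m a ha
      intro h2
      apply hs'
      rw [Finset.mem_filter]
      exact ⟨hs, by omega⟩
    · rw [if_neg hmn]
      apply Finset.sum_eq_zero
      intro s hs
      obtain ⟨h1, h2⟩ := Finset.mem_filter.1 hs
      exact hact s h1 m a ha (by rw [h2]; exact hmn)

omit hC hH in
/-- The orthogonal idempotents of the blow-up formula. -/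
noncomputable def blowE (π : ℕ → C.A (X.prod X)) (a : ℕ → C.A (X.prod V))
    (b : ℕ → C.A (V.prod X)) (u w : ℕ → C.A V) : (ℕ × ℕ) ⊕ ℕ → Cor C V
  | .inl p => C.comp (C.comp (b p.1) (π p.2)) (a p.1)
  | .inr l => C.ext (w l) (u l)

omit hC hH in
/-- Their weights. -/
def blowWt : (ℕ × ℕ) ⊕ ℕ → ℕ
  | .inl p => p.2 + 2 * p.1
  | .inr l => 2 * l

omit hC hH in
/-- The index set. -/
def blowI (X V : 𝒱.Obj) (r : ℕ) : Finset ((ℕ × ℕ) ⊕ ℕ) :=
  (Finset.Ico 1 r ×ˢ Finset.range (2 * X.dim + 1)).disjSum (Finset.range (V.dim + 1))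

section formula

variable {r : ℕ} {a : ℕ → C.A (X.prod V)} {b : ℕ → C.A (V.prod X)} {u w : ℕ → C.A V}
  {π : ℕ → C.A (X.prod X)}

lemma inl_mem {p : ℕ × ℕ} : (Sum.inl p : (ℕ × ℕ) ⊕ ℕ) ∈ blowI X V r ↔
    p.1 ∈ Finset.Ico 1 r ∧ p.2 ∈ Finset.range (2 * X.dim + 1) := by
  rw [blowI, Finset.inl_mem_disjSum, Finset.mem_product]

lemma inr_mem {l : ℕ} : (Sum.inr l : (ℕ × ℕ) ⊕ ℕ) ∈ blowI X V r ↔
    l ∈ Finset.range (V.dim + 1) := by
  rw [blowI, Finset.inr_mem_disjSum]

lemma blow_mul (hB : BlowUpFormula C X V r a b u w) (hπ : IsCK H X π) :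
    ∀ s ∈ blowI X V r, ∀ t ∈ blowI X V r,
      blowE π a b u w s * blowE π a b u w t = if s = t then blowE π a b u w s else 0 := by
  rintro (⟨s, l⟩ | l) hs (⟨t, l'⟩ | l') ht
  · rw [inl_mem (H := H)] at hs ht
    have h1 : blowE π a b u w (.inl (s, l)) * blowE π a b u w (.inl (t, l')) =
        C.comp (C.comp (C.comp (b t) (π l')) (a t)) (C.comp (C.comp (b s) (π l)) (a s)) := rfl
    have h2 : C.comp (C.comp (C.comp (b t) (π l')) (a t)) (C.comp (C.comp (b s) (π l)) (a s)) =
        C.comp (C.comp (C.comp (b t) (π l')) (C.comp (C.comp (a t) (b s)) (π l))) (a s) := by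
      simp only [comp_assoc]
    rw [h1, h2, hB.ab t ht.1 s hs.1]
    by_cases hst : s = t
    · subst hst
      rw [if_pos rfl, dg_comp, comp_assoc C (b s) (π l') (π l), hπ.comp_eq]
      by_cases hll : l = l'
      · subst hll
        rw [if_pos rfl, if_pos rfl]
        rfl
      · rw [if_neg (Ne.symm hll), if_neg (by
          intro h
          exact hll (congrArg Prod.snd (Sum.inl.inj h))), comp_zero, zero_comp]
        rfl
    · rw [if_neg (Ne.symm hst), if_neg (by
          intro h
          exact hst (congrArg Prod.fst (Sum.inl.inj h))), zero_comp, comp_zero, zero_comp]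
      rfl
  · rw [inl_mem (H := H)] at hs
    rw [inr_mem (H := H), Finset.mem_range] at ht
    have h1 : blowE π a b u w (.inl (s, l)) * blowE π a b u w (.inr l') =
        C.comp (C.ext (w l') (u l')) (C.comp (C.comp (b s) (π l)) (a s)) := rfl
    rw [h1, if_neg (by simp), ext_comp, C.act_comp, C.act_comp, hB.ub s hs.1 l' (by omega),
      C.act_map_zero, C.act_map_zero]
    exact ext_zero _
  · rw [inl_mem (H := H)] at ht
    rw [inr_mem (H := H), Finset.mem_range] at hs
    have h1 : blowE π a b u w (.inr l) * blowE π a b u w (.inl (t, l')) =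
        C.comp (C.comp (C.comp (b t) (π l')) (a t)) (C.ext (w l) (u l)) := rfl
    rw [h1, if_neg (by simp), comp_assoc, comp_ext, hB.wa t ht.1 l (by omega)]
    have h2 : C.ext (0 : C.A X) (u l) = 0 := by rw [TheoryData.ext, map_zero, zero_mul]
    rw [h2, comp_zero]
    rfl
  · rw [inr_mem (H := H), Finset.mem_range] at hs ht
    have h1 : blowE π a b u w (.inr l) * blowE π a b u w (.inr l') =
        C.comp (C.ext (w l') (u l')) (C.ext (w l) (u l)) := rfl
    have h2 : HasDegree C (u l' * w l) (if l' = l then 1 else 0) := by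
      rw [ch_comm C]
      exact hB.uw l' (by omega) l (by omega)
    rw [h1, comp_ext_ext h2]
    by_cases hll : l = l'
    · subst hll
      rw [if_pos rfl, if_pos rfl, one_smul]
      rfl
    · rw [if_neg (Ne.symm hll), if_neg (by
          intro h
          exact hll (Sum.inr.inj h)), zero_smul]
      rfl

lemma blow_isCK (hB : BlowUpFormula C X V r a b u w) (hπ : IsCK H X π) :
    IsCK H V (fun n => (∑ s ∈ (blowI X V r).filter (fun s => blowWt s = n),
      blowE π a b u w s : Cor C V)) := by
  apply isCK_of_family (H := H) (blowI X V r) (blowE π a b u w) blowWt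
  · rintro (⟨s, l⟩ | l) hs
    · rw [inl_mem (H := H)] at hs
      have h1 := hB.b_mem s hs.1
      have h2 := hB.a_mem s hs.1
      have h3 := comp_mem C (e := -(s : ℤ)) (e' := 0) (Γ := b s) (Δ := π l)
        (by rw [← sub_eq_add_neg]; exact h1) (by rw [add_zero]; exact hπ.deg l)
      have h4 := comp_mem C (e := -(s : ℤ) + 0) (e' := s) (Δ := a s) h3 h2
      have e : (V.dim : ℤ) + (-(s : ℤ) + 0 + s) = V.dim := by ring
      rw [e] at h4
      exact h4
    · rw [inr_mem (H := H), Finset.mem_range] at hs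
      have h1 := ext_mem' (hB.w_mem l (by omega)) (hB.u_mem l (by omega))
      rw [sub_add_cancel] at h1
      exact h1
  · exact blow_mul hB hπ
  · have h1 : ∑ s ∈ blowI X V r, blowE π a b u w s =
        (∑ s ∈ Finset.Ico 1 r, C.comp (b s) (a s) +
          ∑ l ∈ Finset.range (V.dim + 1), C.ext (w l) (u l) : C.A (V.prod V)) := by
      unfold blowI
      rw [Finset.sum_disjSum, Finset.sum_product]
      congr 1
      apply Finset.sum_congr rfl
      intro s _
      have h2 : (∑ l ∈ Finset.range (2 * X.dim + 1), blowE π a b u w (.inl (s, l)) : Cor C V) =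
          C.comp (C.comp (b s) (∑ l ∈ Finset.range (2 * X.dim + 1), π l)) (a s) := by
        rw [comp_sum, sum_comp]
        rfl
      rw [h2, hπ.sum, comp_dg]
    rw [h1, hB.sum]
    rfl
  · rintro (⟨s, l⟩ | l) hs
    · rw [inl_mem (H := H), Finset.mem_Ico, Finset.mem_range] at hs
      have := hB.dim_eq
      change l + 2 * s ≤ _
      simp only at hs
      omega
    · rw [inr_mem (H := H), Finset.mem_range] at hs
      change 2 * l ≤ _
      omega
  · rintro (⟨s, l⟩ | l) hs m x hx hm
    · rw [inl_mem (H := H)] at hs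
      have h1 : actH C V H (blowE π a b u w (.inl (s, l))) x =
          H.act (H.cl (a s)) (H.act (H.cl (π l)) (H.act (H.cl (b s)) x)) := by
        change H.act (H.cl (C.comp (C.comp (b s) (π l)) (a s))) x = _
        rw [actH_comp, actH_comp]
      have h2 := actH_mem H (e := -(s : ℤ)) (Γ := b s)
        (by rw [← sub_eq_add_neg]; exact hB.b_mem s hs.1) hx
      have hm' : m ≠ (l : ℤ) + 2 * s := by
        intro h
        apply hm
        rw [h]
        change _ = ((l + 2 * s : ℕ) : ℤ)
        push_cast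
        ring
      rw [h1, hπ.actH_eq l _ h2, if_neg (by omega), TheoryData.act_map_zero]
    · rw [inr_mem (H := H), Finset.mem_range] at hs
      have hm' : m ≠ 2 * (l : ℤ) := by
        intro h
        apply hm
        rw [h]
        change _ = ((2 * l : ℕ) : ℤ)
        push_cast
        ring
      exact act_ext_ne (hB.u_mem l (by omega)) (hB.w_mem l (by omega)) hm' hx

/-- **Classes of too large weight on `X` give such classes on the blow-up `V`.** -/
theorem blow_raise (hB : BlowUpFormula C X V r a b u w) (hπ : IsCK H X π) {j : ℕ}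
    {z : C.A X} (hz : C.act (π j) z = z) {s : ℕ} (hs : s ∈ Finset.Ico 1 r) :
    ∃ ρ, IsCK H V ρ ∧ C.act (ρ (j + 2 * s)) (C.act (a s) z) = C.act (a s) z := by
  classical
  refine ⟨_, blow_isCK hB hπ, ?_⟩
  by_cases hj : 2 * X.dim < j
  · -- then the class is zero
    have hz0 : z = 0 := by rw [← hz, hπ.out j hj, TheoryData.act_zero]
    rw [hz0, C.act_map_zero, C.act_map_zero]
  change C.act (∑ s ∈ (blowI X V r).filter (fun s' => blowWt s' = j + 2 * s),
      blowE π a b u w s : C.A (V.prod V)) _ = _
  rw [act_sum, Finset.sum_eq_single (Sum.inl (s, j))]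
  · change C.act (C.comp (C.comp (b s) (π j)) (a s)) (C.act (a s) z) = _
    rw [C.act_comp, C.act_comp, ← C.act_comp (a s) (b s), hB.ab s hs s hs, if_pos rfl, act_dg, hz]
  · rintro (⟨t, l⟩ | l) ht hne
    · rw [Finset.mem_filter, inl_mem (H := H)] at ht
      change C.act (C.comp (C.comp (b t) (π l)) (a t)) (C.act (a s) z) = _
      rw [C.act_comp, C.act_comp, ← C.act_comp (a s) (b t), hB.ab s hs t ht.1.1]
      have hst : s ≠ t := by
        rintro rfl
        apply hne
        have : l + 2 * s = j + 2 * s := ht.2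
        rw [show l = j by omega]
      rw [if_neg hst, C.act_zero, C.act_map_zero, C.act_map_zero]
    · rw [Finset.mem_filter, inr_mem (H := H), Finset.mem_range] at ht
      change C.act (C.ext (w l) (u l)) (C.act (a s) z) = _
      rw [← C.act_comp, comp_ext, hB.wa s hs l (by omega), TheoryData.ext, map_zero, zero_mul,
        C.act_zero]
  · intro h
    exfalso
    apply h
    rw [Finset.mem_filter, inl_mem (H := H)]
    exact ⟨⟨hs, Finset.mem_range.2 (by omega)⟩, rfl⟩

end formula

end weil

end Pool.Agent.H92.ZO
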