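import Pool.Agent.H92.ZO.Curve

/-!
# The contraction argument
-/

open CategoryTheory AlgebraicGeometry

universe u v w

namespace Pool.Agent.H92.ZO

open Pool.Agent.H914 Pool.Agent.H914.VarClass Pool.Agent.H914.VarClass.Obj Pool.Agent.W492.BB
  Pool.Agent.W550.Corr Pool.Agent.TH133

set_option linter.unusedSectionVars false

variable {k : Type u} [Field k] {𝒱 : VarClass k}

section chow

variable {C : TheoryData.{u, v, 0} 𝒱 ℚ} [hC : IsChowProj C] {X Y Z V T : 𝒱.Obj}

/-- The class `z × p` on `(X × T) × T`. -/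
noncomputable def zp (C : TheoryData.{u, v, 0} 𝒱 ℚ) (z : C.A X) (p : C.A (T.prod T)) :
    C.A ((X.prod T).prod T) := C.pull (aI X T T) (C.ext z p)

/-- The contraction of the second and the third factor. -/
noncomputable def kap (C : TheoryData.{u, v, 0} 𝒱 ℚ) (X T : 𝒱.Obj) :
    C.A ((X.prod T).prod T) →ₗ[ℚ] C.A X :=
  C.push (fst X T) ∘ₗ (C.pull (Obj.lift (𝟙 (X.prod T)) (snd X T))).toLinearMap

lemma kap_apply (γ : C.A ((X.prod T).prod T)) :
    kap C X T γ = C.push (fst X T) (C.pull (Obj.lift (𝟙 (X.prod T)) (snd X T)) γ) := rfl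

include hC

lemma zp_eq (z : C.A X) (p : C.A (T.prod T)) :
    zp C z p = C.pull (fst (X.prod T) T) (C.pull (fst X T) z) * C.pull (t23 X T T) p := by
  have e1 : aI X T T ≫ fst X (T.prod T) = fst (X.prod T) T ≫ fst X T := lift_fst _ _
  have e2 : aI X T T ≫ snd X (T.prod T) = t23 X T T := by
    apply prod_ext <;> simp [aI, t23]
  rw [zp, TheoryData.ext, map_mul, ← C.pull_comp, ← C.pull_comp, e1, e2, C.pull_comp]

lemma zp_apply (z : C.A X) (p : C.A (T.prod T)) (c : C.A T) :
    C.push (fst (X.prod T) T) (zp C z p * C.pull (snd (X.prod T) T) c) =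
      C.ext z (C.act (tp C p) c) := by
  have e3 : snd (X.prod T) T = t23 X T T ≫ snd T T := by simp
  have e2 : aI X T T ≫ snd X (T.prod T) = t23 X T T := by
    apply prod_ext <;> simp [aI, t23]
  have e4 : aI X T T ≫ prodMap (𝟙 X) (fst T T) = fst (X.prod T) T := by
    apply prod_ext <;> simp [aI]
  have h2 : ∀ y : C.A (T.prod T), C.push (fst (X.prod T) T) (C.pull (t23 X T T) y) =
      C.pull (snd X T) (C.push (fst T T) y) := by
    intro y
    rw [C.base_snd, push_model C (aI X T T) (aJ X T T) aI_aJ aJ_aI, ← C.pull_comp, e2, e4]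
  rw [zp_eq, e3, C.pull_comp (t23 X T T), mul_assoc, ← map_mul, C.proj_left, h2, act_tp]
  rfl

lemma kap_zp (z : C.A X) {p : C.A (T.prod T)} {r : ℚ}
    (hp : HasDegree C (C.pull (Obj.lift (𝟙 T) (𝟙 T)) p) r) : kap C X T (zp C z p) = r • z := by
  have e1 : Obj.lift (𝟙 (X.prod T)) (snd X T) ≫ fst (X.prod T) T ≫ fst X T = fst X T := by
    rw [← Category.assoc, lift_fst, Category.id_comp]
  have e2 : Obj.lift (𝟙 (X.prod T)) (snd X T) ≫ t23 X T T =
      snd X T ≫ Obj.lift (𝟙 T) (𝟙 T) := by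
    apply prod_ext <;> simp [t23, comp_lift]
  rw [kap_apply, zp_eq, map_mul, ← C.pull_comp (fst (X.prod T) T), ← C.pull_comp, ← C.pull_comp,
    e1, e2, C.pull_comp (snd X T), C.proj_left, (hp X).2, mul_smul_comm, mul_one]

lemma kap_ext (w : C.A (X.prod T)) (c : C.A T) :
    kap C X T (C.ext w c) = C.act (tp C w) c := by
  have e1 : Obj.lift (𝟙 (X.prod T)) (snd X T) ≫ fst (X.prod T) T = 𝟙 _ := lift_fst _ _
  have e2 : Obj.lift (𝟙 (X.prod T)) (snd X T) ≫ snd (X.prod T) T = snd X T := lift_snd _ _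
  rw [kap_apply, TheoryData.ext, map_mul, ← C.pull_comp, ← C.pull_comp, e1, e2, C.pull_id, act_tp]

lemma act_eq_ext (n : C.A (T.prod X)) (c : C.A T) :
    C.act n c = C.push (snd T X) (C.pull (Obj.lift (𝟙 (T.prod X)) (fst T X)) (C.ext n c)) := by
  have e1 : Obj.lift (𝟙 (T.prod X)) (fst T X) ≫ fst (T.prod X) T = 𝟙 _ := lift_fst _ _
  have e2 : Obj.lift (𝟙 (T.prod X)) (fst T X) ≫ snd (T.prod X) T = fst T X := lift_snd _ _
  rw [TheoryData.ext, map_mul, ← C.pull_comp, ← C.pull_comp, e1, e2, C.pull_id, C.act_apply]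

end chow

section weil

variable {C : TheoryData.{u, v, 0} 𝒱 ℚ} [hC : IsChowProj C] {K : Type w} [Field K]
  {H : WeilTheoryData.{u, v, w} C K} [hH : IsWeilProj H] {X Y Z V T : 𝒱.Obj}

include hC hH

/-- If the external products of all classes of too large weight with the zero-cycles of degree zero
on a curve `T` of positive genus with the property of Bloch and Srinivas vanish, then all these
classes vanish. -/
theorem zero_of_prod (hT : PositiveGenus C T) (hBS : BlochSrinivas C T)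
    (hZ : ∀ (X : 𝒱.Obj) (π : ℕ → C.A (X.prod X)), IsCK H X π → ∀ (i b : ℕ) (z : C.A X),
      z ∈ C.gr X i → 2 * i < b → C.act (π b) z = z → ∀ c ∈ C.gr T 1, HasDegree C c 0 →
      C.ext z c = 0) {X : 𝒱.Obj} {π : ℕ → C.A (X.prod X)} (hπ : IsCK H X π) {i b : ℕ}
    {z : C.A X} (hz : z ∈ C.gr X i) (hb : 2 * i < b) (hzb : C.act (π b) z = z) : z = 0 := by
  obtain ⟨hT1, q, hq2, hq⟩ := hT
  obtain ⟨e, τ, he, hd, hτ, hτs, hτ1, hτc⟩ := exists_SD_curve (C := C) H T hT1
  have hidem : C.comp (τ 1) (τ 1) = τ 1 := hτ.idem 1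
  have hpm : τ 1 ∈ C.gr (T.prod T) T.dim := hτ.deg 1
  have hcl : ∀ c ∈ C.gr T 1, HasDegree C (C.act (τ 1) c) 0 := by
    intro c hc
    apply hasDegree_zero_of_cl H
    · rw [hT1]
      exact_mod_cast act_mem0 C hpm hc
    · rw [cl_act H]
      exact hτ.act_ne 1 2 _ (by norm_num) (H.cl_mem hc)
  have htp : ∀ j ≤ 2, tp C (τ j) = τ (2 - j) := fun j hj => by
    have := hτs j (by rw [hT1]; omega)
    rwa [hT1] at this
  have tpp : tp C (τ 1) = τ 1 := htp 1 (by omega)
  have hT1' : (T.dim : ℤ) = 1 := by rw [hT1]; rfl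
  have he1 : C.act (τ 1) e = 0 := by
    have d1 : HasDegree C (e * e) 0 := hasDegree_of_ne (C.mul_mem he he) (by rw [hT1']; norm_num)
    rw [hτ1, C.act_sub, C.act_sub, act_dg, act_ext' d1, act_ext' (v := 1) (q := 1)
      (by rwa [one_mul]), zero_smul, one_smul, sub_zero, sub_self]
  have he2 : C.act (τ 1) 1 = 0 := by
    have d1 : HasDegree C ((1 : C.A T) * 1) 0 :=
      hasDegree_of_ne (C.mul_mem (C.one_mem T) (C.one_mem T)) (by rw [hT1']; norm_num)
    rw [hτ1, C.act_sub, C.act_sub, act_dg, act_ext' d1, act_ext' (v := e) (q := 1)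
      (by rwa [mul_one]), zero_smul, one_smul, sub_zero, sub_self]
  -- the degree of the restriction of `τ 1` to the diagonal
  have hdeg : HasDegree C (C.pull (Obj.lift (𝟙 T) (𝟙 T)) (τ 1)) (q - 2) := by
    have r1 : ∀ x y : C.A T, C.pull (Obj.lift (𝟙 T) (𝟙 T)) (C.ext x y) = x * y := by
      intro x y
      rw [TheoryData.ext, map_mul, ← C.pull_comp, ← C.pull_comp, lift_fst, lift_snd, C.pull_id,
        C.pull_id]
    rw [hτ1, map_sub, map_sub, r1, r1, mul_one, one_mul]
    have h1 := hasDegree_add (hasDegree_add hq (hasDegree_smul hd (-1))) (hasDegree_smul hd (-1))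
    have e1 : q + -1 * 1 + -1 * 1 = q - 2 := by ring
    have e2 : C.up (Obj.lift (𝟙 T) (𝟙 T)) (dg C T) + (-1 : ℚ) • e + (-1 : ℚ) • e =
        C.pull (Obj.lift (𝟙 T) (𝟙 T)) (dg C T) - e - e := by
      rw [neg_smul, one_smul]
      abel
    rwa [e1, e2] at h1
  set α : C.A ((X.prod T).prod T) := zp C z (τ 1) with hα
  have hαm : α ∈ C.gr ((X.prod T).prod T) ((i : ℤ) + 1) := by
    rw [← hT1']
    exact C.pull_mem _ (ext_mem' hz hpm)
  have hact : ∀ c : C.A T, C.act (tp C α) c = C.ext z (C.act (τ 1) c) := by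
    intro c
    rw [act_tp, hα, zp_apply, tpp]
  have h1 := hBS (X.prod T) (i + 1) α hαm (fun c hc => by
    change C.push (fst (X.prod T) T) (α * C.pull (snd (X.prod T) T) c) = 0
    rw [← act_tp, hact]
    have hc' : C.act (τ 1) c ∈ C.gr T 1 := act_mem0 C hpm hc
    exact hZ X π hπ i b z hz hb hzb _ hc' (hcl c hc))
  have hαp : C.comp α (τ 1) = α := by
    rw [hτ1, comp_sub, comp_sub, comp_dg, comp_ext, comp_ext, hact, hact, he1, he2]
    have h2 : C.ext z (0 : C.A T) = 0 := ext_zero z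
    rw [h2, TheoryData.ext_zero_left, TheoryData.ext_zero_left, sub_zero, sub_zero]
  -- the vanishing
  have hK : ∀ (w : C.A (X.prod T)) (c : C.A T), w ∈ C.gr (X.prod T) i → c ∈ C.gr T 1 →
      C.act (π b) (C.act (tp C w) (C.act (τ 1) c)) = 0 := by
    intro w c hw hc
    set n := C.comp (C.comp (τ 1) (tp C w)) (π b) with hn
    have hnm : n ∈ C.gr (T.prod X) i := by
      have a1 : tp C w ∈ C.gr (T.prod X) (T.dim + ((i : ℤ) - 1)) := by
        have := tp_mem C hw
        rw [hT1', add_sub_cancel]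
        exact this
      have a2 := comp_mem C (e := 0) (e' := (i : ℤ) - 1) (Γ := τ 1) (Δ := tp C w)
        (by rw [add_zero]; exact hpm) a1
      have a3 := comp_mem C (e := 0 + ((i : ℤ) - 1)) (e' := 0) (Γ := C.comp (τ 1) (tp C w))
        (Δ := π b) a2 (by rw [add_zero]; exact hπ.deg b)
      have e1 : (T.dim : ℤ) + (0 + ((i : ℤ) - 1) + 0) = i := by rw [hT1']; ring
      rwa [e1] at a3
    have hnb : C.act (prodCK C τ π (b + 1)) n = n := by
      unfold prodCK
      rw [act_sum, Finset.sum_eq_single 1]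
      · rw [act_tens C (ch_comm C), tpp, Nat.add_sub_cancel, hn]
        rw [← comp_assoc C (τ 1) (C.comp (τ 1) (tp C w)) (π b), ← comp_assoc C (τ 1) (τ 1),
          hidem, comp_assoc C (C.comp (τ 1) (tp C w)) (π b) (π b), hπ.idem]
      · intro j _ hj
        by_cases hj2 : j ≤ 2
        · rw [act_tens C (ch_comm C), htp j hj2, hn,
            ← comp_assoc C (τ (2 - j)) (C.comp (τ 1) (tp C w)) (π b),
            ← comp_assoc C (τ (2 - j)) (τ 1), hτ.orth _ _ (by omega), zero_comp, zero_comp,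
            zero_comp]
        · rw [hτ.out j (by omega), tens_zero_left, C.act_zero]
      · intro h
        exfalso
        apply h
        rw [Finset.mem_range]
        omega
    have hc' : C.act (τ 1) c ∈ C.gr T 1 := act_mem0 C hpm hc
    have h3 := hZ (T.prod X) (prodCK C τ π) (hτ.prod hπ) i (b + 1) n hnm (by omega) hnb
      (C.act (τ 1) c) hc' (hcl c hc)
    have h4 : C.act n (C.act (τ 1) c) = 0 := by
      rw [act_eq_ext, h3, map_zero, map_zero]
    rw [hn, C.act_comp, C.act_comp, ← C.act_comp (τ 1) (τ 1), hidem] at h4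
    exact h4
  have key : ∀ γ ∈ Submodule.span ℚ {β | ∃ (w : C.A (X.prod T)) (c : C.A T),
      C.Deg ((i : ℤ) + 1 - 1) w ∧ C.Deg 1 c ∧ β = C.ext w c},
      C.act (π b) (kap C X T (C.comp γ (τ 1))) = 0 := by
    intro γ hγ
    induction hγ using Submodule.span_induction with
    | mem γ hγ =>
      obtain ⟨w, c, hw, hc, rfl⟩ := hγ
      rw [add_sub_cancel_right] at hw
      rw [ext_comp, kap_ext]
      exact hK w c hw hc
    | zero => rw [zero_comp, map_zero, C.act_map_zero]
    | add x y _ _ hx hy => rw [add_comp, map_add, act_map_add, hx, hy, add_zero]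
    | smul r x _ hx =>
      have : C.comp (r • x) (τ 1) = r • C.comp x (τ 1) := by
        rw [← compL_apply, ← compL_apply, map_smul, LinearMap.smul_apply]
      rw [this, map_smul, act_map_smul, hx, smul_zero]
  have h2 := key α h1
  rw [hαp, hα, kap_zp z hdeg, act_map_smul, hzb] at h2
  rcases smul_eq_zero.1 h2 with h3 | h3
  · exact absurd (sub_eq_zero.1 h3) hq2
  · exact h3

end weil

end Pool.Agent.H92.ZO
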