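import Pool.Agent.H92.ZO.Main
import Pool.Graph.R_pool_sql_team_seeded_ab47071d.TH133.AlgEq

/-!
# Self-dual decompositions of the product with a curve
-/

open CategoryTheory AlgebraicGeometry

universe u v w

namespace Pool.Agent.H92.ZO

open Pool.Agent.H914 Pool.Agent.H914.VarClass Pool.Agent.H914.VarClass.Obj Pool.Agent.W492.BB
  Pool.Agent.W550.Corr Pool.Agent.TH133

set_option linter.unusedSectionVars false

variable {k : Type u} [Field k] {𝒱 : VarClass k}

section weil

variable {C : TheoryData.{u, v, 0} 𝒱 ℚ} [hC : IsChowProj C] {K : Type w} [Field K]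
  {H : WeilTheoryData.{u, v, w} C K} [hH : IsWeilProj H] {X Y Z V T : 𝒱.Obj}

include hC hH

omit hH in
/-- Curves have self-dual Chow-Kunneth decompositions, for which zero-cycles of degree zero have
weight one. -/
theorem exists_SD_curve (H : WeilTheoryData.{u, v, w} C K) [hH : IsWeilProj H] (T : 𝒱.Obj)
    (hT : T.dim = 1) : ∃ (e : C.A T) (τ : ℕ → C.A (T.prod T)), e ∈ C.gr T 1 ∧ HasDegree C e 1 ∧
      IsCK H T τ ∧ IsSelfDual C τ ∧ τ 1 = dg C T - C.ext e 1 - C.ext 1 e ∧
      ∀ c : C.A T, c ∈ C.gr T 1 →
      HasDegree C c 0 → ∀ j, C.act (τ j) c = if j = 1 then c else 0 := by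
  obtain ⟨e, he, hd⟩ := exists_hasDegree_one (C := C) H T
  have he1 : e ∈ C.gr T 1 := by rw [hT] at he; exact_mod_cast he
  let R0 : Cor C T := C.ext e 1
  let R2 : Cor C T := C.ext 1 e
  have m0 : R0 ∈ cor0 C T := by
    have := ext_mem' he1 (C.one_mem T)
    rw [mem_cor0, hT]
    exact_mod_cast this
  have m2 : R2 ∈ cor0 C T := by
    have := ext_mem' (C.one_mem T) he1
    rw [mem_cor0, hT]
    exact_mod_cast this
  have h00 : R0 * R0 = R0 := by
    have : C.comp (C.ext e (1 : C.A T)) (C.ext e (1 : C.A T)) = (1 : ℚ) • C.ext e (1 : C.A T) :=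
      comp_ext_ext (by rwa [one_mul])
    rw [one_smul] at this
    exact this
  have h22 : R2 * R2 = R2 := by
    have : C.comp (C.ext (1 : C.A T) e) (C.ext (1 : C.A T) e) = (1 : ℚ) • C.ext (1 : C.A T) e :=
      comp_ext_ext (by rwa [mul_one])
    rw [one_smul] at this
    exact this
  have h20 : R2 * R0 = 0 := by
    have : C.comp (C.ext e (1 : C.A T)) (C.ext (1 : C.A T) e) = (0 : ℚ) • C.ext e e :=
      comp_ext_ext (by
        rw [mul_one]
        exact hasDegree_of_ne (C.one_mem T) (by rw [hT]; norm_num))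
    rw [zero_smul] at this
    exact this
  have h02 : R0 * R2 = 0 := by
    have : C.comp (C.ext (1 : C.A T) e) (C.ext e (1 : C.A T)) =
        (0 : ℚ) • C.ext (1 : C.A T) (1 : C.A T) :=
      comp_ext_ext (hasDegree_of_ne (C.mul_mem he1 he1) (by rw [hT]; norm_num))
    rw [zero_smul] at this
    exact this
  have a0 : ∀ (m : ℤ) (y : H.A T), y ∈ H.gr T m → actH C T H R0 y = if m = 0 then y else 0 := by
    intro m y hy
    split_ifs with hm
    · subst hm
      obtain ⟨c, rfl⟩ := hH.gr_zero T y hy
      have h1 : C.act (C.ext e (1 : C.A T)) 1 = (1 : ℚ) • (1 : C.A T) :=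
        act_ext' (by rwa [mul_one])
      have h2 := congrArg H.cl h1
      rw [cl_act H, one_smul, map_one] at h2
      rw [map_smul, actH_apply, h2]
    · exact act_ext_ne (r := 0) (C.one_mem T) (by rw [hT]; simpa using he1) (by simpa using hm) hy
  have a2 : ∀ (m : ℤ) (y : H.A T), y ∈ H.gr T m → actH C T H R2 y = if m = 2 then y else 0 := by
    intro m y hy
    split_ifs with hm
    · subst hm
      obtain ⟨c, rfl⟩ := top_eq he hd (y := y) (by rw [hT]; exact_mod_cast hy)
      have h1 : C.act (C.ext (1 : C.A T) e) e = (1 : ℚ) • e := act_ext' (by rwa [one_mul])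
      have h2 := congrArg H.cl h1
      rw [cl_act H, one_smul] at h2
      rw [map_smul, actH_apply, h2]
    · exact act_ext_ne (r := 1) (by exact_mod_cast he1) (by rw [hT]; simpa using C.one_mem T)
        (by simpa using hm) hy
  let τ : ℕ → Cor C T := fun n => if n = 0 then R0 else if n = 1 then 1 - R0 - R2 else
    if n = 2 then R2 else 0
  have t0 : τ 0 = R0 := rfl
  have t1 : τ 1 = 1 - R0 - R2 := rfl
  have t2 : τ 2 = R2 := rfl
  have t3 : ∀ n, τ (n + 3) = 0 := fun n => rfl
  have hτ : IsCK H T τ := by
    apply isCK_of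
    · intro n
      rcases n with _ | _ | _ | n
      · exact m0
      · exact (cor0 C T).sub_mem ((cor0 C T).sub_mem (cor0 C T).one_mem m0) m2
      · exact m2
      · exact (cor0 C T).zero_mem
    · intro n hn
      rw [hT] at hn
      rcases n with _ | _ | _ | n
      · omega
      · omega
      · omega
      · rfl
    · have e1 : R0 * (1 - R0 - R2) = 0 := by
        rw [mul_sub, mul_sub, mul_one, h00, h02, sub_self, sub_zero]
      have e2 : (1 - R0 - R2) * R0 = 0 := by
        rw [sub_mul, sub_mul, one_mul, h00, h20, sub_self, sub_zero]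
      have e3 : R2 * (1 - R0 - R2) = 0 := by
        rw [mul_sub, mul_sub, mul_one, h22, h20, sub_zero, sub_self]
      have e4 : (1 - R0 - R2) * R2 = 0 := by
        rw [sub_mul, sub_mul, one_mul, h22, h02, sub_zero, sub_self]
      have e5 : (1 - R0 - R2) * (1 - R0 - R2) = 1 - R0 - R2 := by
        rw [mul_sub, mul_sub, mul_one, e2, e4, sub_zero, sub_zero]
      intro i j
      rcases i with _ | _ | _ | i
      · rcases j with _ | _ | _ | j
        · exact h00
        · exact e1
        · exact h02
        · exact mul_zero _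
      · rcases j with _ | _ | _ | j
        · exact e2
        · exact e5
        · exact e4
        · exact mul_zero _
      · rcases j with _ | _ | _ | j
        · exact h20
        · exact e3
        · exact h22
        · exact mul_zero _
      · rw [t3, zero_mul]
        split_ifs <;> rfl
    · rw [hT]
      rw [Finset.sum_range_succ, Finset.sum_range_succ, Finset.sum_range_one, t0, t1, t2]
      abel
    · intro i m a ha
      have hm : a ≠ 0 → 0 ≤ m ∧ m ≤ 2 := by
        intro ha0
        refine ⟨nonneg_of_mem H ha ha0, ?_⟩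
        by_contra hcon
        rw [gr_top H (by rw [hT]; push_cast; omega)] at ha
        exact ha0 ((Submodule.mem_bot _).1 ha)
      by_cases ha0 : a = 0
      · subst ha0
        rw [map_zero]
        split_ifs <;> rfl
      have hm' := hm ha0
      rcases i with _ | _ | _ | i
      · rw [t0, a0 m a ha]
        rfl
      · rw [t1, map_sub, map_sub, map_one, LinearMap.sub_apply, LinearMap.sub_apply,
          a0 m a ha, a2 m a ha]
        change a - _ - _ = _
        by_cases h1 : m = 1
        · subst h1
          simp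
        · rw [if_neg (c := m = ((0 + 1 : ℕ) : ℤ)) (by simpa using h1)]
          by_cases h0 : m = 0
          · subst h0
            simp
          · have h2 : m = 2 := by omega
            subst h2
            simp
      · rw [t2, a2 m a ha]
        rfl
      · rw [t3, map_zero, LinearMap.zero_apply, if_neg]
        push_cast
        omega
  have hsd : IsSelfDual C (X := T) τ := by
    have s0 : tpR C T R0 = R2 := tp_ext e 1
    have s2 : tpR C T R2 = R0 := tp_ext 1 e
    have s1 : tpR C T (1 - R0 - R2) = 1 - R0 - R2 := by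
      rw [map_sub, map_sub, tpR_one, s0, s2]
      abel
    intro i hi
    rw [hT] at hi ⊢
    rcases i with _ | _ | _ | i
    · exact s0
    · exact s1
    · exact s2
    · omega
  refine ⟨e, τ, he1, hd, hτ, hsd, rfl, fun c hc hc0 j => ?_⟩
  have c0 : C.act (C.ext e (1 : C.A T)) c = 0 := by
    rw [act_ext' (q := 0), zero_smul]
    exact hasDegree_of_ne (C.mul_mem he1 hc) (by rw [hT]; norm_num)
  have c2 : C.act (C.ext (1 : C.A T) e) c = 0 := by
    rw [act_ext' (q := 0), zero_smul]
    rwa [one_mul]
  have c0' : actC C T R0 c = 0 := c0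
  have c2' : actC C T R2 c = 0 := c2
  rcases j with _ | _ | _ | j
  · exact c0
  · have : actC C T (1 - R0 - R2) c = c := by
      rw [map_sub, map_sub, map_one, LinearMap.sub_apply, LinearMap.sub_apply, c0', c2', sub_zero,
        sub_zero]
      rfl
    exact this
  · exact c2
  · exact C.act_zero c


/-- The product decomposition in terms of the three members of the decomposition of the curve. -/
lemma prodCK_curve (hT : T.dim = 1) {ρ : ℕ → C.A (X.prod X)} {τ : ℕ → C.A (T.prod T)}
    (hτ : IsCK H T τ) (n : ℕ) :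
    prodCK C ρ τ n = ∑ j ∈ Finset.range 3, tens C (sh ρ j n) (τ j) := by
  have h3 : ∀ j, 3 ≤ j → τ j = 0 := fun j hj => hτ.out j (by omega)
  have e1 : prodCK C ρ τ n = ∑ j ∈ Finset.range (n + 1), tens C (sh ρ j n) (τ j) := by
    unfold prodCK
    rw [← Finset.sum_range_reflect]
    apply Finset.sum_congr rfl
    intro j hj
    rw [Finset.mem_range] at hj
    have a1 : n + 1 - 1 - j = n - j := by omega
    have a2 : n - (n - j) = j := by omega
    rw [a1, a2]
    unfold sh
    rw [if_pos (by omega)]
  have e2 : ∀ N M : ℕ, N ≤ M → (∀ j, N ≤ j → tens C (sh ρ j n) (τ j) = 0) →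
      ∑ j ∈ Finset.range N, tens C (sh ρ j n) (τ j) =
        ∑ j ∈ Finset.range M, tens C (sh ρ j n) (τ j) := by
    intro N M hNM h0
    apply Finset.sum_subset
    · intro j hj
      rw [Finset.mem_range] at *
      omega
    · intro j _ hj
      rw [Finset.mem_range] at hj
      exact h0 j (by omega)
  rw [e1]
  have hA : ∀ j, n + 1 ≤ j → tens C (sh ρ j n) (τ j) = 0 := by
    intro j hj
    unfold sh
    rw [if_neg (by omega), tens_zero_left]
  have hB : ∀ j, 3 ≤ j → tens C (sh ρ j n) (τ j) = 0 := by
    intro j hj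
    rw [h3 j hj, tens_zero_right]
  rw [e2 (n + 1) (max (n + 1) 3) (le_max_left _ _) hA, e2 3 (max (n + 1) 3) (le_max_right _ _) hB]

/-- The product of self-dual decompositions is self-dual. -/
lemma prodCK_selfDual (hT : T.dim = 1) {ρ : ℕ → C.A (X.prod X)} {τ : ℕ → C.A (T.prod T)}
    (hρ : IsCK H X ρ) (hρs : IsSelfDual C ρ) (hτ : IsCK H T τ) (hτs : IsSelfDual C τ) :
    IsSelfDual C (prodCK C ρ τ) := by
  have hd : dualCK C ρ = ρ := by
    funext i
    unfold dualCK
    split_ifs with h1
    · rw [hρs _ (by omega)]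
      congr 1
      omega
    · exact (hρ.out i (by omega)).symm
  intro n hn
  have hn' : n ≤ 2 * (X.dim + 1) := by rw [dim_prod, hT] at hn; exact hn
  rw [prodCK_curve hT hτ, prodCK_curve hT hτ, tp_sum]
  simp_rw [tp_tens]
  have e0 : ∀ j ≤ 2, tens C (tp C (sh ρ j n)) (tp C (τ j)) =
      tens C (sh ρ (2 - j) (2 * (X.prod T).dim - n)) (τ (2 - j)) := by
    intro j hj
    rw [sh_tp hρ j 1 n (by omega) hn', hd, hτs j (by rw [hT]; omega), hT, dim_prod, hT]
  rw [Finset.sum_range_succ, Finset.sum_range_succ, Finset.sum_range_one, e0 0 (by omega),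
    e0 1 (by omega), e0 2 (by omega), Finset.sum_range_succ, Finset.sum_range_succ,
    Finset.sum_range_one]
  change _ + tens C (sh ρ 1 _) (τ 1) + tens C (sh ρ 0 _) (τ 0) = _
  change tens C (sh ρ 2 _) (τ 2) + tens C (sh ρ 1 _) (τ 1) + tens C (sh ρ 0 _) (τ 0) = _
  abel

/-- The action of the product decomposition on `x × c`. -/
lemma prodCK_ext {ρ : ℕ → C.A (X.prod X)} {τ : ℕ → C.A (T.prod T)} {c : C.A T}
    (hc : ∀ j, C.act (τ j) c = if j = 1 then c else 0) (x : C.A X) (b : ℕ) :
    C.act (prodCK C ρ τ (b + 1)) (C.ext x c) = C.ext (C.act (ρ b) x) c := by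
  unfold prodCK
  rw [act_sum, Finset.sum_eq_single b]
  · rw [act_tens_ext', hc, if_pos (by omega)]
  · intro i _ hi
    rw [act_tens_ext', hc]
    by_cases h1 : b + 1 - i = 1
    · exfalso
      apply hi
      omega
    · rw [if_neg h1, TheoryData.ext_zero_right]
  · intro h
    exfalso
    apply h
    rw [Finset.mem_range]
    omega

end weil

end Pool.Agent.H92.ZO
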