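import Pool.Agent.H92.ZO.Defs0

/-!
# One cycle class decides the independence of `F^0`: definitions
-/

open CategoryTheory AlgebraicGeometry

universe u v w

namespace Pool.Agent.H92.ZO

open Pool.Agent.H914 Pool.Agent.H914.VarClass Pool.Agent.H914.VarClass.Obj Pool.Agent.W492.BB
  Pool.Agent.W550.Corr Pool.Agent.TH133

variable {k : Type u} [Field k] {𝒱 : VarClass k}

section weil

variable {C : TheoryData.{u, v, 0} 𝒱 ℚ} {K : Type w} [Field K] (H : WeilTheoryData.{u, v, w} C K)

/-- Every homologically trivial self-correspondence `γ` of `X` of degree zero is nilpotent: the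
composition of `m` copies of it is zero. -/
def HomNilpotent (X : 𝒱.Obj) : Prop :=
  ∀ γ : C.A (X.prod X), C.Deg X.dim γ → H.cl γ = 0 →
    ∃ m : ℕ, (fun Γ : C.A (X.prod X) => C.comp γ Γ)^[m] (dg C X) = 0

/-- The sum of the subgroups `F^n CH^i(X)` for all the Chow-Kunneth decompositions of `X`. -/
noncomputable def maxStep (X : 𝒱.Obj) (i n : ℕ) : Submodule ℚ (C.A X) := sSup (steps H X i n)

/-- The intersection of the subgroups `F^n CH^i(X)` for all the Chow-Kunneth decompositions of
`X`. -/
noncomputable def minStep (X : 𝒱.Obj) (i n : ℕ) : Submodule ℚ (C.A X) := sInf (steps H X i n)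

/-- The zero-one law for the class `x` and `F^0 CH^i(X)`: (a) independence of the decomposition,
(b) invariance under elementary moves, (c) the one class `x` is in `F^0` for all decompositions,
(d) there are finitely many subgroups `F^0 CH^i(X)`, (e) they are all equal to `CH^i(X)`. -/
def ZeroOneLaw (X : 𝒱.Obj) (i : ℕ) (x : C.A X) : Prop :=
  List.TFAE [∀ π π', IsCK H X π → IsCK H X π' → ckFil C π i 0 = ckFil C π' i 0,
    ∀ π π', IsCK H X π → IsCK H X π' → ElementaryMove C i π π' →
      ckFil C π i 0 = ckFil C π' i 0,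
    ∀ π, IsCK H X π → x ∈ ckFil C π i 0,
    (steps H X i 0).Finite,
    ∀ π, IsCK H X π → ckFil C π i 0 = C.gr X i]

/-- The zero-one law for the class `x` and the self-dual decompositions: independence of the
decomposition; the one class `x` is in `F^0`; finiteness; `F^0 CH^i(X) = CH^i(X)`. -/
def SelfDualZeroOneLaw (X : 𝒱.Obj) (i : ℕ) (x : C.A X) : Prop :=
  List.TFAE [∀ π π', IsSelfDualCK H X π → IsSelfDualCK H X π' →
      ckFil C π i 0 = ckFil C π' i 0,
    ∀ π, IsSelfDualCK H X π → x ∈ ckFil C π i 0,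
    (selfDualSteps H X i 0).Finite,
    ∀ π, IsSelfDualCK H X π → ckFil C π i 0 = C.gr X i]

/-- If there is a decomposition `π` then `x` is in `F^0` for some decomposition (a self-dual one if
`π` is self-dual), and there is a family of decompositions `ρ α`, `α ∈ CH^i(X)`, such that
`F^0_(ρ α) CH^i(X) = F^0_(ρ β) CH^i(X)` if and only if `α - β ∈ F^0_π CH^i(X)`. -/
def ManySteps (X : 𝒱.Obj) (i : ℕ) (x : C.A X) : Prop :=
  ∀ π, IsCK H X π → (∃ ρ, IsCK H X ρ ∧ x ∈ ckFil C ρ i 0) ∧
    (IsSelfDual C π → ∃ ρ, IsSelfDualCK H X ρ ∧ x ∈ ckFil C ρ i 0) ∧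
    ∃ ρ : C.A X → ℕ → C.A (X.prod X), ∀ α, C.Deg i α → IsCK H X (ρ α) ∧ ∀ β, C.Deg i β →
      (ckFil C (ρ α) i 0 = ckFil C (ρ β) i 0 ↔ α - β ∈ ckFil C π i 0)

/-- The sum and the intersection of the `F^n CH^i(X)` for all decompositions are preserved by all
self-correspondences of degree zero. -/
def StableSteps (X : 𝒱.Obj) : Prop :=
  ∀ γ : C.A (X.prod X), C.Deg X.dim γ → ∀ (i n : ℕ) (x : C.A X),
    (x ∈ maxStep H X i n → C.act γ x ∈ maxStep H X i n) ∧
    (x ∈ minStep H X i n → C.act γ x ∈ minStep H X i n)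

/-- If there are only finitely many subgroups `F^n CH^i(X)`, for some `i` and `n`, then they are all
equal. -/
def OneOrInfinite (X : 𝒱.Obj) : Prop :=
  ∀ i n : ℕ, (steps H X i n).Finite →
    ∀ π π', IsCK H X π → IsCK H X π' → ckFil C π i n = ckFil C π' i n

end weil

end Pool.Agent.H92.ZO
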