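import Pool.Graph.R_seed8.TH133.Ext

/-!
# Steps of the Chow-Kunneth filtrations: basic definitions
-/

open CategoryTheory AlgebraicGeometry

universe u v w

namespace Pool.Agent.H92.ZO

open Pool.Agent.H914 Pool.Agent.H914.VarClass Pool.Agent.H914.VarClass.Obj Pool.Agent.W492.BB
  Pool.Agent.W550.Corr Pool.Agent.TH133

variable {k : Type u} [Field k] {𝒱 : VarClass k}

/-- The family `π'` is obtained from `π` by an elementary move: for some `b > 2 i` and some
`y ∈ CH^(dim X - i)(X)`, `z ∈ CH^i(X)`, the product cycle `y × z` is added to `π (2 i)` and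
subtracted from `π b`, and the other members are not changed. -/
def ElementaryMove (C : TheoryData.{u, v, 0} 𝒱 ℚ) {X : 𝒱.Obj} (i : ℕ)
    (π π' : ℕ → C.A (X.prod X)) : Prop :=
  ∃ (b : ℕ) (y z : C.A X), 2 * i < b ∧ C.Deg ((X.dim : ℤ) - i) y ∧ C.Deg i z ∧
    π' (2 * i) = π (2 * i) + C.ext y z ∧ π' b = π b - C.ext y z ∧
    ∀ j, j ≠ 2 * i → j ≠ b → π' j = π j

section weil

variable {C : TheoryData.{u, v, 0} 𝒱 ℚ} {K : Type w} [Field K] (H : WeilTheoryData.{u, v, w} C K)

/-- The class `x ∈ CH^i(X)` is not numerically trivial: for some `v ∈ CH^(dim X - i)(X)` the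
zero-cycle `v · x` is not homologically trivial, that is, its degree is not zero. -/
def NumNontrivial {X : 𝒱.Obj} (i : ℕ) (x : C.A X) : Prop :=
  C.Deg i x ∧ ∃ v : C.A X, C.Deg ((X.dim : ℤ) - i) v ∧ H.cl (v * x) ≠ 0

/-- The set of the subgroups `F^n CH^i(X)` for all the Chow-Kunneth decompositions of `X`. -/
def steps (X : 𝒱.Obj) (i n : ℕ) : Set (Submodule ℚ (C.A X)) :=
  {F | ∃ π, IsCK H X π ∧ F = ckFil C π i n}

/-- The self-dual Chow-Kunneth decompositions of `X`: the transpose of `π j` is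
`π (2 dim X - j)`. -/
def IsSelfDualCK (X : 𝒱.Obj) (π : ℕ → C.A (X.prod X)) : Prop := IsCK H X π ∧ IsSelfDual C π

/-- The set of the subgroups `F^n CH^i(X)` for all the self-dual Chow-Kunneth decompositions of
`X`. -/
def selfDualSteps (X : 𝒱.Obj) (i n : ℕ) : Set (Submodule ℚ (C.A X)) :=
  {F | ∃ π, IsSelfDualCK H X π ∧ F = ckFil C π i n}

end weil

end Pool.Agent.H92.ZO
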