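import Pool.Agent.H92.ZO.Defs0

/-!
# Blow-ups of projective spaces: definitions
-/

open CategoryTheory AlgebraicGeometry

universe u v w

namespace Pool.Agent.H92.ZO

open Pool.Agent.H914 Pool.Agent.H914.VarClass Pool.Agent.H914.VarClass.Obj Pool.Agent.W492.BB
  Pool.Agent.W550.Corr Pool.Agent.TH133

variable {k : Type u} [Field k] {𝒱 : VarClass k}

/-- **The blow-up formula** (Manin). `V` has the Chow motive of the blow-up of the projective space
`P` of dimension `dim V = dim X + r` along a smooth subvariety isomorphic to `X`, of codimension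
`r ≥ 2`: `h(V) = h(P) ⊕ ⨁_{1 ≤ s < r} h(X)(-s)`. With the blow-up `τ : V → P`, the exceptional
divisor `j : E → V`, `g : E → X` and `ζ = c_1(O_E(1))`, the correspondence `a s ∈ CH^(dim X + s)(X × V)`
is `x ↦ j_* (ζ^(s-1) g^* x)`, up to a triangular change of basis, `b s ∈ CH^(dim V - s)(V × X)` is the
projection to the summand `h(X)(-s)`, `u l = τ^* h^l` is the pull-back of the class of a linear
subspace of codimension `l` of `P`, and `w l = τ^* h^(dim V - l)`. In the notation `C.comp Γ Δ` the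
correspondence `Γ` is applied first. -/
structure BlowUpFormula (C : TheoryData.{u, v, 0} 𝒱 ℚ) (X V : 𝒱.Obj) (r : ℕ)
    (a : ℕ → C.A (X.prod V)) (b : ℕ → C.A (V.prod X)) (u w : ℕ → C.A V) : Prop where
  two_le : 2 ≤ r
  dim_eq : V.dim = X.dim + r
  a_mem : ∀ s ∈ Finset.Ico 1 r, C.Deg ((X.dim : ℤ) + s) (a s)
  b_mem : ∀ s ∈ Finset.Ico 1 r, C.Deg ((V.dim : ℤ) - s) (b s)
  u_mem : ∀ l ≤ V.dim, C.Deg l (u l)
  w_mem : ∀ l ≤ V.dim, C.Deg ((V.dim : ℤ) - l) (w l)
  ab : ∀ s ∈ Finset.Ico 1 r, ∀ t ∈ Finset.Ico 1 r,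
    C.comp (a s) (b t) = if s = t then dg C X else 0
  uw : ∀ l ≤ V.dim, ∀ l' ≤ V.dim, HasDegree C (w l' * u l) (if l = l' then 1 else 0)
  ub : ∀ s ∈ Finset.Ico 1 r, ∀ l ≤ V.dim, C.act (b s) (u l) = 0
  wa : ∀ s ∈ Finset.Ico 1 r, ∀ l ≤ V.dim, C.act (tp C (a s)) (w l) = 0
  sum : ∑ s ∈ Finset.Ico 1 r, C.comp (b s) (a s) +
    ∑ l ∈ Finset.range (V.dim + 1), C.ext (w l) (u l) = dg C V

/-- The class `Rat` contains the blow-ups of the projective spaces of large even dimension: every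
`X` can be embedded in the projective space `P` of dimension `2 m`, for all large `m`, and `Rat`
contains the blow-up `V` of `P` along `X`. -/
def HasBlowUps (C : TheoryData.{u, v, 0} 𝒱 ℚ) (Rat : 𝒱.Obj → Prop) : Prop :=
  ∀ X : 𝒱.Obj, ∃ n : ℕ, ∀ m : ℕ, n ≤ m → ∃ V : 𝒱.Obj, Rat V ∧ V.dim = 2 * m ∧
    ∃ (r : ℕ) (a : ℕ → C.A (X.prod V)) (b : ℕ → C.A (V.prod X)) (u w : ℕ → C.A V),
      BlowUpFormula C X V r a b u w

/-- `P` looks like the quadric surface `P^1 × P^1`: there are classes `l = [P^1 × pt]` and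
`l' = [pt × P^1]` in `CH^1(P)` and a class `o = [pt]` in `CH^2(P)` with intersection numbers
`(l, l') = 1`, `(l, l) = (l', l') = 0`, `deg o = 1`, and
`[Δ_P] = 1 × o + o × 1 + l × l' + l' × l`. -/
def IsQuadric (C : TheoryData.{u, v, 0} 𝒱 ℚ) (P : 𝒱.Obj) : Prop :=
  P.dim = 2 ∧ ∃ l l' o : C.A P, C.Deg 1 l ∧ C.Deg 1 l' ∧ C.Deg 2 o ∧ HasDegree C o 1 ∧
    HasDegree C (l * l') 1 ∧ HasDegree C (l * l) 0 ∧ HasDegree C (l' * l') 0 ∧
    dg C P = (C.ext 1 o + C.ext o 1) + (C.ext l l' + C.ext l' l)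

/-- The properties of the class `Rat` of rational varieties which are used: it contains the blow-ups
of the projective spaces of large even dimension along all `X`, and it is closed under the product
with `P = P^1 × P^1`. -/
structure IsRationalClass (C : TheoryData.{u, v, 0} 𝒱 ℚ) (Rat : 𝒱.Obj → Prop) (P : 𝒱.Obj) :
    Prop where
  blowUps : HasBlowUps C Rat
  quadric : IsQuadric C P
  prod : ∀ V : 𝒱.Obj, Rat V → Rat (V.prod P)

section weil

variable {C : TheoryData.{u, v, 0} 𝒱 ℚ} {K : Type w} [Field K] (H : WeilTheoryData.{u, v, w} C K)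

/-- The test for the class `x ∈ CH^i(X)`, the step `F^n` and the self-dual decompositions: `x` lies
in `F^n CH^i(X)` for all self-dual Chow-Kunneth decompositions of `X`. -/
def TestClass (i n : ℕ) (X : 𝒱.Obj) (x : C.A X) : Prop :=
  ∀ π, IsSelfDualCK H X π → x ∈ ckFil C π i n

/-- There are infinitely many `m` such that `p m V` holds for all `V` in `Rat` of dimension
`2 m`. -/
def ForRational (Rat : 𝒱.Obj → Prop) (p : ℕ → 𝒱.Obj → Prop) : Prop :=
  ∀ n : ℕ, ∃ m, n ≤ m ∧ ∀ V, Rat V → V.dim = 2 * m → p m V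

end weil

end Pool.Agent.H92.ZO
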