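import Pool.Agent.H92.ZO.DefsC

/-!
# The steps `F^n` on the products with curves: definitions
-/

open CategoryTheory AlgebraicGeometry

universe u v w

namespace Pool.Agent.H92.ZO

open Pool.Agent.H914 Pool.Agent.H914.VarClass Pool.Agent.H914.VarClass.Obj Pool.Agent.W492.BB
  Pool.Agent.W550.Corr Pool.Agent.TH133

variable {k : Type u} [Field k] {𝒱 : VarClass k}

/-- `ProductCycle C 𝒯 s Y y`, for a class `𝒯` of curves: the variety `Y` is a product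
`T_1 × (T_2 × ⋯ × T_s)` of `s ≥ 1` curves in `𝒯`, and `y = c_1 × ⋯ × c_s` with `c_i ∈ CH^1(T_i)` a
zero-cycle of degree zero. -/
inductive ProductCycle (C : TheoryData.{u, v, 0} 𝒱 ℚ) (𝒯 : 𝒱.Obj → Prop) :
    ℕ → (Y : 𝒱.Obj) → C.A Y → Prop
  | one (T : 𝒱.Obj) (c : C.A T) (h𝒯 : 𝒯 T) (hT : T.dim = 1) (hc : C.Deg 1 c)
      (hd : HasDegree C c 0) : ProductCycle C 𝒯 1 T c
  | cons (s : ℕ) (T Y : 𝒱.Obj) (c : C.A T) (y : C.A Y) (h𝒯 : 𝒯 T) (hT : T.dim = 1)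
      (hc : C.Deg 1 c) (hd : HasDegree C c 0) (hy : ProductCycle C 𝒯 s Y y) :
      ProductCycle C 𝒯 (s + 1) (T.prod Y) (C.ext c y)

/-- Every class `z ≠ 0` on a variety `X` has a non-zero product `z × c` with a zero-cycle `c` of
degree zero on a curve `T` in `𝒯`. For `k` a universal domain such as `ℂ` and `𝒯` all curves this is
a theorem of C. Schoen. -/
def NonzeroProducts (C : TheoryData.{u, v, 0} 𝒱 ℚ) (𝒯 : 𝒱.Obj → Prop) : Prop :=
  ∀ (X : 𝒱.Obj) (z : C.A X), z ≠ 0 → ∃ (T : 𝒱.Obj) (c : C.A T), 𝒯 T ∧ T.dim = 1 ∧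
    C.Deg 1 c ∧ HasDegree C c 0 ∧ C.ext z c ≠ 0

/-- For all `X`, all Chow-Kunneth decompositions of `X` and all `i` the classes
`Γ_* (c_1 × ⋯ × c_n)`, `Γ ∈ CH^i(T_1 × ⋯ × T_n × X)`, with zero-cycles `c_j` of degree zero on curves
`T_j` in `𝒯`, are in `F^n CH^i(X)`. If `𝒯` is the class of all curves these classes span the `n`-th
power of algebraic equivalence. -/
def PowersInSteps {C : TheoryData.{u, v, 0} 𝒱 ℚ} {K : Type w} [Field K]
    (H : WeilTheoryData.{u, v, w} C K) (𝒯 : 𝒱.Obj → Prop) (n : ℕ) : Prop :=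
  ∀ (X : 𝒱.Obj) π, IsCK H X π → ∀ (i : ℕ) (Y : 𝒱.Obj) (y : C.A Y) (Γ : C.A (Y.prod X)),
    ProductCycle C 𝒯 n Y y → C.Deg i Γ → C.act Γ y ∈ ckFil C π i n

end Pool.Agent.H92.ZO
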