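import Pool.Agent.H92.ZO.One

/-!
# One cycle class decides the independence of `F^0`: self-dual decompositions
-/

open CategoryTheory AlgebraicGeometry

universe u v w

namespace Pool.Agent.H92.ZO

open Pool.Agent.H914 Pool.Agent.H914.VarClass Pool.Agent.H914.VarClass.Obj Pool.Agent.W492.BB
  Pool.Agent.W550.Corr Pool.Agent.TH133

set_option linter.unusedSectionVars false

variable {k : Type u} [Field k] {𝒱 : VarClass k}

section chow

variable {C : TheoryData.{u, v, 0} 𝒱 ℚ} [hC : IsChowProj C] {X Y Z W : 𝒱.Obj}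

include hC

/-- A class which is not a zero-cycle has degree zero. -/
lemma hasDegree_of_ne {x : C.A X} {i : ℤ} (hx : x ∈ C.gr X i) (hi : i ≠ X.dim) :
    HasDegree C x 0 := by
  intro Y
  rw [zero_smul]
  rcases lt_or_gt_of_ne hi with h | h
  · constructor
    · have h2 := C.push_mem (snd X Y) (C.pull_mem (fst X Y) hx)
      rw [C.gr_neg Y _ (by rw [dim_prod]; push_cast; omega)] at h2
      exact (Submodule.mem_bot _).1 h2
    · have h2 := C.push_mem (fst Y X) (C.pull_mem (snd Y X) hx)
      rw [C.gr_neg Y _ (by rw [dim_prod]; push_cast; omega)] at h2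
      exact (Submodule.mem_bot _).1 h2
  · rw [hC.gr_top X i _ hx h, map_zero, map_zero, map_zero, map_zero]
    exact ⟨rfl, rfl⟩

/-- The degree exists. -/
lemma exists_hasDegree' {x : C.A X} {i : ℤ} (hx : x ∈ C.gr X i) : ∃ q, HasDegree C x q := by
  by_cases hi : i = X.dim
  · rw [hi] at hx
    exact exists_hasDegree hx
  · exact ⟨0, hasDegree_of_ne hx hi⟩

end chow

section weil

variable {C : TheoryData.{u, v, 0} 𝒱 ℚ} [hC : IsChowProj C] {K : Type w} [Field K]
  {H : WeilTheoryData.{u, v, w} C K} [hH : IsWeilProj H] {X Y Z W : 𝒱.Obj}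

include hC hH

/-- Products with homologically trivial classes have degree zero. -/
lemma hasDegree_mul_hom {x z : C.A X} {i j : ℤ} (hx : x ∈ C.gr X i) (hz : z ∈ C.gr X j)
    (h : H.cl z = 0) : HasDegree C (x * z) 0 := by
  have hm := C.mul_mem hx hz
  by_cases hij : i + j = X.dim
  · rw [hij] at hm
    exact hasDegree_zero_of_cl H hm (by rw [map_mul, h, mul_zero])
  · exact hasDegree_of_ne hm hij

omit hC hH in
/-- The product cycle as an element of the ring of correspondences. -/
noncomputable def exC (v α : C.A X) : Cor C X := C.ext v α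

omit hH in
lemma cor_ext_mul {v α v' α' : C.A X} {q : ℚ} (hq : HasDegree C (α * v') q) :
    exC v' α' * exC v α = q • exC v α' := by
  rw [cor_mul]
  exact comp_ext_ext hq

/-- The exponential of an element of the ring of correspondences with vanishing cube. -/
lemma exp_mul {N : Cor C X} (h : N * N * N = 0) :
    (1 + N + (1 / 2 : ℚ) • (N * N)) * (1 - N + (1 / 2 : ℚ) • (N * N)) = 1 := by
  have h4 : N * N * (N * N) = 0 := by rw [← mul_assoc, h, zero_mul]
  have h' : N * (N * N) = 0 := by rw [← mul_assoc, h]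
  have e : (1 + N + (1 / 2 : ℚ) • (N * N)) * (1 - N + (1 / 2 : ℚ) • (N * N)) =
      1 - N * N + (1 / 2 : ℚ) • (N * N) + (1 / 2 : ℚ) • (N * N) := by
    simp only [add_mul, mul_add, mul_sub, one_mul, mul_one, smul_mul_assoc, mul_smul_comm, h, h',
      h4, smul_zero]
    module
  have e2 : (1 / 2 : ℚ) • (N * N) + (1 / 2 : ℚ) • (N * N) = N * N := by
    rw [← add_smul]; norm_num
  rw [e, add_assoc, e2, sub_add_cancel]

/-- **The family of Eichler transformations.** Let `π` be self-dual, `v ∈ CH^(d - i)(X)`, and let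
`α ∈ CH^i(X)`. There is a self-dual Chow-Kunneth decomposition `ρ` of `X` with
`F^0_ρ CH^i(X) = {x | x - deg(v x) α ∈ F^0_π CH^i(X)}`. -/
theorem eichler_family {π : ℕ → C.A (X.prod X)} (hπ : IsCK H X π) (hsd : IsSelfDual C π) {i : ℕ}
    {v α : C.A X} (hv : v ∈ C.gr X ((X.dim : ℤ) - i)) (hα : α ∈ C.gr X i) :
    ∃ ρ, (IsCK H X ρ ∧ IsSelfDual C ρ) ∧
      (∀ (x : C.A X) (q : ℚ), x ∈ C.gr X i → HasDegree C (v * x) q →
        (x ∈ ckFil C ρ i 0 ↔ x - q • α ∈ ckFil C π i 0)) := by
  let P : ℕ → Cor C X := π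
  have hP : IsCK H X P := hπ
  have hPm : ∀ i, P i ∈ cor0 C X := hπ.deg
  set Q : Cor C X := upper P i with hQ
  have hQm : Q ∈ cor0 C X := upper_mem hP i
  set z : C.A X := actC C X Q α with hz
  have hzm : z ∈ C.gr X i := actC_mem (H := H) hQm hα
  have hzh : H.cl z = 0 := by
    have h1 : H.cl z = actH C X H Q (H.cl α) := cl_act H _ _
    rw [h1, hQ, upper, map_sum, LinearMap.sum_apply]
    apply Finset.sum_eq_zero
    intro j hj
    have h2 : H.cl α ∈ H.gr X (2 * (i : ℤ)) := H.cl_mem hα
    rw [hP.actH_eq' _ _ h2, if_neg (by have := (Finset.mem_filter.1 hj).2; omega)]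
  -- the correspondences
  let e1 : Cor C X := exC v z
  let e2 : Cor C X := exC z v
  let zz : Cor C X := exC z z
  have he1 : e1 ∈ cor0 C X := by
    have := ext_mem (C := C) (H := H) hv hzm
    rwa [sub_add_cancel] at this
  have he2 : e2 ∈ cor0 C X := by
    have := ext_mem (C := C) (H := H) hzm hv
    rwa [add_sub_cancel] at this
  have dvz : HasDegree C (v * z) 0 := hasDegree_mul_hom hv hzm hzh
  have dzv : HasDegree C (z * v) 0 := by rw [ch_comm C]; exact dvz
  have dzz : HasDegree C (z * z) 0 := hasDegree_mul_hom hzm hzm hzh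
  obtain ⟨q', dvv⟩ := exists_hasDegree' (C.mul_mem hv hv)
  have m11 : e1 * e1 = 0 := (cor_ext_mul dzv).trans (zero_smul ℚ _)
  have m22 : e2 * e2 = 0 := (cor_ext_mul dvz).trans (zero_smul ℚ _)
  have m21 : e2 * e1 = 0 := (cor_ext_mul dzz).trans (zero_smul ℚ _)
  have m12 : e1 * e2 = q' • zz := cor_ext_mul dvv
  have mz1 : zz * e1 = 0 := (cor_ext_mul dzz).trans (zero_smul ℚ _)
  have mz2 : zz * e2 = 0 := (cor_ext_mul dvz).trans (zero_smul ℚ _)
  set N : Cor C X := e1 - e2 with hN
  have hNN : N * N = -(q' • zz) := by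
    rw [hN, sub_mul, mul_sub, mul_sub, m11, m22, m21, m12]; abel
  have hNNN : N * N * N = 0 := by
    rw [hNN, neg_mul, smul_mul_assoc, hN, mul_sub, mz1, mz2, sub_zero, smul_zero, neg_zero]
  have hNm : N ∈ cor0 C X := (cor0 C X).sub_mem he1 he2
  have hNNm : (1 / 2 : ℚ) • (N * N) ∈ cor0 C X :=
    (cor0 C X).smul_mem ((cor0 C X).mul_mem hNm hNm) _
  set s : Cor C X := 1 + N + (1 / 2 : ℚ) • (N * N) with hs'
  set t : Cor C X := 1 - N + (1 / 2 : ℚ) • (N * N) with ht'
  have hs : s ∈ cor0 C X := (cor0 C X).add_mem ((cor0 C X).add_mem (cor0 C X).one_mem hNm) hNNm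
  have ht : t ∈ cor0 C X := (cor0 C X).add_mem ((cor0 C X).sub_mem (cor0 C X).one_mem hNm) hNNm
  have hst : s * t = 1 := exp_mul (H := H) hNNN
  have hts : t * s = 1 := by
    have h1 := exp_mul (H := H) (N := -N) (by rw [neg_mul_neg, mul_neg, hNNN, neg_zero])
    rw [neg_mul_neg, sub_neg_eq_add, ← sub_eq_add_neg] at h1
    exact h1
  -- the action on the cohomology
  have hcl1 : H.cl (X := X.prod X) e1 = 0 := by
    change H.cl (C.ext v z) = 0
    rw [TheoryData.ext, map_mul, H.cl_pull, H.cl_pull, hzh, map_zero, mul_zero]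
  have hcl2 : H.cl (X := X.prod X) e2 = 0 := by
    change H.cl (C.ext z v) = 0
    rw [TheoryData.ext, map_mul, H.cl_pull, H.cl_pull, hzh, map_zero, zero_mul]
  have ha1 : actH C X H e1 = 0 := by
    apply LinearMap.ext
    intro a
    rw [actH_apply, hcl1]
    exact H.act_zero a
  have ha2 : actH C X H e2 = 0 := by
    apply LinearMap.ext
    intro a
    rw [actH_apply, hcl2]
    exact H.act_zero a
  have haN : actH C X H N = 0 := by rw [hN, map_sub, ha1, ha2, sub_zero]
  have haNN : actH C X H ((1 / 2 : ℚ) • (N * N)) = 0 := by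
    have h1 : (1 / 2 : ℚ) • (N * N) = ((1 / 2 : ℚ) • N) * N := (smul_mul_assoc _ _ _).symm
    rw [h1, map_mul, haN, mul_zero]
  have hact : ∀ a : H.A X, actH C X H s a = a := by
    intro a
    rw [hs', map_add, map_add, map_one, haN, haNN, add_zero, add_zero]
    rfl
  -- transposition
  have hv1 : tpR C X e1 = e2 := tp_ext v z
  have hv2 : tpR C X e2 = e1 := tp_ext z v
  have htN : tpR C X N = -N := by
    rw [hN, map_sub, hv1, hv2, neg_sub]
  have htNN : tpR C X ((1 / 2 : ℚ) • (N * N)) = (1 / 2 : ℚ) • (N * N) := by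
    rw [tpR_smul, tpR_mul, htN, neg_mul_neg]
  have hts' : tpR C X t = s := by
    rw [ht', hs', map_add, map_sub, tpR_one, htN, htNN, sub_neg_eq_add]
  have hst' : tpR C X s = t := by
    rw [← hts', tpR_tpR]
  refine ⟨fun j => (s * P j * t : Cor C X), ⟨hP.conj hs ht hst hts hact, ?_⟩, ?_⟩
  · intro j hj
    have h1 : tpR C X (P j) = P (2 * X.dim - j) := hsd j hj
    change tpR C X (s * P j * t) = s * P (2 * X.dim - j) * t
    rw [tpR_mul, tpR_mul, hts', hst', h1, mul_assoc]
  · intro x q hx hq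
    rw [mem_conj hP hs ht hst hts hact]
    have dzx : HasDegree C (z * x) 0 := by
      rw [ch_comm C]; exact hasDegree_mul_hom hx hzm hzh
    have a1 : actC C X e1 x = q • z := act_ext' hq
    have a2 : actC C X e2 x = 0 := (act_ext' dzx).trans (zero_smul ℚ _)
    have a3 : actC C X zz x = 0 := (act_ext' dzx).trans (zero_smul ℚ _)
    have a4 : actC C X N x = q • z := by
      rw [hN, map_sub, LinearMap.sub_apply, a1, a2, sub_zero]
    have a5 : actC C X ((1 / 2 : ℚ) • (N * N)) x = 0 := by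
      have h1 : (1 / 2 : ℚ) • (N * N) = (-((1 / 2 : ℚ) * q') • zz : Cor C X) := by
        rw [hNN, smul_neg, smul_smul, neg_smul]
      rw [h1]
      have h2 : actC C X (-((1 / 2 : ℚ) * q') • zz : Cor C X) x =
          (-((1 / 2 : ℚ) * q')) • actC C X zz x := by
        rw [map_rat_smul (actC C X), LinearMap.smul_apply]
      rw [h2, a3, smul_zero]
    have h4 : actC C X t x = x - q • actC C X Q α := by
      rw [ht', map_add, map_sub, map_one, LinearMap.add_apply, LinearMap.sub_apply, a4, a5,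
        add_zero]
      rfl
    rw [h4, mem_iff_upper hP (Submodule.sub_mem _ hx (Submodule.smul_mem _ q hzm)),
      mem_iff_upper hP (Submodule.sub_mem _ hx (Submodule.smul_mem _ q hα)), map_sub, map_sub,
      map_smul, map_smul, ← actC_mul' (H := H), ← hQ]
    have h5 : Q * Q = Q := upper_mul_upper hP i
    rw [h5]

end weil

end Pool.Agent.H92.ZO
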