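import Pool.Agent.H92.ZO.Main
import Pool.Graph.R_pool_sql_team_seeded_ab47071d.TH133.AlgEq

/-!
# The action of the decompositions of the Eichler family
-/

open CategoryTheory AlgebraicGeometry

universe u v w

namespace Pool.Agent.H92.ZO

open Pool.Agent.H914 Pool.Agent.H914.VarClass Pool.Agent.H914.VarClass.Obj Pool.Agent.W492.BB
  Pool.Agent.W550.Corr Pool.Agent.TH133

set_option linter.unusedSectionVars false

variable {k : Type u} [Field k] {𝒱 : VarClass k}

section weil

variable {C : TheoryData.{u, v, 0} 𝒱 ℚ} [hC : IsChowProj C] {K : Type w} [Field K]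
  {H : WeilTheoryData.{u, v, w} C K} [hH : IsWeilProj H] {X Y Z W : 𝒱.Obj}

include hC hH

/-- **The family of Eichler transformations.** Let `π` be self-dual, `v ∈ CH^(d - i)(X)`, and let
`α ∈ CH^i(X)`. There is a self-dual Chow-Kunneth decomposition `ρ` of `X` with
`F^0_ρ CH^i(X) = {x | x - deg(v x) α ∈ F^0_π CH^i(X)}`. -/
theorem eichler_act {π : ℕ → C.A (X.prod X)} (hπ : IsCK H X π) (hsd : IsSelfDual C π) {i : ℕ}
    {v α : C.A X} (hv : v ∈ C.gr X ((X.dim : ℤ) - i)) (hα : α ∈ C.gr X i) :
    ∃ ρ, (IsCK H X ρ ∧ IsSelfDual C ρ) ∧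
      (∀ (x : C.A X) (q : ℚ), x ∈ C.gr X i → HasDegree C (v * x) q → ∀ b, 2 * i < b →
        C.act (ρ b) x = C.act (π b) x - q • C.act (π b) α) := by
  let P : ℕ → Cor C X := π
  have hP : IsCK H X P := hπ
  have hPm : ∀ i, P i ∈ cor0 C X := hπ.deg
  set Q : Cor C X := upper P i with hQ
  have hQm : Q ∈ cor0 C X := upper_mem hP i
  set z : C.A X := actC C X Q α with hz
  have hzm : z ∈ C.gr X i := actC_mem (H := H) hQm hα
  have hzh : H.cl z = 0 := by
    have h1 : H.cl z = actH C X H Q (H.cl α) := cl_act H _ _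
    rw [h1, hQ, upper, map_sum, LinearMap.sum_apply]
    apply Finset.sum_eq_zero
    intro j hj
    have h2 : H.cl α ∈ H.gr X (2 * (i : ℤ)) := H.cl_mem hα
    rw [hP.actH_eq' _ _ h2, if_neg (by have := (Finset.mem_filter.1 hj).2; omega)]
  -- the correspondences
  let e1 : Cor C X := exC v z
  let e2 : Cor C X := exC z v
  let zz : Cor C X := exC z z
  have he1 : e1 ∈ cor0 C X := by
    have := ext_mem (C := C) (H := H) hv hzm
    rwa [sub_add_cancel] at this
  have he2 : e2 ∈ cor0 C X := by
    have := ext_mem (C := C) (H := H) hzm hv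
    rwa [add_sub_cancel] at this
  have dvz : HasDegree C (v * z) 0 := hasDegree_mul_hom hv hzm hzh
  have dzv : HasDegree C (z * v) 0 := by rw [ch_comm C]; exact dvz
  have dzz : HasDegree C (z * z) 0 := hasDegree_mul_hom hzm hzm hzh
  obtain ⟨q', dvv⟩ := exists_hasDegree' (C.mul_mem hv hv)
  have m11 : e1 * e1 = 0 := (cor_ext_mul dzv).trans (zero_smul ℚ _)
  have m22 : e2 * e2 = 0 := (cor_ext_mul dvz).trans (zero_smul ℚ _)
  have m21 : e2 * e1 = 0 := (cor_ext_mul dzz).trans (zero_smul ℚ _)
  have m12 : e1 * e2 = q' • zz := cor_ext_mul dvv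
  have mz1 : zz * e1 = 0 := (cor_ext_mul dzz).trans (zero_smul ℚ _)
  have mz2 : zz * e2 = 0 := (cor_ext_mul dvz).trans (zero_smul ℚ _)
  set N : Cor C X := e1 - e2 with hN
  have hNN : N * N = -(q' • zz) := by
    rw [hN, sub_mul, mul_sub, mul_sub, m11, m22, m21, m12]; abel
  have hNNN : N * N * N = 0 := by
    rw [hNN, neg_mul, smul_mul_assoc, hN, mul_sub, mz1, mz2, sub_zero, smul_zero, neg_zero]
  have hNm : N ∈ cor0 C X := (cor0 C X).sub_mem he1 he2
  have hNNm : (1 / 2 : ℚ) • (N * N) ∈ cor0 C X :=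
    (cor0 C X).smul_mem ((cor0 C X).mul_mem hNm hNm) _
  set s : Cor C X := 1 + N + (1 / 2 : ℚ) • (N * N) with hs'
  set t : Cor C X := 1 - N + (1 / 2 : ℚ) • (N * N) with ht'
  have hs : s ∈ cor0 C X := (cor0 C X).add_mem ((cor0 C X).add_mem (cor0 C X).one_mem hNm) hNNm
  have ht : t ∈ cor0 C X := (cor0 C X).add_mem ((cor0 C X).sub_mem (cor0 C X).one_mem hNm) hNNm
  have hst : s * t = 1 := exp_mul (H := H) hNNN
  have hts : t * s = 1 := by
    have h1 := exp_mul (H := H) (N := -N) (by rw [neg_mul_neg, mul_neg, hNNN, neg_zero])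
    rw [neg_mul_neg, sub_neg_eq_add, ← sub_eq_add_neg] at h1
    exact h1
  -- the action on the cohomology
  have hcl1 : H.cl (X := X.prod X) e1 = 0 := by
    change H.cl (C.ext v z) = 0
    rw [TheoryData.ext, map_mul, H.cl_pull, H.cl_pull, hzh, map_zero, mul_zero]
  have hcl2 : H.cl (X := X.prod X) e2 = 0 := by
    change H.cl (C.ext z v) = 0
    rw [TheoryData.ext, map_mul, H.cl_pull, H.cl_pull, hzh, map_zero, zero_mul]
  have ha1 : actH C X H e1 = 0 := by
    apply LinearMap.ext
    intro a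
    rw [actH_apply, hcl1]
    exact H.act_zero a
  have ha2 : actH C X H e2 = 0 := by
    apply LinearMap.ext
    intro a
    rw [actH_apply, hcl2]
    exact H.act_zero a
  have haN : actH C X H N = 0 := by rw [hN, map_sub, ha1, ha2, sub_zero]
  have haNN : actH C X H ((1 / 2 : ℚ) • (N * N)) = 0 := by
    have h1 : (1 / 2 : ℚ) • (N * N) = ((1 / 2 : ℚ) • N) * N := (smul_mul_assoc _ _ _).symm
    rw [h1, map_mul, haN, mul_zero]
  have hact : ∀ a : H.A X, actH C X H s a = a := by
    intro a
    rw [hs', map_add, map_add, map_one, haN, haNN, add_zero, add_zero]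
    rfl
  -- transposition
  have hv1 : tpR C X e1 = e2 := tp_ext v z
  have hv2 : tpR C X e2 = e1 := tp_ext z v
  have htN : tpR C X N = -N := by
    rw [hN, map_sub, hv1, hv2, neg_sub]
  have htNN : tpR C X ((1 / 2 : ℚ) • (N * N)) = (1 / 2 : ℚ) • (N * N) := by
    rw [tpR_smul, tpR_mul, htN, neg_mul_neg]
  have hts' : tpR C X t = s := by
    rw [ht', hs', map_add, map_sub, tpR_one, htN, htNN, sub_neg_eq_add]
  have hst' : tpR C X s = t := by
    rw [← hts', tpR_tpR]
  refine ⟨fun j => (s * P j * t : Cor C X), ⟨hP.conj hs ht hst hts hact, ?_⟩, ?_⟩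
  · intro j hj
    have h1 : tpR C X (P j) = P (2 * X.dim - j) := hsd j hj
    change tpR C X (s * P j * t) = s * P (2 * X.dim - j) * t
    rw [tpR_mul, tpR_mul, hts', hst', h1, mul_assoc]
  · intro x q hx hq b hb
    have dzx : HasDegree C (z * x) 0 := by
      rw [ch_comm C]; exact hasDegree_mul_hom hx hzm hzh
    have a1 : actC C X e1 x = q • z := act_ext' hq
    have a2 : actC C X e2 x = 0 := (act_ext' dzx).trans (zero_smul ℚ _)
    have a3 : actC C X zz x = 0 := (act_ext' dzx).trans (zero_smul ℚ _)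
    have a4 : actC C X N x = q • z := by
      rw [hN, map_sub, LinearMap.sub_apply, a1, a2, sub_zero]
    have a5 : ∀ y : C.A X, actC C X zz y = 0 → actC C X ((1 / 2 : ℚ) • (N * N)) y = 0 := by
      intro y hy
      have h1 : (1 / 2 : ℚ) • (N * N) = (-((1 / 2 : ℚ) * q') • zz : Cor C X) := by
        rw [hNN, smul_neg, smul_smul, neg_smul]
      rw [h1]
      have h2 : actC C X (-((1 / 2 : ℚ) * q') • zz : Cor C X) y =
          (-((1 / 2 : ℚ) * q')) • actC C X zz y := by
        rw [map_rat_smul (actC C X), LinearMap.smul_apply]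
      rw [h2, hy, smul_zero]
    have h4 : actC C X t x = x - q • z := by
      rw [ht', map_add, map_sub, map_one, LinearMap.add_apply, LinearMap.sub_apply, a4, a5 x a3,
        add_zero]
      rfl
    have hPQ : P b * Q = P b := by
      have := mul_upper hP i b
      rwa [if_pos hb] at this
    have h5 : actC C X (P b) (x - q • z) = actC C X (P b) x - q • actC C X (P b) α := by
      rw [map_sub, map_smul, hz, ← actC_mul' (H := H), hPQ]
    set y : C.A X := actC C X (P b) x - q • actC C X (P b) α with hy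
    have hym : y ∈ C.gr X i := Submodule.sub_mem _ (actC_mem (H := H) (hPm b) hx)
      (Submodule.smul_mem _ _ (actC_mem (H := H) (hPm b) hα))
    have hclP : ∀ x' ∈ C.gr X i, H.cl (actC C X (P b) x') = 0 := by
      intro x' hx'
      have h1 : H.cl (actC C X (P b) x') = actH C X H (P b) (H.cl x') := cl_act H _ _
      have h2 : H.cl x' ∈ H.gr X (2 * (i : ℤ)) := H.cl_mem hx'
      rw [h1, hP.actH_eq' _ _ h2, if_neg (by omega)]
    have hyh : H.cl y = 0 := by
      rw [← h5]
      exact hclP _ (Submodule.sub_mem _ hx (Submodule.smul_mem _ _ hzm))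
    have b1 : actC C X e1 y = 0 :=
      (act_ext' (hasDegree_mul_hom hv hym hyh)).trans (zero_smul ℚ _)
    have b2 : actC C X e2 y = 0 :=
      (act_ext' (hasDegree_mul_hom hzm hym hyh)).trans (zero_smul ℚ _)
    have b3 : actC C X zz y = 0 :=
      (act_ext' (hasDegree_mul_hom hzm hym hyh)).trans (zero_smul ℚ _)
    have b4 : actC C X N y = 0 := by
      rw [hN, map_sub (actC C X), LinearMap.sub_apply, b1, b2, sub_zero]
    have h6 : actC C X s y = y := by
      rw [hs', map_add (actC C X), map_add (actC C X), map_one, LinearMap.add_apply,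
        LinearMap.add_apply, b4, a5 y b3, add_zero, add_zero]
      rfl
    change actC C X (s * P b * t) x = y
    rw [actC_mul' (H := H), actC_mul' (H := H), h4, h5, h6]

end weil

end Pool.Agent.H92.ZO
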