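import Pool.Agent.H92.ZO.Eich

/-!
# One cycle class decides the independence of `F^0`: the zero-one law
-/

open CategoryTheory AlgebraicGeometry

universe u v w

namespace Pool.Agent.H92.ZO

open Pool.Agent.H914 Pool.Agent.H914.VarClass Pool.Agent.H914.VarClass.Obj Pool.Agent.W492.BB
  Pool.Agent.W550.Corr Pool.Agent.TH133

set_option linter.unusedSectionVars false

variable {k : Type u} [Field k] {𝒱 : VarClass k}

section weil

variable {C : TheoryData.{u, v, 0} 𝒱 ℚ} [hC : IsChowProj C] {K : Type w} [Field K]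
  {H : WeilTheoryData.{u, v, w} C K} [hH : IsWeilProj H] {X Y Z W : 𝒱.Obj}

/-- A set `S` of Chow-Kunneth decompositions of `X` is flexible in codimension `i` if it contains
for all `π` in `S`, `v ∈ CH^(d - i)(X)` and `α ∈ CH^i(X)` a decomposition `ρ` with
`F^0_ρ CH^i(X) = {x | x - deg(v x) α ∈ F^0_π CH^i(X)}`. -/
def Flexible (H : WeilTheoryData.{u, v, w} C K) (X : 𝒱.Obj) (i : ℕ)
    (S : (ℕ → C.A (X.prod X)) → Prop) : Prop :=
  (∀ π, S π → IsCK H X π) ∧ ∀ π, S π → ∀ v α : C.A X, v ∈ C.gr X ((X.dim : ℤ) - i) →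
    α ∈ C.gr X i → ∃ ρ, S ρ ∧ ∀ (x : C.A X) (q : ℚ), x ∈ C.gr X i → HasDegree C (v * x) q →
      (x ∈ ckFil C ρ i 0 ↔ x - q • α ∈ ckFil C π i 0)

include hC hH

/-- A zero-cycle of degree zero is homologically trivial. -/
lemma cl_eq_zero_of_degree {x : C.A X} (hx : x ∈ C.gr X X.dim) (h : HasDegree C x 0) :
    H.cl x = 0 := by
  apply H.nondeg
  have hclx : H.cl x ∈ H.gr X (2 * (X.dim : ℤ)) := H.cl_mem hx
  -- the trace vanishes
  have htr : H.tr X (H.cl x) = 0 := by
    obtain ⟨a, ha, ha1, ha2⟩ := hC.exists_deg_one X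
    have h1 : H.push (fst X X) (H.pull (snd X X) (H.cl a)) = 1 := by
      have := congrArg H.cl (ha1 X)
      change H.cl (C.push (fst X X) (C.pull (snd X X) a)) = H.cl 1 at this
      rw [H.cl_push, H.cl_pull, map_one] at this
      exact this
    have h2 : H.push (snd X X) (H.pull (fst X X) (H.cl x)) = 0 := by
      have := congrArg H.cl (h X).1
      rw [zero_smul, H.cl_push, H.cl_pull, map_zero] at this
      exact this
    have h3 : H.tr (X.prod X) (H.pull (fst X X) (H.cl x) * H.pull (snd X X) (H.cl a)) = 0 := by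
      rw [← H.tr_push (snd X X), H.proj_right, h2, zero_mul, map_zero]
    rw [← H.tr_push (fst X X), H.proj_left, h1, mul_one] at h3
    exact h3
  have h0 : (H.tr X ∘ₗ LinearMap.mulLeft K (H.cl x)) = 0 := by
    apply ext_gr H
    intro j b hb
    rw [LinearMap.comp_apply, LinearMap.mulLeft_apply, LinearMap.zero_apply]
    by_cases hj : j = 0
    · rw [hj] at hb
      obtain ⟨c, rfl⟩ := hH.gr_zero X b hb
      rw [mul_smul_comm, mul_one, map_smul, htr, smul_zero]
    · exact tr_zero H (H.mul_mem hclx hb) (by omega)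
  intro b
  exact LinearMap.congr_fun h0 b

/-- Normalisation of the dual class. -/
lemma NumNontrivial.normal {i : ℕ} {x : C.A X} (h : NumNontrivial H i x) :
    ∃ v ∈ C.gr X ((X.dim : ℤ) - i), HasDegree C (v * x) 1 := by
  obtain ⟨hx, v, hv, hne⟩ := h
  have hm : v * x ∈ C.gr X X.dim := by
    have := C.mul_mem hv hx
    rwa [sub_add_cancel] at this
  obtain ⟨q, hd⟩ := exists_hasDegree hm
  have hq : q ≠ 0 := by
    rintro rfl
    exact hne (cl_eq_zero_of_degree hm hd)
  refine ⟨q⁻¹ • v, Submodule.smul_mem _ _ hv, ?_⟩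
  have h1 := hasDegree_smul hd q⁻¹
  rw [inv_mul_cancel₀ hq] at h1
  rwa [smul_mul_assoc]

/-- A class with a dual class is not numerically trivial. -/
lemma NumNontrivial.of_degree {i : ℕ} {x v : C.A X} {q : ℚ} (hx : x ∈ C.gr X i)
    (hv : v ∈ C.gr X ((X.dim : ℤ) - i)) (hq : q ≠ 0) (hd : HasDegree C (v * x) q) :
    NumNontrivial H i x := by
  refine ⟨hx, v, hv, fun h => hq ?_⟩
  have hm : v * x ∈ C.gr X X.dim := by
    have := C.mul_mem hv hx
    rwa [sub_add_cancel] at this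
  exact hasDegree_unique H hd (hasDegree_zero_of_cl H hm h)

lemma flexible_CK (X : 𝒱.Obj) (i : ℕ) : Flexible H X i (IsCK H X) :=
  ⟨fun _ h => h, fun _ h _ _ hv hα => by
    obtain ⟨ρ, h1, h2, _⟩ := basic_family h hv hα
    exact ⟨ρ, h1, h2⟩⟩

lemma flexible_SD (X : 𝒱.Obj) (i : ℕ) :
    Flexible H X i (fun π => IsCK H X π ∧ IsSelfDual C π) :=
  ⟨fun _ h => h.1, fun _ h _ _ hv hα => eichler_family h.1 h.2 hv hα⟩

lemma ckFil_le {π : ℕ → C.A (X.prod X)} (h : IsCK H X π) (i n : ℕ) :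
    ckFil C π i n ≤ C.gr X i := fun x hx => ((h.mem_ckFil i n x).1 hx).1

/-- The class lies in `F^0` for some decomposition. -/
lemma Flexible.exists_mem {i : ℕ} {S : (ℕ → C.A (X.prod X)) → Prop} (hS : Flexible H X i S)
    {x : C.A X} (hx : NumNontrivial H i x) {π : ℕ → C.A (X.prod X)} (hπ : S π) :
    ∃ ρ, S ρ ∧ x ∈ ckFil C ρ i 0 := by
  obtain ⟨v, hv, hd⟩ := hx.normal
  obtain ⟨ρ, h1, h2⟩ := hS.2 π hπ v x hv hx.1
  refine ⟨ρ, h1, ?_⟩
  rw [h2 x 1 hx.1 hd, one_smul, sub_self]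
  exact Submodule.zero_mem _

/-- If the class lies in `F^0` for all decompositions then `F^0` is everything. -/
lemma Flexible.all_of_mem {i : ℕ} {S : (ℕ → C.A (X.prod X)) → Prop} (hS : Flexible H X i S)
    {x : C.A X} (hx : NumNontrivial H i x) (hall : ∀ π, S π → x ∈ ckFil C π i 0)
    {π : ℕ → C.A (X.prod X)} (hπ : S π) : ckFil C π i 0 = C.gr X i := by
  apply le_antisymm (ckFil_le (hS.1 π hπ) i 0)
  intro α hα
  obtain ⟨v, hv, hd⟩ := hx.normal
  obtain ⟨ρ, h1, h2⟩ := hS.2 π hπ v α hv hα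
  have h3 := hall ρ h1
  rw [h2 x 1 hx.1 hd, one_smul] at h3
  have h4 := Submodule.sub_mem _ (hall π hπ) h3
  rwa [sub_sub_cancel] at h4

/-- The family of the subgroups `F^0` parametrised by `CH^i(X) / F^0_π CH^i(X)`. -/
lemma Flexible.family {i : ℕ} {S : (ℕ → C.A (X.prod X)) → Prop} (hS : Flexible H X i S)
    {x : C.A X} (hx : NumNontrivial H i x) {π : ℕ → C.A (X.prod X)} (hπ : S π) :
    ∃ ρ : C.A X → ℕ → C.A (X.prod X), ∀ α, C.Deg i α → S (ρ α) ∧ ∀ β, C.Deg i β →
      (ckFil C (ρ α) i 0 = ckFil C (ρ β) i 0 ↔ α - β ∈ ckFil C π i 0) := by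
  classical
  obtain ⟨v, hv, hd⟩ := hx.normal
  choose! ρ h1 h2 using fun α (hα : α ∈ C.gr X i) => hS.2 π hπ v α hv hα
  -- a class of degree one in `F^0_π`
  have hP := hS.1 π hπ
  set x0 := C.act (π (2 * i)) x with hx0
  have hx0m : x0 ∈ C.gr X i := act_mem0 C (hP.deg _) hx.1
  have hx0F : x0 ∈ ckFil C π i 0 := by
    rw [hP.mem_ckFil]
    refine ⟨hx0m, fun j hj => ?_⟩
    rw [hx0, ← C.act_comp, hP.comp_eq, if_neg (by omega), TheoryData.act_zero]
  have hx0d : HasDegree C (v * x0) 1 := by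
    have h3 : v * x0 = v * x + v * (x0 - x) := by rw [mul_sub]; abel
    rw [h3, ← add_zero (1 : ℚ)]
    refine hasDegree_add hd (hasDegree_mul_hom (H := H) hv (Submodule.sub_mem _ hx0m hx.1) ?_)
    rw [map_sub, hx0, cl_act H]
    have h4 := hP.act_self (2 * i) (H.cl x) (by
      have := H.cl_mem hx.1
      exact_mod_cast this)
    rw [h4, sub_self]
  refine ⟨ρ, fun α hα => ⟨h1 α hα, fun β hβ => ⟨fun he => ?_, fun hab => ?_⟩⟩⟩
  · obtain ⟨q, hq⟩ := exists_hasDegree' (C.mul_mem hv hα)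
    set y : C.A X := α + (1 - q) • x0 with hy
    have hym : y ∈ C.gr X i := Submodule.add_mem _ hα (Submodule.smul_mem _ _ hx0m)
    have hyd : HasDegree C (v * y) 1 := by
      have h3 := hasDegree_add hq (hasDegree_smul hx0d (1 - q))
      rw [mul_one, add_sub_cancel] at h3
      rwa [hy, mul_add, mul_smul_comm]
    have h4 : y ∈ ckFil C (ρ α) i 0 := by
      rw [h2 α hα y 1 hym hyd, one_smul, hy, add_sub_cancel_left]
      exact Submodule.smul_mem _ _ hx0F
    rw [he, h2 β hβ y 1 hym hyd, one_smul] at h4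
    have h5 := Submodule.sub_mem _ h4 (Submodule.smul_mem _ (1 - q) hx0F)
    have e : y - β - (1 - q) • x0 = α - β := by rw [hy]; abel
    rwa [e] at h5
  · ext y
    by_cases hym : y ∈ C.gr X i
    · obtain ⟨q, hq⟩ := exists_hasDegree' (C.mul_mem hv hym)
      rw [h2 α hα y q hym hq, h2 β hβ y q hym hq]
      have h3 : y - q • α = (y - q • β) - q • (α - β) := by rw [smul_sub]; abel
      rw [h3]
      constructor
      · intro h4
        have h5 := Submodule.add_mem _ h4 (Submodule.smul_mem _ q hab)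
        rwa [sub_add_cancel] at h5
      · intro h4
        exact Submodule.sub_mem _ h4 (Submodule.smul_mem _ q hab)
    · constructor
      · exact fun h => absurd (ckFil_le (hS.1 _ (h1 α hα)) i 0 h) hym
      · exact fun h => absurd (ckFil_le (hS.1 _ (h1 β hβ)) i 0 h) hym

/-- If there are finitely many subgroups `F^0` then they are everything. -/
lemma Flexible.all_of_finite {i : ℕ} {S : (ℕ → C.A (X.prod X)) → Prop} (hS : Flexible H X i S)
    {x : C.A X} (hx : NumNontrivial H i x)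
    (hfin : {F : Submodule ℚ (C.A X) | ∃ π, S π ∧ F = ckFil C π i 0}.Finite)
    {π : ℕ → C.A (X.prod X)} (hπ : S π) : ckFil C π i 0 = C.gr X i := by
  apply le_antisymm (ckFil_le (hS.1 π hπ) i 0)
  intro α hα
  obtain ⟨ρ, h1⟩ := hS.family hx hπ
  have hαn : ∀ n : ℕ, C.Deg i ((n : ℚ) • α) := fun n => Submodule.smul_mem _ _ hα
  by_contra hne
  have hinj : Function.Injective (fun n : ℕ => ckFil C (ρ ((n : ℚ) • α)) i 0) := by
    intro m n hmn
    have h2 := ((h1 _ (hαn m)).2 _ (hαn n)).1 hmn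
    rw [← sub_smul] at h2
    by_contra hmn'
    apply hne
    have h3 : ((m : ℚ) - n) ≠ 0 := by
      rw [sub_ne_zero]
      exact_mod_cast hmn'
    have h4 := Submodule.smul_mem _ ((m : ℚ) - n)⁻¹ h2
    rwa [smul_smul, inv_mul_cancel₀ h3, one_smul] at h4
  refine (Set.infinite_range_of_injective hinj) (hfin.subset ?_)
  rintro _ ⟨n, rfl⟩
  exact ⟨_, (h1 _ (hαn n)).1, rfl⟩

/-- **The zero-one law** for a flexible set of decompositions. -/
theorem Flexible.tfae {i : ℕ} {S : (ℕ → C.A (X.prod X)) → Prop} (hS : Flexible H X i S)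
    {x : C.A X} (hx : NumNontrivial H i x) :
    List.TFAE [∀ π π', S π → S π' → ckFil C π i 0 = ckFil C π' i 0,
      ∀ π, S π → x ∈ ckFil C π i 0,
      {F : Submodule ℚ (C.A X) | ∃ π, S π ∧ F = ckFil C π i 0}.Finite,
      ∀ π, S π → ckFil C π i 0 = C.gr X i] := by
  tfae_have 1 → 3 := by
    intro h
    apply Set.Subsingleton.finite
    rintro F ⟨π, hπ, rfl⟩ G ⟨π', hπ', rfl⟩
    exact h π π' hπ hπ'
  tfae_have 3 → 4 := fun h π hπ => hS.all_of_finite hx h hπ
  tfae_have 4 → 1 := fun h π π' hπ hπ' => by rw [h π hπ, h π' hπ']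
  tfae_have 4 → 2 := fun h π hπ => by
    rw [h π hπ]
    exact hx.1
  tfae_have 2 → 4 := fun h π hπ => hS.all_of_mem hx h hπ
  tfae_finish

/-- Elementary moves suffice. -/
lemma all_of_elementary {i : ℕ} {x : C.A X} (hx : NumNontrivial H i x)
    (h : ∀ π π', IsCK H X π → IsCK H X π' → ElementaryMove C i π π' →
      ckFil C π i 0 = ckFil C π' i 0) {π : ℕ → C.A (X.prod X)} (hπ : IsCK H X π) :
    ckFil C π i 0 = C.gr X i := by
  apply le_antisymm (ckFil_le hπ i 0)
  intro z hz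
  rw [hπ.mem_ckFil]
  refine ⟨hz, fun j hj => ?_⟩
  set α := C.act (π j) z with hα
  have hαm : α ∈ C.gr X i := act_mem0 C (hπ.deg j) hz
  have hαj : C.act (π j) α = α := by rw [hα, ← C.act_comp, hπ.idem]
  obtain ⟨v, hv, hd⟩ := hx.normal
  obtain ⟨ρ, h1, h2, h3⟩ := basic_family hπ hv hαm
  have h4 := h π ρ hπ h1 (h3 j (by omega) hαj)
  -- a class of degree one in `F^0_π`
  set x0 := C.act (π (2 * i)) x with hx0
  have hx0m : x0 ∈ C.gr X i := act_mem0 C (hπ.deg _) hx.1
  have hx0F : x0 ∈ ckFil C π i 0 := by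
    rw [hπ.mem_ckFil]
    refine ⟨hx0m, fun j hj => ?_⟩
    rw [hx0, ← C.act_comp, hπ.comp_eq, if_neg (by omega), TheoryData.act_zero]
  have hx0d : HasDegree C (v * x0) 1 := by
    have h3 : v * x0 = v * x + v * (x0 - x) := by rw [mul_sub]; abel
    rw [h3, ← add_zero (1 : ℚ)]
    refine hasDegree_add hd (hasDegree_mul_hom (H := H) hv (Submodule.sub_mem _ hx0m hx.1) ?_)
    rw [map_sub, hx0, cl_act H]
    have h4 := hπ.act_self (2 * i) (H.cl x) (by
      have := H.cl_mem hx.1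
      exact_mod_cast this)
    rw [h4, sub_self]
  have h5 := hx0F
  rw [h4, h2 x0 1 hx0m hx0d, one_smul] at h5
  have h6 := Submodule.sub_mem _ hx0F h5
  rw [sub_sub_cancel, hπ.mem_ckFil] at h6
  have h7 := h6.2 j hj
  rw [hαj] at h7
  exact h7

/-- The off-diagonal correspondences preserve the sum and the intersection of the filtrations. -/
lemma off_diagonal {P : ℕ → Cor C X} (hP : IsCK H X P) {γ : Cor C X} (hγ : γ ∈ cor0 C X)
    {a b : ℕ} (hab : a ≠ b) (i n : ℕ) (c : ℚ) :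
    ∃ ρ, IsCK H X ρ ∧ ∀ x, x ∈ ckFil C ρ i n ↔
      x - c • actC C X (P b * γ * P a) x ∈ ckFil C P i n := by
  have hPm : ∀ i, P i ∈ cor0 C X := hP.deg
  set N : Cor C X := c • (P b * γ * P a) with hN
  have hNm : N ∈ cor0 C X :=
    (cor0 C X).smul_mem ((cor0 C X).mul_mem ((cor0 C X).mul_mem (hPm b) hγ) (hPm a)) c
  have hNN : N * N = 0 := by
    have h1 : (P b * γ * P a) * (P b * γ * P a) = 0 := by
      have : (P b * γ * P a) * (P b * γ * P a) = P b * γ * (P a * P b) * γ * P a := by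
        simp only [mul_assoc]
      rw [this, hP.mul_eq, if_neg hab, mul_zero, zero_mul, zero_mul]
    rw [hN, smul_mul_assoc, mul_smul_comm, h1, smul_zero, smul_zero]
  have hact : ∀ z : H.A X, actH C X H N z = 0 := by
    intro z
    have h2 : N = P b * (c • γ) * P a := by
      rw [hN, mul_smul_comm, smul_mul_assoc]
    rw [h2]
    exact actH_off hP ((cor0 C X).smul_mem hγ c) hab z
  have hs : 1 + N ∈ cor0 C X := (cor0 C X).add_mem (cor0 C X).one_mem hNm
  have ht : 1 - N ∈ cor0 C X := (cor0 C X).sub_mem (cor0 C X).one_mem hNm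
  refine ⟨fun j => ((1 + N) * P j * (1 - N) : Cor C X),
    hP.conj hs ht (one_add_mul (H := H) hNN) (one_sub_mul (H := H) hNN)
      (actH_one_add (H := H) hact), fun x => ?_⟩
  rw [mem_conj hP hs ht (one_add_mul (H := H) hNN) (one_sub_mul (H := H) hNN)
      (actH_one_add (H := H) hact)]
  have h3 : actC C X (1 - N) x = x - c • actC C X (P b * γ * P a) x := by
    rw [map_sub, map_one, LinearMap.sub_apply, hN, map_rat_smul (actC C X),
      LinearMap.smul_apply]
    rfl
  rw [h3]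

/-- The decomposition of the action of a correspondence. -/
lemma act_eq_sum {P : ℕ → Cor C X} (hP : IsCK H X P) (γ : Cor C X) (x : C.A X) :
    actC C X γ x = ∑ b ∈ Finset.range (2 * X.dim + 1), ∑ a ∈ Finset.range (2 * X.dim + 1),
      actC C X (P b * γ * P a) x := by
  have h1 : γ = ∑ b ∈ Finset.range (2 * X.dim + 1), ∑ a ∈ Finset.range (2 * X.dim + 1),
      P b * γ * P a := by
    simp_rw [← Finset.mul_sum, hP.sum_eq, mul_one, ← Finset.sum_mul, hP.sum_eq, one_mul]
  conv_lhs => rw [h1]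
  rw [map_sum, LinearMap.sum_apply]
  apply Finset.sum_congr rfl
  intro b _
  rw [map_sum, LinearMap.sum_apply]

lemma diagonal_mem {P : ℕ → Cor C X} (hP : IsCK H X P) {γ : Cor C X} (hγ : γ ∈ cor0 C X)
    (a i n : ℕ) {x : C.A X} (hx : x ∈ ckFil C P i n) :
    actC C X (P a * γ * P a) x ∈ ckFil C P i n := by
  have hPm : ∀ i, P i ∈ cor0 C X := hP.deg
  rw [hP.mem_ckFil] at hx ⊢
  refine ⟨actC_mem (H := H) ((cor0 C X).mul_mem ((cor0 C X).mul_mem (hPm a) hγ) (hPm a)) hx.1,
    fun j hj => ?_⟩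
  by_cases haj : a = j
  · subst haj
    have h1 : actC C X (P a) x = 0 := hx.2 a hj
    have h2 : actC C X (P a * γ * P a) x = 0 := by
      rw [actC_mul' (H := H), h1, map_zero]
    rw [h2]
    exact C.act_map_zero _
  · change actC C X (P j) _ = 0
    rw [← actC_mul' (H := H), ← mul_assoc, ← mul_assoc, hP.mul_eq, if_neg (Ne.symm haj),
      zero_mul, zero_mul, map_zero]
    rfl

theorem maxStep_stable {γ : C.A (X.prod X)} (hγ : C.Deg X.dim γ) (i n : ℕ) {x : C.A X}
    (hx : x ∈ maxStep H X i n) : C.act γ x ∈ maxStep H X i n := by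
  have hle : maxStep H X i n ≤ (maxStep H X i n).comap (C.actL γ) := by
    apply sSup_le
    rintro F ⟨π, hπ, rfl⟩
    intro x hx
    rw [Submodule.mem_comap, TheoryData.actL_apply]
    let P : ℕ → Cor C X := π
    have hP : IsCK H X P := hπ
    let γ' : Cor C X := γ
    have hγ' : γ' ∈ cor0 C X := hγ
    have hmem : ∀ ρ, IsCK H X ρ → ckFil C ρ i n ≤ maxStep H X i n := fun ρ hρ =>
      le_sSup ⟨ρ, hρ, rfl⟩
    change actC C X γ' x ∈ _
    rw [act_eq_sum hP]
    refine Submodule.sum_mem _ fun b _ => Submodule.sum_mem _ fun a _ => ?_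
    by_cases hab : a = b
    · subst hab
      exact hmem π hπ (diagonal_mem hP hγ' a i n hx)
    · obtain ⟨ρ, hρ, h1⟩ := off_diagonal hP (γ := γ') hγ' hab i n 1
      set y := actC C X (P b * γ' * P a) x with hy
      have hyy : actC C X (P b * γ' * P a) y = 0 := by
        rw [hy, ← actC_mul' (H := H)]
        have : (P b * γ' * P a) * (P b * γ' * P a) = P b * γ' * (P a * P b) * γ' * P a := by
          simp only [mul_assoc]
        rw [this, hP.mul_eq, if_neg hab, mul_zero, zero_mul, zero_mul, map_zero]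
        rfl
      have h2 : x + y ∈ ckFil C ρ i n := by
        rw [h1, one_smul, map_add, hyy, add_zero, ← hy, add_sub_cancel_right]
        exact hx
      have h3 := Submodule.sub_mem _ (hmem ρ hρ h2) (hmem π hπ hx)
      rwa [add_sub_cancel_left] at h3
  exact hle hx

theorem minStep_stable {γ : C.A (X.prod X)} (hγ : C.Deg X.dim γ) (i n : ℕ) {x : C.A X}
    (hx : x ∈ minStep H X i n) : C.act γ x ∈ minStep H X i n := by
  have hmem : ∀ ρ, IsCK H X ρ → x ∈ ckFil C ρ i n := fun ρ hρ =>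
    (Submodule.mem_sInf.1 hx) _ ⟨ρ, hρ, rfl⟩
  rw [minStep, Submodule.mem_sInf]
  rintro F ⟨π, hπ, rfl⟩
  let P : ℕ → Cor C X := π
  have hP : IsCK H X P := hπ
  let γ' : Cor C X := γ
  have hγ' : γ' ∈ cor0 C X := hγ
  change actC C X γ' x ∈ _
  rw [act_eq_sum hP]
  refine Submodule.sum_mem _ fun b _ => Submodule.sum_mem _ fun a _ => ?_
  by_cases hab : a = b
  · subst hab
    exact diagonal_mem hP hγ' a i n (hmem π hπ)
  · obtain ⟨ρ, hρ, h1⟩ := off_diagonal hP (γ := γ') hγ' hab i n 1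
    have h2 := (h1 x).1 (hmem ρ hρ)
    rw [one_smul] at h2
    have h3 := Submodule.sub_mem _ (hmem π hπ) h2
    rwa [sub_sub_cancel] at h3

/-- `CH^i(X)` is the sum of the subgroups `F^0`. -/
theorem maxStep_zero {i : ℕ} {x : C.A X} (hx : NumNontrivial H i x) {π : ℕ → C.A (X.prod X)}
    (hπ : IsCK H X π) : maxStep H X i 0 = C.gr X i := by
  have hS := flexible_CK (H := H) X i
  apply le_antisymm
  · apply sSup_le
    rintro F ⟨ρ, hρ, rfl⟩
    exact ckFil_le hρ i 0
  · intro y hy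
    have hmem : ∀ z, NumNontrivial H i z → z ∈ maxStep H X i 0 := fun z hz => by
      obtain ⟨ρ, hρ, h1⟩ := hS.exists_mem hz hπ
      have h2 : ckFil C ρ i 0 ≤ maxStep H X i 0 := le_sSup ⟨ρ, hρ, rfl⟩
      exact h2 h1
    obtain ⟨v, hv, hd⟩ := hx.normal
    obtain ⟨q, hq⟩ := exists_hasDegree' (C.mul_mem hv hy)
    by_cases hq0 : q = 0
    · have h1 : NumNontrivial H i (y + x) :=
        NumNontrivial.of_degree (Submodule.add_mem _ hy hx.1) hv one_ne_zero (by
          have := hasDegree_add hq hd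
          rw [hq0, zero_add] at this
          rwa [mul_add])
      have h2 := Submodule.sub_mem _ (hmem _ h1) (hmem _ hx)
      rwa [add_sub_cancel_right] at h2
    · exact hmem y (NumNontrivial.of_degree hy hv hq0 hq)

/-- Every Chow group contains classes which are not numerically trivial. -/
lemma exists_numNontrivial (X : 𝒱.Obj) {i : ℕ} (hi : i ≤ X.dim) :
    ∃ x : C.A X, NumNontrivial H i x := by
  obtain ⟨u0, hu, v0, hv, huv⟩ := exists_dual_pair (C := C) (H := H) X hi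
  have hm : v0 * u0 ∈ C.gr X X.dim := by
    have := C.mul_mem hv hu
    rwa [sub_add_cancel] at this
  obtain ⟨q, hq⟩ := exists_hasDegree hm
  refine ⟨u0, NumNontrivial.of_degree hu hv ?_ hq⟩
  rintro rfl
  have h1 := (hq X).1
  rw [huv, zero_smul] at h1
  have h2 : (1 : H.A X) = 0 := by rw [← map_one H.cl, h1, map_zero]
  exact hH.one_ne_zero X h2

omit hH in
lemma gr_eq_bot {i : ℕ} (hi : ¬ i ≤ X.dim) : C.gr X i = ⊥ := by
  rw [eq_bot_iff]
  intro x hx
  rw [Submodule.mem_bot]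
  exact hC.gr_top X i x hx (by omega)

lemma maxStep_eq_bot {i : ℕ} (hi : ¬ i ≤ X.dim) : maxStep H X i 0 = ⊥ := by
  rw [eq_bot_iff, ← gr_eq_bot hi]
  apply sSup_le
  rintro F ⟨ρ, hρ, rfl⟩
  exact ckFil_le hρ i 0

end weil

end Pool.Agent.H92.ZO
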