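import Pool.Agent.H92.ZO.SD

/-!
# One cycle class decides the independence of `F^0`: all varieties
-/

open CategoryTheory AlgebraicGeometry

universe u v w

namespace Pool.Agent.H92.ZO

open Pool.Agent.H914 Pool.Agent.H914.VarClass Pool.Agent.H914.VarClass.Obj Pool.Agent.W492.BB
  Pool.Agent.W550.Corr Pool.Agent.TH133

set_option linter.unusedSectionVars false

variable {k : Type u} [Field k] {𝒱 : VarClass k}

section weil

variable {C : TheoryData.{u, v, 0} 𝒱 ℚ} [hC : IsChowProj C] {K : Type w} [Field K]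
  {H : WeilTheoryData.{u, v, w} C K} [hH : IsWeilProj H] {X Y Z V P : 𝒱.Obj}

include hC

lemma eq_zero_of_ext {z : C.A X} {l l' : C.A P} (hl : HasDegree C (l * l') 1)
    (h : C.ext z l = 0) : z = 0 := by
  have h1 : C.push (fst X P) (C.ext z l * C.pull (snd X P) l') = z := by
    rw [TheoryData.ext, mul_assoc, ← map_mul, C.proj_left, (hl X).2, one_smul, mul_one]
  rw [← h1, h, zero_mul, map_zero]

include hH

/-- `F^0 = CH` in the middle codimension of `X × X` implies (C) for `X` (library argument). -/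
theorem murreC_of_middle (X : 𝒱.Obj) (hX : ∀ ρ, IsCK H (X.prod X) ρ →
    ∀ z ∈ C.gr (X.prod X) X.dim, ∀ j, 2 * X.dim < j → C.act (ρ j) z = 0) : MurreC H X := by
  have key : ∀ π π', IsCK H X π → IsCK H X π' → ∀ i n : ℕ, ckFil C π i n ≤ ckFil C π' i n := by
    intro π π' h h' i n x hx
    rw [h.mem_ckFil] at hx
    rw [h'.mem_ckFil]
    refine ⟨hx.1, fun m hm => ?_⟩
    have h1 : x = ∑ j ∈ Finset.range (2 * X.dim + 1), C.act (π j) x := by
      rw [← act_sum, h.sum, act_dg]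
    rw [h1, act_map_sum]
    apply Finset.sum_eq_zero
    intro j hj'
    rw [Finset.mem_range] at hj'
    by_cases hj : 2 * i + 1 - n ≤ j
    · rw [hx.2 j hj, TheoryData.act_map_zero]
    · have h2 := comp_zero_of_prod (H := H) h h' (j := j) (b := m) (γ := dg C X) (by omega)
        (hX _ (h.dual.prod h') _ (dg_mem C X) _ (by omega))
      rw [comp_dg] at h2
      rw [← C.act_comp, h2, TheoryData.act_zero]
  intro π π' h h' i n
  exact le_antisymm (key π π' h h' i n) (key π' π h' h i n)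

/-- The vanishing in the middle codimension, for self-dual decompositions. -/
def MiddleSD (H : WeilTheoryData.{u, v, w} C K) (Rat : 𝒱.Obj → Prop) (m : ℕ) : Prop :=
  ∀ V, Rat V → V.dim = 2 * m → ∀ ρ, IsSelfDualCK H V ρ → ckFil C ρ m 0 = C.gr V m

/-- The test on rational varieties gives the vanishing for all varieties in the middle
codimension. -/
theorem middle_zero {Rat : 𝒱.Obj → Prop} {P : 𝒱.Obj} (hR : IsRationalClass C Rat P)
    (hM : Infinitely (MiddleSD H Rat)) {Y : 𝒱.Obj} {i : ℕ} (hY : Y.dim = 2 * i)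
    {π : ℕ → C.A (Y.prod Y)} (hπ : IsCK H Y π) {z : C.A Y} (hz : z ∈ C.gr Y i) {j : ℕ}
    (hj : 2 * i < j) : C.act (π j) z = 0 := by
  obtain ⟨n, hn⟩ := hR.blowUps Y
  obtain ⟨m, hm, hmid⟩ := hM (n + i + 2)
  obtain ⟨V, hV, hVd, r, a, b, u, w, hB⟩ := hn (m - 1) (by omega)
  obtain ⟨hPd, l, l', o, hl, hl', ho, ho1, hll', hll, hl'l', hdg⟩ := hR.quadric
  set α := C.act (π j) z with hα
  have hαm : α ∈ C.gr Y i := act_mem0 C (hπ.deg j) hz
  have hαj : C.act (π j) α = α := by rw [hα, ← C.act_comp, hπ.idem]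
  have hdim := hB.dim_eq
  set s := m - 1 - i with hs
  have hsr : s ∈ Finset.Ico 1 r := Finset.mem_Ico.2 ⟨by omega, by omega⟩
  obtain ⟨ρ, hρ, hρα⟩ := blow_raise hB hπ hαj hsr
  set β := C.act (a s) α with hβ
  have hβm : β ∈ C.gr V ((m - 1 : ℕ) : ℤ) := by
    have h1 := act_mem' C (hB.a_mem s hsr) hαm
    have e : (i : ℤ) + (s : ℤ) = ((m - 1 : ℕ) : ℤ) := by omega
    rwa [e] at h1
  -- the self-dual decomposition of `V × P`
  let rr : Fin 2 → ℕ := ![0, 1]
  let aa : Fin 2 → C.A P := ![1, l]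
  let bb : Fin 2 → C.A P := ![o, l']
  have hone : (1 : C.A P) ∈ C.gr P 0 := C.one_mem P
  have hPd' : (P.dim : ℤ) = 2 := by rw [hPd]; rfl
  have ne1 : ∀ {x y : C.A P} {p q : ℤ}, x ∈ C.gr P p → y ∈ C.gr P q → p + q ≠ 2 →
      HasDegree C (x * y) 0 := fun hx hy hne =>
    hasDegree_of_ne (C.mul_mem hx hy) (by rw [hPd']; exact hne)
  have hab : ∀ s, rr s ≤ P.dim ∧ C.Deg (rr s) (aa s) ∧ C.Deg ((P.dim : ℤ) - rr s) (bb s) := by
    intro s
    fin_cases s
    · refine ⟨Nat.zero_le _, ?_, ?_⟩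
      · exact_mod_cast hone
      · change o ∈ C.gr P ((P.dim : ℤ) - ((0 : ℕ) : ℤ))
        rw [hPd']
        exact_mod_cast ho
    · refine ⟨by change 1 ≤ P.dim; omega, ?_, ?_⟩
      · exact_mod_cast hl
      · change l' ∈ C.gr P ((P.dim : ℤ) - ((1 : ℕ) : ℤ))
        rw [hPd']
        exact_mod_cast hl'
  have hab1 : ∀ s t, HasDegree C (aa s * bb t) (if s = t then 1 else 0) := by
    intro s t
    fin_cases s <;> fin_cases t
    · change HasDegree C (1 * o) 1
      rwa [one_mul]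
    · exact ne1 hone hl' (by norm_num)
    · exact ne1 hl ho (by norm_num)
    · exact hll'
  have haa : ∀ s t, HasDegree C (aa s * aa t) 0 := by
    intro s t
    fin_cases s <;> fin_cases t
    · exact ne1 hone hone (by norm_num)
    · exact ne1 hone hl (by norm_num)
    · exact ne1 hl hone (by norm_num)
    · exact hll
  have hbb : ∀ s t, HasDegree C (bb s * bb t) 0 := by
    intro s t
    fin_cases s <;> fin_cases t
    · exact ne1 ho ho (by norm_num)
    · exact ne1 ho hl' (by norm_num)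
    · exact ne1 hl' ho (by norm_num)
    · exact hl'l'
  have hdg' : dg C P = ∑ s, (C.ext (aa s) (bb s) + C.ext (bb s) (aa s)) := by
    rw [Fin.sum_univ_two, hdg]
    rfl
  obtain ⟨σ, hσ, hσr⟩ := selfDual_prod (H := H) hab hab1 haa hbb hdg' hρ
  have h1 : C.act (σ (j + 2 * s + 2 * 1)) (C.ext β l) = C.ext β l := hσr 1 _ β hρα
  have hVP : (V.prod P).dim = 2 * m := by
    rw [dim_prod, hVd, hPd]
    omega
  have h2 := hmid (V.prod P) (hR.prod V hV) hVP σ hσ
  have h3 : C.ext β l ∈ C.gr (V.prod P) m := by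
    have h4 := ext_mem (C := C) (H := H) hβm hl
    have e : ((m - 1 : ℕ) : ℤ) + 1 = m := by omega
    rwa [e] at h4
  rw [← h2, hσ.1.mem_ckFil] at h3
  have h4 := h3.2 (j + 2 * s + 2 * 1) (by omega)
  rw [h1] at h4
  have h5 : β = 0 := eq_zero_of_ext hll' h4
  have h6 : α = C.act (b s) β := by
    rw [hβ, ← C.act_comp, hB.ab s hsr s hsr, if_pos rfl, act_dg]
  rw [h6, h5, C.act_map_zero]

theorem murreC_of_rational {Rat : 𝒱.Obj → Prop} {P : 𝒱.Obj} (hR : IsRationalClass C Rat P)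
    (hM : Infinitely (MiddleSD H Rat)) (X : 𝒱.Obj) : MurreC H X := by
  apply murreC_of_middle
  intro ρ hρ z hz j hj
  exact middle_zero hR hM (i := X.dim) (by rw [dim_prod, two_mul]) hρ hz hj

/-- The test in a class closed under products. -/
theorem murreC_of_class
    (h : ∀ (V : 𝒱.Obj) (m : ℕ), V.dim = 2 * m → ∀ π, IsCK H V π → ckFil C π m 0 = C.gr V m)
    (X : 𝒱.Obj) : MurreC H X := by
  apply murreC_of_middle
  intro ρ hρ z hz j hj
  rw [← h (X.prod X) X.dim (by rw [dim_prod, two_mul]) ρ hρ, hρ.mem_ckFil] at hz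
  exact hz.2 j (by omega)

lemma b0_of_C (h : ∀ X : 𝒱.Obj, MurreC H X) (V : 𝒱.Obj) (m : ℕ) {π : ℕ → C.A (V.prod V)}
    (hπ : IsCK H V π) : ckFil C π m 0 = C.gr V m :=
  murreB0_of_C0 V (fun π π' hπ hπ' i => h V π π' hπ hπ' i 0) π hπ m

end weil

end Pool.Agent.H92.ZO
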