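import Pool.Agent.H92.ZO.Contr
import Pool.Agent.H92.ZO.EichAct

/-!
# The step `F^1`: assembly
-/

open CategoryTheory AlgebraicGeometry

universe u v w

namespace Pool.Agent.H92.ZO

open Pool.Agent.H914 Pool.Agent.H914.VarClass Pool.Agent.H914.VarClass.Obj Pool.Agent.W492.BB
  Pool.Agent.W550.Corr Pool.Agent.TH133

set_option linter.unusedSectionVars false

variable {k : Type u} [Field k] {𝒱 : VarClass k}

section weil

variable {C : TheoryData.{u, v, 0} 𝒱 ℚ} [hC : IsChowProj C] {K : Type w} [Field K]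
  {H : WeilTheoryData.{u, v, w} C K} [hH : IsWeilProj H] {X Y Z V W T P : 𝒱.Obj}

omit hC hH in
lemma ext_sub_left (x y : C.A X) (c : C.A Y) : C.ext (x - y) c = C.ext x c - C.ext y c := by
  rw [TheoryData.ext, map_sub, sub_mul]
  rfl

omit hC hH in
lemma ext_smul_left (q : ℚ) (x : C.A X) (c : C.A Y) : C.ext (q • x) c = q • C.ext x c := by
  rw [TheoryData.ext, map_smul, smul_mul_assoc]
  rfl

include hC hH

/-- Membership of `x × c` in `F^1` of a product decomposition. -/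
lemma mem_prod {ρ : ℕ → C.A (W.prod W)} {τ : ℕ → C.A (T.prod T)} (hρ : IsCK H W ρ)
    (hτ : IsCK H T τ) {m : ℕ} {x : C.A W} {c : C.A T} (hx : x ∈ C.gr W m) (hcm : c ∈ C.gr T 1)
    (hc : ∀ j, C.act (τ j) c = if j = 1 then c else 0) :
    C.ext x c ∈ ckFil C (prodCK C ρ τ) (m + 1) 1 ↔
      ∀ b, 2 * m < b → C.ext (C.act (ρ b) x) c = 0 := by
  rw [(hρ.prod hτ).mem_ckFil]
  constructor
  · rintro ⟨_, h⟩ b hb
    rw [← prodCK_ext (H := H) hc]
    exact h (b + 1) (by omega)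
  · intro h
    refine ⟨?_, fun j hj => ?_⟩
    · have := ext_mem (C := C) (H := H) hx hcm
      exact_mod_cast this
    · obtain ⟨b, rfl⟩ : ∃ b, j = b + 1 := ⟨j - 1, by omega⟩
      rw [prodCK_ext (H := H) hc]
      exact h b (by omega)

/-- The one-class test for `F^1`. -/
lemma ext_zero_of_mem (hT : T.dim = 1) {τ : ℕ → C.A (T.prod T)} (hτ : IsCK H T τ)
    (hτs : IsSelfDual C τ) {c : C.A T} (hcm : c ∈ C.gr T 1)
    (hc : ∀ j, C.act (τ j) c = if j = 1 then c else 0) {m : ℕ} {t : C.A W}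
    (ht : NumNontrivial H m t) (h : ∀ P, IsSelfDualCK H (W.prod T) P →
      C.ext t c ∈ ckFil C P (m + 1) 1) {σ : ℕ → C.A (W.prod W)} (hσ : IsSelfDualCK H W σ) {j : ℕ}
    (hj : 2 * m < j) {β : C.A W} (hβ : β ∈ C.gr W m) (hβj : C.act (σ j) β = β) :
    C.ext β c = 0 := by
  obtain ⟨v, hv, hd⟩ := ht.normal
  obtain ⟨ρ, ⟨hρ, hρs⟩, hact⟩ := eichler_act hσ.1 hσ.2 hv hβ
  have h1 := h _ ⟨hσ.1.prod hτ, prodCK_selfDual hT hσ.1 hσ.2 hτ hτs⟩
  have h2 := h _ ⟨hρ.prod hτ, prodCK_selfDual hT hρ hρs hτ hτs⟩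
  rw [mem_prod hσ.1 hτ ht.1 hcm hc] at h1
  rw [mem_prod hρ hτ ht.1 hcm hc] at h2
  have h3 := h1 j hj
  have h4 := h2 j hj
  rw [hact t 1 ht.1 hd j hj, one_smul, hβj, ext_sub_left, h3, zero_sub, neg_eq_zero] at h4
  exact h4

/-- The finiteness test for `F^1`. -/
lemma ext_zero_of_finite (hT : T.dim = 1) {τ : ℕ → C.A (T.prod T)} (hτ : IsCK H T τ)
    (hτs : IsSelfDual C τ) {c : C.A T} (hcm : c ∈ C.gr T 1)
    (hc : ∀ j, C.act (τ j) c = if j = 1 then c else 0) {m : ℕ} {t : C.A W}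
    (ht : NumNontrivial H m t) (h : (selfDualSteps H (W.prod T) (m + 1) 1).Finite)
    {σ : ℕ → C.A (W.prod W)} (hσ : IsSelfDualCK H W σ) {j : ℕ}
    (hj : 2 * m < j) {β : C.A W} (hβ : β ∈ C.gr W m) (hβj : C.act (σ j) β = β) :
    C.ext β c = 0 := by
  obtain ⟨v, hv, hd⟩ := ht.normal
  have hex : ∀ l : ℕ, ∃ ρ, (IsCK H W ρ ∧ IsSelfDual C ρ) ∧
      (∀ (x : C.A W) (q : ℚ), x ∈ C.gr W m → HasDegree C (v * x) q → ∀ b, 2 * m < b →
        C.act (ρ b) x = C.act (σ b) x - q • C.act (σ b) ((l : ℚ) • β)) := fun l =>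
    eichler_act hσ.1 hσ.2 hv (Submodule.smul_mem _ _ hβ)
  choose ρ hρ hact using hex
  -- a class of degree one in `F^0`
  set x0 := C.act (σ (2 * m)) t with hx0
  have hx0m : x0 ∈ C.gr W m := act_mem0 C (hσ.1.deg _) ht.1
  have hx0b : ∀ b, 2 * m < b → C.act (σ b) x0 = 0 := by
    intro b hb
    rw [hx0, ← C.act_comp, hσ.1.comp_eq, if_neg (by omega), TheoryData.act_zero]
  have hx0d : HasDegree C (v * x0) 1 := by
    have h3 : v * x0 = v * t + v * (x0 - t) := by rw [mul_sub]; abel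
    rw [h3, ← add_zero (1 : ℚ)]
    refine hasDegree_add hd (hasDegree_mul_hom (H := H) hv (Submodule.sub_mem _ hx0m ht.1) ?_)
    rw [map_sub, hx0, cl_act H]
    have h4 := hσ.1.act_self (2 * m) (H.cl t) (by
      have := H.cl_mem ht.1
      exact_mod_cast this)
    rw [h4, sub_self]
  have hβh : H.cl β = 0 := by
    rw [← hβj, cl_act H]
    exact hσ.1.act_ne j (2 * m) _ (by omega) (H.cl_mem hβ)
  let y : ℕ → C.A W := fun l => x0 + (l : ℚ) • β
  have hym : ∀ l, y l ∈ C.gr W m := fun l => Submodule.add_mem _ hx0m (Submodule.smul_mem _ _ hβ)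
  have hyd : ∀ l, HasDegree C (v * y l) 1 := by
    intro l
    have h3 := hasDegree_add hx0d (hasDegree_smul (hasDegree_mul_hom (H := H) hv hβ hβh) (l : ℚ))
    rw [mul_zero, add_zero] at h3
    change HasDegree C (v * (x0 + (l : ℚ) • β)) 1
    rwa [mul_add, mul_smul_comm]
  let F : ℕ → Submodule ℚ (C.A (W.prod T)) := fun l => ckFil C (prodCK C (ρ l) τ) (m + 1) 1
  by_contra hne
  have hinj : Function.Injective F := by
    intro a b hab
    have h1 : C.ext (y a) c ∈ F a := by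
      rw [mem_prod (hρ a).1 hτ (hym a) hcm hc]
      intro b' hb'
      rw [hact a (y a) 1 (hym a) (hyd a) b' hb', one_smul]
      change C.ext (C.act (σ b') (x0 + (a : ℚ) • β) - _) c = 0
      rw [act_map_add, hx0b b' hb', zero_add, sub_self, TheoryData.ext_zero_left]
    have h2 : C.ext (y a) c ∈ F b := by rw [← hab]; exact h1
    rw [mem_prod (hρ b).1 hτ (hym a) hcm hc] at h2
    have h3 := h2 j hj
    rw [hact b (y a) 1 (hym a) (hyd a) j hj, one_smul] at h3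
    have h4 : C.act (σ j) (y a) - C.act (σ j) ((b : ℚ) • β) = ((a : ℚ) - b) • β := by
      change C.act (σ j) (x0 + (a : ℚ) • β) - _ = _
      rw [act_map_add, hx0b j hj, zero_add, act_map_smul, act_map_smul, hβj, sub_smul]
    rw [h4, ext_smul_left] at h3
    rcases smul_eq_zero.1 h3 with h5 | h5
    · exact_mod_cast sub_eq_zero.1 h5
    · exact absurd h5 hne
  refine (Set.infinite_range_of_injective hinj) (h.subset ?_)
  rintro _ ⟨l, rfl⟩
  exact ⟨_, ⟨(hρ l).1.prod hτ, prodCK_selfDual hT (hρ l).1 (hρ l).2 hτ hτs⟩, rfl⟩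

/-- Classes of too large weight on any variety give such classes in the middle codimension on
varieties of the class `Rat`, for self-dual decompositions. -/
theorem raise {Rat : 𝒱.Obj → Prop} {P : 𝒱.Obj} (hR : IsRationalClass C Rat P) {p : ℕ → Prop}
    (hM : Infinitely p) {Y : 𝒱.Obj} {i : ℕ} {π : ℕ → C.A (Y.prod Y)} (hπ : IsCK H Y π)
    {α : C.A Y} (hαm : α ∈ C.gr Y i) {j : ℕ} (hj : 2 * i < j) (hαj : C.act (π j) α = α) :
    ∃ (m : ℕ) (V : 𝒱.Obj) (b : C.A (V.prod Y)) (β : C.A V) (l l' : C.A P)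
      (σ : ℕ → C.A ((V.prod P).prod (V.prod P))) (j' : ℕ), p m ∧ Rat (V.prod P) ∧
      (V.prod P).dim = 2 * m ∧ IsSelfDualCK H (V.prod P) σ ∧ C.ext β l ∈ C.gr (V.prod P) m ∧
      2 * m < j' ∧ C.act (σ j') (C.ext β l) = C.ext β l ∧ HasDegree C (l * l') 1 ∧
      α = C.act b β := by
  obtain ⟨n, hn⟩ := hR.blowUps Y
  obtain ⟨m, hm, hmid⟩ := hM (n + i + Y.dim + 2)
  obtain ⟨V, hV, hVd, r, a, b, u, w, hB⟩ := hn (m - 1) (by omega)
  obtain ⟨hPd, l, l', o, hl, hl', ho, ho1, hll', hll, hl'l', hdg⟩ := hR.quadric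
  have hdim := hB.dim_eq
  set s := m - 1 - i with hs
  have hsr : s ∈ Finset.Ico 1 r := Finset.mem_Ico.2 ⟨by omega, by omega⟩
  obtain ⟨ρ, hρ, hρα⟩ := blow_raise hB hπ hαj hsr
  set β := C.act (a s) α with hβ
  have hβm : β ∈ C.gr V ((m - 1 : ℕ) : ℤ) := by
    have h1 := act_mem' C (hB.a_mem s hsr) hαm
    have e : (i : ℤ) + (s : ℤ) = ((m - 1 : ℕ) : ℤ) := by omega
    rwa [e] at h1
  -- the self-dual decomposition of `V × P`
  let rr : Fin 2 → ℕ := ![0, 1]
  let aa : Fin 2 → C.A P := ![1, l]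
  let bb : Fin 2 → C.A P := ![o, l']
  have hone : (1 : C.A P) ∈ C.gr P 0 := C.one_mem P
  have hPd' : (P.dim : ℤ) = 2 := by rw [hPd]; rfl
  have ne1 : ∀ {x y : C.A P} {p q : ℤ}, x ∈ C.gr P p → y ∈ C.gr P q → p + q ≠ 2 →
      HasDegree C (x * y) 0 := fun hx hy hne =>
    hasDegree_of_ne (C.mul_mem hx hy) (by rw [hPd']; exact hne)
  have hab : ∀ s, rr s ≤ P.dim ∧ C.Deg (rr s) (aa s) ∧ C.Deg ((P.dim : ℤ) - rr s) (bb s) := by
    intro s
    fin_cases s
    · refine ⟨Nat.zero_le _, ?_, ?_⟩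
      · exact_mod_cast hone
      · change o ∈ C.gr P ((P.dim : ℤ) - ((0 : ℕ) : ℤ))
        rw [hPd']
        exact_mod_cast ho
    · refine ⟨by change 1 ≤ P.dim; omega, ?_, ?_⟩
      · exact_mod_cast hl
      · change l' ∈ C.gr P ((P.dim : ℤ) - ((1 : ℕ) : ℤ))
        rw [hPd']
        exact_mod_cast hl'
  have hab1 : ∀ s t, HasDegree C (aa s * bb t) (if s = t then 1 else 0) := by
    intro s t
    fin_cases s <;> fin_cases t
    · change HasDegree C (1 * o) 1
      rwa [one_mul]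
    · exact ne1 hone hl' (by norm_num)
    · exact ne1 hl ho (by norm_num)
    · exact hll'
  have haa : ∀ s t, HasDegree C (aa s * aa t) 0 := by
    intro s t
    fin_cases s <;> fin_cases t
    · exact ne1 hone hone (by norm_num)
    · exact ne1 hone hl (by norm_num)
    · exact ne1 hl hone (by norm_num)
    · exact hll
  have hbb : ∀ s t, HasDegree C (bb s * bb t) 0 := by
    intro s t
    fin_cases s <;> fin_cases t
    · exact ne1 ho ho (by norm_num)
    · exact ne1 ho hl' (by norm_num)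
    · exact ne1 hl' ho (by norm_num)
    · exact hl'l'
  have hdg' : dg C P = ∑ s, (C.ext (aa s) (bb s) + C.ext (bb s) (aa s)) := by
    rw [Fin.sum_univ_two, hdg]
    rfl
  obtain ⟨σ, hσ, hσr⟩ := selfDual_prod (H := H) hab hab1 haa hbb hdg' hρ
  have h1 : C.act (σ (j + 2 * s + 2 * 1)) (C.ext β l) = C.ext β l := hσr 1 _ β hρα
  have hVP : (V.prod P).dim = 2 * m := by
    rw [dim_prod, hVd, hPd]
    omega
  have h3 : C.ext β l ∈ C.gr (V.prod P) m := by
    have h4 := ext_mem (C := C) (H := H) hβm hl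
    have e : ((m - 1 : ℕ) : ℤ) + 1 = m := by omega
    rwa [e] at h4
  refine ⟨m, V, b s, β, l, l', σ, j + 2 * s + 2 * 1, hmid, hR.prod V hV, hVP, hσ, h3, by omega,
    h1, hll', ?_⟩
  rw [hβ, ← C.act_comp, hB.ab s hsr s hsr, if_pos rfl, act_dg]

omit hH in
/-- Cancellation of the factor `l`. -/
lemma ext_zero_cancel {β : C.A V} {l l' : C.A P} {c : C.A T} (hl : HasDegree C (l * l') 1)
    (h : C.ext (C.ext β l) c = 0) : C.ext β c = 0 := by
  apply eq_zero_of_ext (X := V.prod T) hl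
  let f : (V.prod T).prod P ⟶ (V.prod P).prod T :=
    Obj.lift (Obj.lift (fst (V.prod T) P ≫ fst V T) (snd (V.prod T) P))
      (fst (V.prod T) P ≫ snd V T)
  have e1 : f ≫ fst (V.prod P) T ≫ fst V P = fst (V.prod T) P ≫ fst V T := by
    simp [f]
  have e2 : f ≫ fst (V.prod P) T ≫ snd V P = snd (V.prod T) P := by
    simp [f]
  have e3 : f ≫ snd (V.prod P) T = fst (V.prod T) P ≫ snd V T := lift_snd _ _
  have h1 : C.ext (C.ext β c) l = C.pull f (C.ext (C.ext β l) c) := by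
    simp only [TheoryData.ext, map_mul, ← C.pull_comp]
    rw [e1, e2, e3, mul_assoc, mul_assoc, ch_comm C (C.pull (fst (V.prod T) P ≫ snd V T) c)]
  rw [h1, h, map_zero]

/-- The tests imply the vanishing of all classes of too large weight. -/
theorem murreC_of_tests {Rat : 𝒱.Obj → Prop} {P : 𝒱.Obj} (hR : IsRationalClass C Rat P)
    (hT : PositiveGenus C T) (hBS : BlochSrinivas C T) (t : ∀ V : 𝒱.Obj, C.A V)
    (ht : ∀ V m, Rat V → V.dim = 2 * m → NumNontrivial H m (t V))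
    (h : Infinitely fun m => ∀ V, Rat V → V.dim = 2 * m →
      (∀ c, C.Deg 1 c → HasDegree C c 0 → ∀ P, IsSelfDualCK H (V.prod T) P →
        C.ext (t V) c ∈ ckFil C P (m + 1) 1) ∨
      (selfDualSteps H (V.prod T) (m + 1) 1).Finite) (X : 𝒱.Obj) : MurreC H X := by
  have hZ : ∀ (X : 𝒱.Obj) (π : ℕ → C.A (X.prod X)), IsCK H X π → ∀ (i b : ℕ) (z : C.A X),
      z ∈ C.gr X i → 2 * i < b → C.act (π b) z = z → ∀ c ∈ C.gr T 1, HasDegree C c 0 →
      C.ext z c = 0 := by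
    intro X π hπ i b z hz hb hzb c hc hcd
    obtain ⟨e, τ, he, hd, hτ, hτs, hτ1, hτc⟩ := exists_SD_curve (C := C) H T hT.1
    obtain ⟨m, V, b', β, l, l', σ, j', hm, hVP, hdim, hσ, hβm, hj', hβj, hll, rfl⟩ :=
      raise hR h hπ hz hb hzb
    have h1 : C.ext (C.ext β l) c = 0 := by
      rcases hm _ hVP hdim with h1 | h1
      · exact ext_zero_of_mem hT.1 hτ hτs hc (hτc c hc hcd) (ht _ m hVP hdim) (h1 c hc hcd) hσ hj'
          hβm hβj
      · exact ext_zero_of_finite hT.1 hτ hτs hc (hτc c hc hcd) (ht _ m hVP hdim) h1 hσ hj'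
          hβm hβj
    have h2 := ext_zero_cancel hll h1
    have h3 := act_tens_ext C b' (dg C T) (fun f c => ch_comm C _ _) β c
    rw [h2, C.act_map_zero, act_dg] at h3
    exact h3.symm
  apply murreC_of_middle
  intro ρ hρ z hz j hj
  apply zero_of_prod hT hBS hZ hρ (act_mem0 C (hρ.deg j) hz) hj
  rw [← C.act_comp, hρ.idem]

/-- Under (C) for all varieties the classes `t × c` are in `F^1`. -/
theorem mem_of_murreC (h : ∀ X : 𝒱.Obj, MurreC H X) (hT : T.dim = 1) {m : ℕ} {t : C.A V}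
    (ht : t ∈ C.gr V m) {c : C.A T} (hc : c ∈ C.gr T 1) (hcd : HasDegree C c 0)
    {π : ℕ → C.A ((V.prod T).prod (V.prod T))} (hπ : IsCK H (V.prod T) π) :
    C.ext t c ∈ ckFil C π (m + 1) 1 := by
  have h1 := algPower_le (V.prod T)
    (fun Y => (fun π π' hπ hπ' i => h _ π π' hπ hπ' i 0 : MurreC0 H (Y.prod (V.prod T)))) hπ 1
    (m + 1)
  apply h1
  apply Submodule.subset_span
  refine ⟨T, c, tp C (zp C t (dg C T)), CurveCycle.one T c hT hc hcd, ?_, ?_⟩
  · apply tp_mem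
    have h2 := C.pull_mem (aI V T T) (ext_mem' ht (dg_mem C T))
    rw [hT] at h2
    exact_mod_cast h2
  · rw [act_tp, zp_apply, tp_dg, act_dg]

end weil

end Pool.Agent.H92.ZO
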