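import Pool.Agent.H92.ZO.Main1

/-!
# Single steps decide: the two theorems
-/

open CategoryTheory AlgebraicGeometry

universe u v w

namespace Pool.Agent.H92.ZO

open Pool.Agent.H914 Pool.Agent.H914.VarClass Pool.Agent.H914.VarClass.Obj Pool.Agent.W492.BB
  Pool.Agent.W550.Corr Pool.Agent.TH133

set_option linter.unusedSectionVars false

variable {k : Type u} [Field k] {𝒱 : VarClass k}

section weil

variable {C : TheoryData.{u, v, 0} 𝒱 ℚ} [hC : IsChowProj C] {K : Type w} [Field K]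
  {H : WeilTheoryData.{u, v, w} C K} [hH : IsWeilProj H] {X Y Z V W T P : 𝒱.Obj}

include hC hH

/-- The tests for the step `F^0`. -/
theorem zero_step {Rat : 𝒱.Obj → Prop} {P : 𝒱.Obj} (hR : IsRationalClass C Rat P)
    (t : ∀ V : 𝒱.Obj, C.A V)
    (ht : ∀ V m, Rat V → V.dim = 2 * m → NumNontrivial H m (t V)) :
    List.TFAE [∀ X : 𝒱.Obj, MurreC H X,
      ForRational Rat (MovesAgree H),
      ForRational Rat fun m V => TestClass H m 0 V (t V),
      ForRational Rat fun m V => (selfDualSteps H V m 0).Finite] := by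
  have hSD : ∀ (V : 𝒱.Obj) (m : ℕ), Flexible H V m (IsSelfDualCK H V) := fun V m =>
    flexible_SD (H := H) V m
  tfae_have 1 → 2 := fun h n => ⟨n, le_rfl, fun V _ _ π π' hπ hπ' _ => by
    rw [b0_of_C h V n hπ, b0_of_C h V n hπ']⟩
  tfae_have 1 → 3 := fun h n => ⟨n, le_rfl, fun V hV hd π hπ => by
    rw [b0_of_C h V n hπ.1]
    exact (ht V n hV hd).1⟩
  tfae_have 1 → 4 := fun h n => ⟨n, le_rfl, fun V _ _ => by
    apply Set.Subsingleton.finite
    rintro F ⟨π, hπ, rfl⟩ G ⟨π', hπ', rfl⟩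
    rw [b0_of_C h V n hπ.1, b0_of_C h V n hπ'.1]⟩
  tfae_have 2 → 1 := fun h X => murreC_of_rational hR (fun n => by
    obtain ⟨m, hm, h1⟩ := h n
    exact ⟨m, hm, fun V hV hd ρ hρ => all_of_elementary (ht V m hV hd) (h1 V hV hd) hρ.1⟩) X
  tfae_have 3 → 1 := fun h X => murreC_of_rational hR (fun n => by
    obtain ⟨m, hm, h1⟩ := h n
    exact ⟨m, hm, fun V hV hd ρ hρ => (hSD V m).all_of_mem (ht V m hV hd) (h1 V hV hd) hρ⟩) X
  tfae_have 4 → 1 := fun h X => murreC_of_rational hR (fun n => by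
    obtain ⟨m, hm, h1⟩ := h n
    exact ⟨m, hm, fun V hV hd ρ hρ => (hSD V m).all_of_finite (ht V m hV hd) (h1 V hV hd) hρ⟩) X
  tfae_finish

/-- The vanishing of the external products of all classes of too large weight with the zero-cycles of
degree zero on `T`. -/
def ExcessZero (H : WeilTheoryData.{u, v, w} C K) (T : 𝒱.Obj) : Prop :=
  ∀ (X : 𝒱.Obj) (π : ℕ → C.A (X.prod X)), IsCK H X π → ∀ (i b : ℕ) (z : C.A X),
      z ∈ C.gr X i → 2 * i < b → C.act (π b) z = z → ∀ c ∈ C.gr T 1, HasDegree C c 0 →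
      C.ext z c = 0

/-- The vanishing of these products implies that the cycles parametrised by `T` are in `F^1`. -/
theorem inF1_of_excessZero (hT1 : T.dim = 1) (hZ : ExcessZero H T) (X : 𝒱.Obj) :
    CurveCyclesInF1 H T X := by
  intro π hπ i Γ c hΓ hc hcd
  obtain ⟨e, τ, he, hd, hτ, hτs, hτ1, hτc⟩ := exists_SD_curve (C := C) H T hT1
  have hidem : C.comp (τ 1) (τ 1) = τ 1 := hτ.idem 1
  have hpm : τ 1 ∈ C.gr (T.prod T) T.dim := hτ.deg 1
  have htp : ∀ j ≤ 2, tp C (τ j) = τ (2 - j) := fun j hj => by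
    have := hτs j (by rw [hT1]; omega)
    rwa [hT1] at this
  have tpp : tp C (τ 1) = τ 1 := htp 1 (by omega)
  have hT1' : (T.dim : ℤ) = 1 := by rw [hT1]; rfl
  have hc1 : C.act (τ 1) c = c := by
    have := hτc c hc hcd 1
    rwa [if_pos rfl] at this
  have hΓm : Γ ∈ C.gr (T.prod X) (T.dim + ((i : ℤ) - 1)) := by
    rw [hT1', add_sub_cancel]
    exact hΓ
  rw [hπ.mem_ckFil]
  refine ⟨?_, fun b hb => ?_⟩
  · have h1 := act_mem' C hΓm hc
    rwa [add_sub_cancel] at h1
  · set n := C.comp (C.comp (τ 1) Γ) (π b) with hn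
    have hnm : n ∈ C.gr (T.prod X) i := by
      have a2 := comp_mem C (e := 0) (e' := (i : ℤ) - 1) (Γ := τ 1) (Δ := Γ)
        (by rw [add_zero]; exact hpm) hΓm
      have a3 := comp_mem C (e := 0 + ((i : ℤ) - 1)) (e' := 0) (Γ := C.comp (τ 1) Γ)
        (Δ := π b) a2 (by rw [add_zero]; exact hπ.deg b)
      have e1 : (T.dim : ℤ) + (0 + ((i : ℤ) - 1) + 0) = i := by rw [hT1']; ring
      rwa [e1] at a3
    have hnb : C.act (prodCK C τ π (b + 1)) n = n := by
      unfold prodCK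
      rw [act_sum, Finset.sum_eq_single 1]
      · rw [act_tens C (ch_comm C), tpp, Nat.add_sub_cancel, hn]
        rw [← comp_assoc C (τ 1) (C.comp (τ 1) Γ) (π b), ← comp_assoc C (τ 1) (τ 1),
          hidem, comp_assoc C (C.comp (τ 1) Γ) (π b) (π b), hπ.idem]
      · intro j _ hj
        by_cases hj2 : j ≤ 2
        · rw [act_tens C (ch_comm C), htp j hj2, hn,
            ← comp_assoc C (τ (2 - j)) (C.comp (τ 1) Γ) (π b),
            ← comp_assoc C (τ (2 - j)) (τ 1), hτ.orth _ _ (by omega), zero_comp, zero_comp,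
            zero_comp]
        · rw [hτ.out j (by omega), tens_zero_left, C.act_zero]
      · intro h
        exfalso
        apply h
        rw [Finset.mem_range]
        omega
    have h3 := hZ (T.prod X) (prodCK C τ π) (hτ.prod hπ) i (b + 1) n hnm (by omega) hnb c hc hcd
    have h4 : C.act n c = 0 := by
      rw [act_eq_ext, h3, map_zero, map_zero]
    rw [hn, C.act_comp, C.act_comp, hc1] at h4
    exact h4

/-- If the cycles parametrised by `T` are in `F^1` then so are the classes `t × c`. -/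
theorem mem_of_inF1 (hT : T.dim = 1) (h : CurveCyclesInF1 H T (V.prod T)) {m : ℕ} {t : C.A V}
    (ht : t ∈ C.gr V m) {c : C.A T} (hc : c ∈ C.gr T 1) (hcd : HasDegree C c 0)
    {π : ℕ → C.A ((V.prod T).prod (V.prod T))} (hπ : IsCK H (V.prod T) π) :
    C.ext t c ∈ ckFil C π (m + 1) 1 := by
  have h1 := h π hπ (m + 1) (tp C (zp C t (dg C T))) c ?_ hc hcd
  · rwa [act_tp, zp_apply, tp_dg, act_dg] at h1
  · apply tp_mem
    have h2 := C.pull_mem (aI V T T) (ext_mem' ht (dg_mem C T))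
    rw [hT] at h2
    exact_mod_cast h2

/-- The tests imply the vanishing of the external products. -/
theorem excessZero_of_tests {Rat : 𝒱.Obj → Prop} {P : 𝒱.Obj} (hR : IsRationalClass C Rat P)
    (hT : T.dim = 1) (t : ∀ V : 𝒱.Obj, C.A V)
    (ht : ∀ V m, Rat V → V.dim = 2 * m → NumNontrivial H m (t V))
    (h : Infinitely fun m => ∀ V, Rat V → V.dim = 2 * m →
      (∀ c, C.Deg 1 c → HasDegree C c 0 → ∀ P, IsSelfDualCK H (V.prod T) P →
        C.ext (t V) c ∈ ckFil C P (m + 1) 1) ∨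
      (selfDualSteps H (V.prod T) (m + 1) 1).Finite) : ExcessZero H T := by
  intro X π hπ i b z hz hb hzb c hc hcd
  obtain ⟨e, τ, he, hd, hτ, hτs, hτ1, hτc⟩ := exists_SD_curve (C := C) H T hT
  obtain ⟨m, V, b', β, l, l', σ, j', hm, hVP, hdim, hσ, hβm, hj', hβj, hll, rfl⟩ :=
    raise hR h hπ hz hb hzb
  have h1 : C.ext (C.ext β l) c = 0 := by
    rcases hm _ hVP hdim with h1 | h1
    · exact ext_zero_of_mem hT hτ hτs hc (hτc c hc hcd) (ht _ m hVP hdim) (h1 c hc hcd) hσ hj'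
        hβm hβj
    · exact ext_zero_of_finite hT hτ hτs hc (hτc c hc hcd) (ht _ m hVP hdim) h1 hσ hj'
        hβm hβj
  have h2 := ext_zero_cancel hll h1
  have h3 := act_tens_ext C b' (dg C T) (fun f c => ch_comm C _ _) β c
  rw [h2, C.act_map_zero, act_dg] at h3
  exact h3.symm

/-- The vanishing of the external products implies (C), by the theorem of Bloch and Srinivas. -/
theorem murreC_of_excessZero (hT : PositiveGenus C T) (hBS : BlochSrinivas C T)
    (hZ : ExcessZero H T) (X : 𝒱.Obj) : MurreC H X := by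
  apply murreC_of_middle
  intro ρ hρ z hz j hj
  apply zero_of_prod hT hBS hZ hρ (act_mem0 C (hρ.deg j) hz) hj
  rw [← C.act_comp, hρ.idem]

/-- (C) implies the vanishing of all classes of too large weight. -/
theorem excessZero_of_murreC (h : ∀ X : 𝒱.Obj, MurreC H X) : ExcessZero H T := by
  intro X π hπ i b z hz hb hzb c hc hcd
  have h1 := b0_of_C h X i hπ
  rw [← h1, hπ.mem_ckFil] at hz
  have h2 := hz.2 b (by omega)
  rw [← hzb, h2, TheoryData.ext_zero_left]

/-- The cycles parametrised by `T` are in `F^1` if the products vanish, and conversely. -/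
theorem first_step {Rat : 𝒱.Obj → Prop} {P : 𝒱.Obj} (hR : IsRationalClass C Rat P)
    (t : ∀ V : 𝒱.Obj, C.A V)
    (ht : ∀ V m, Rat V → V.dim = 2 * m → NumNontrivial H m (t V)) (hT : T.dim = 1) :
    ((∀ X : 𝒱.Obj, CurveCyclesInF1 H T X) ↔
      ForRational Rat fun m V => ∀ c, C.Deg 1 c → HasDegree C c 0 →
        TestClass H (m + 1) 1 (V.prod T) (C.ext (t V) c)) ∧
    ((ForRational Rat fun m V => (selfDualSteps H (V.prod T) (m + 1) 1).Finite) →
      ∀ X : 𝒱.Obj, CurveCyclesInF1 H T X) ∧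
    (PositiveGenus C T → BlochSrinivas C T →
      ((∀ X : 𝒱.Obj, CurveCyclesInF1 H T X) ↔ ∀ X : 𝒱.Obj, MurreC H X)) := by
  have hA : (∀ X : 𝒱.Obj, CurveCyclesInF1 H T X) →
      ForRational Rat fun m V => ∀ c, C.Deg 1 c → HasDegree C c 0 →
        TestClass H (m + 1) 1 (V.prod T) (C.ext (t V) c) := fun h n =>
    ⟨n, le_rfl, fun V hV hd c hc hcd π hπ => mem_of_inF1 hT (h _) (ht V n hV hd).1 hc hcd hπ.1⟩
  have hB : (ForRational Rat fun m V => ∀ c, C.Deg 1 c → HasDegree C c 0 →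
        TestClass H (m + 1) 1 (V.prod T) (C.ext (t V) c)) → ExcessZero H T := fun h =>
    excessZero_of_tests hR hT t ht (fun n => by
      obtain ⟨m, hm, h1⟩ := h n
      exact ⟨m, hm, fun V hV hd => Or.inl (h1 V hV hd)⟩)
  refine ⟨⟨hA, fun h => inF1_of_excessZero hT (hB h)⟩, fun h =>
    inF1_of_excessZero hT (excessZero_of_tests hR hT t ht (fun n => by
      obtain ⟨m, hm, h1⟩ := h n
      exact ⟨m, hm, fun V hV hd => Or.inr (h1 V hV hd)⟩)), fun hg hBS =>
    ⟨fun h => murreC_of_excessZero hg hBS (hB (hA h)), fun h =>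
      inF1_of_excessZero hT (excessZero_of_murreC h)⟩⟩

end weil

end Pool.Agent.H92.ZO
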