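import Pool.Agent.H92.ZO.Defs
import Pool.Graph.R_seed8.TH133.Hyper

/-!
# One cycle class decides the independence of `F^0`: one variety
-/

open CategoryTheory AlgebraicGeometry

universe u v w

namespace Pool.Agent.H92.ZO

open Pool.Agent.H914 Pool.Agent.H914.VarClass Pool.Agent.H914.VarClass.Obj Pool.Agent.W492.BB
  Pool.Agent.W550.Corr Pool.Agent.TH133

set_option linter.unusedSectionVars false

variable {k : Type u} [Field k] {𝒱 : VarClass k}

section chow

variable {C : TheoryData.{u, v, 0} 𝒱 ℚ} [hC : IsChowProj C] {X Y Z W : 𝒱.Obj}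

include hC

lemma ext_comp (v : C.A X) (α : C.A Y) (Δ : C.A (Y.prod Z)) :
    C.comp (C.ext v α) Δ = C.ext v (C.act Δ α) := by
  have h1 := act_tens C (ch_comm C) (dg C X) Δ (C.ext v α)
  rw [tp_dg, dg_comp, act_tens_ext C _ _ (fun f c => ch_comm C _ _), act_dg] at h1
  exact h1.symm

lemma comp_ext (Γ : C.A (X.prod Y)) (v : C.A Y) (α : C.A Z) :
    C.comp Γ (C.ext v α) = C.ext (C.act (tp C Γ) v) α := by
  have h1 := act_tens C (ch_comm C) (tp C Γ) (dg C Z) (C.ext v α)
  rw [tp_tp, comp_dg, act_tens_ext C _ _ (fun f c => ch_comm C _ _), act_dg] at h1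
  exact h1.symm

lemma ext_zero (v : C.A X) : C.ext v (0 : C.A Y) = 0 := by
  rw [TheoryData.ext, map_zero, mul_zero]

lemma hasDegree_smul {x : C.A X} {q : ℚ} (h : HasDegree C x q) (r : ℚ) :
    HasDegree C (r • x) (r * q) := by
  intro Y
  rw [map_smul, map_smul, map_smul, map_smul, (h Y).1, (h Y).2, smul_smul]
  exact ⟨rfl, rfl⟩

lemma hasDegree_add {x y : C.A X} {q r : ℚ} (h : HasDegree C x q) (h' : HasDegree C y r) :
    HasDegree C (x + y) (q + r) := by
  intro Y
  rw [map_add, map_add, map_add, map_add, (h Y).1, (h Y).2, (h' Y).1, (h' Y).2, add_smul]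
  exact ⟨rfl, rfl⟩

end chow

section weil

variable {C : TheoryData.{u, v, 0} 𝒱 ℚ} [hC : IsChowProj C] {K : Type w} [Field K]
  {H : WeilTheoryData.{u, v, w} C K} [hH : IsWeilProj H] {X Y Z W : 𝒱.Obj}

include hC hH

lemma actC_mem {a : Cor C X} (ha : a ∈ cor0 C X) {i : ℤ} {x : C.A X} (hx : x ∈ C.gr X i) :
    actC C X a x ∈ C.gr X i := act_mem0 C ha hx

lemma actC_mul' (a b : Cor C X) (x : C.A X) :
    actC C X (a * b) x = actC C X a (actC C X b x) := by rw [map_mul]; rfl

/-- The filtration of a conjugate decomposition. -/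
lemma mem_conj {P : ℕ → Cor C X} (h : IsCK H X P) {s t : Cor C X} (hs : s ∈ cor0 C X)
    (ht : t ∈ cor0 C X) (hst : s * t = 1) (hts : t * s = 1)
    (hact : ∀ a : H.A X, actH C X H s a = a) (i n : ℕ) (x : C.A X) :
    x ∈ ckFil C (fun j => (s * P j * t : Cor C X)) i n ↔ actC C X t x ∈ ckFil C P i n := by
  rw [(h.conj hs ht hst hts hact).mem_ckFil, h.mem_ckFil]
  have h1 : ∀ x : C.A X, actC C X s (actC C X t x) = x := fun x => by
    rw [← actC_mul' (H := H), hst, map_one]; rfl
  have h2 : ∀ x : C.A X, actC C X t (actC C X s x) = x := fun x => by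
    rw [← actC_mul' (H := H), hts, map_one]; rfl
  constructor
  · rintro ⟨hx, hx'⟩
    refine ⟨actC_mem (H := H) ht hx, fun j hj => ?_⟩
    have h3 : actC C X (s * P j * t) x = 0 := hx' j hj
    rw [actC_mul' (H := H), actC_mul' (H := H)] at h3
    have h4 := congrArg (actC C X t) h3
    rw [h2, map_zero] at h4
    exact h4
  · rintro ⟨hx, hx'⟩
    refine ⟨?_, fun j hj => ?_⟩
    · have := actC_mem (H := H) hs hx
      rwa [h1] at this
    · change actC C X (s * P j * t) x = 0
      have h3 : actC C X (P j) (actC C X t x) = 0 := hx' j hj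
      rw [actC_mul' (H := H), actC_mul' (H := H), h3, map_zero]

lemma one_add_mul {n : Cor C X} (hn : n * n = 0) : (1 + n) * (1 - n) = 1 := by
  rw [mul_sub, mul_one, add_mul, one_mul, hn]; abel

lemma one_sub_mul {n : Cor C X} (hn : n * n = 0) : (1 - n) * (1 + n) = 1 := by
  rw [mul_add, mul_one, sub_mul, one_mul, hn]; abel

lemma actH_one_add {n : Cor C X} (hn : ∀ a : H.A X, actH C X H n a = 0) (a : H.A X) :
    actH C X H (1 + n) a = a := by
  rw [map_add, map_one, LinearMap.add_apply, hn, add_zero]; rfl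

/-- Off-diagonal correspondences act as zero on the cohomology. -/
lemma actH_off {P : ℕ → Cor C X} (hP : IsCK H X P) {γ : Cor C X} (hγ : γ ∈ cor0 C X) {a b : ℕ}
    (hab : a ≠ b) (z : H.A X) : actH C X H (P b * γ * P a) z = 0 := by
  have h0 : actH C X H (P b * γ * P a) = 0 := by
    apply ext_gr H
    intro m z hz
    rw [LinearMap.zero_apply, map_mul, map_mul, Module.End.mul_apply, Module.End.mul_apply,
      hP.actH_eq' _ _ hz]
    split_ifs with hm
    · rw [hP.actH_eq' _ _ (actH_mem0 hγ hz), if_neg (by omega)]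
    · rw [map_zero, map_zero]
  rw [h0, LinearMap.zero_apply]

/-- The projector to the part of weights larger than `2 i`. -/
noncomputable def upper (P : ℕ → Cor C X) (i : ℕ) : Cor C X :=
  ∑ j ∈ (Finset.range (2 * X.dim + 1)).filter (fun j => 2 * i < j), P j

lemma upper_mem {P : ℕ → Cor C X} (hP : IsCK H X P) (i : ℕ) : upper P i ∈ cor0 C X :=
  Subalgebra.sum_mem _ fun j _ => (hP.deg j)

lemma mul_upper {P : ℕ → Cor C X} (hP : IsCK H X P) (i j : ℕ) :
    P j * upper P i = if 2 * i < j then P j else 0 := by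
  unfold upper
  rw [Finset.mul_sum]
  simp_rw [hP.mul_eq]
  by_cases hj : j ∈ (Finset.range (2 * X.dim + 1)).filter (fun j => 2 * i < j)
  · rw [Finset.sum_eq_single j]
    · rw [if_pos rfl, if_pos (Finset.mem_filter.1 hj).2]
    · intro b _ hb
      rw [if_neg (Ne.symm hb)]
    · exact fun h => absurd hj h
  · rw [Finset.sum_eq_zero]
    · split_ifs with h1
      · have h2 : 2 * X.dim < j := by
          by_contra h3
          exact hj (Finset.mem_filter.2 ⟨Finset.mem_range.2 (by omega), h1⟩)
        exact (hP.out j h2).symm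
      · rfl
    · intro b hb
      rw [if_neg (fun h => hj (by rwa [h]))]

lemma upper_mul_upper {P : ℕ → Cor C X} (hP : IsCK H X P) (i : ℕ) :
    upper P i * upper P i = upper P i := by
  conv_lhs => rw [upper, Finset.sum_mul]
  rw [upper]
  apply Finset.sum_congr rfl
  intro j hj
  have := mul_upper hP i j
  rw [if_pos (Finset.mem_filter.1 hj).2] at this
  exact this

/-- The step `F^0` is the kernel of the projector to the part of weights larger than `2 i`. -/
lemma mem_iff_upper {P : ℕ → Cor C X} (hP : IsCK H X P) {i : ℕ} {x : C.A X}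
    (hx : x ∈ C.gr X i) : x ∈ ckFil C P i 0 ↔ actC C X (upper P i) x = 0 := by
  rw [hP.mem_ckFil]
  constructor
  · rintro ⟨_, h⟩
    unfold upper
    rw [map_sum, LinearMap.sum_apply]
    apply Finset.sum_eq_zero
    intro j hj
    exact h j (by have := (Finset.mem_filter.1 hj).2; omega)
  · intro h
    refine ⟨hx, fun j hj => ?_⟩
    have h1 := mul_upper hP i j
    rw [if_pos (by omega)] at h1
    change actC C X (P j) x = 0
    rw [← h1, actC_mul' (H := H), h, map_zero]

/-- **The basic family of decompositions.** Let `v ∈ CH^(d - i)(X)` and `α ∈ CH^i(X)`. There is a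
Chow-Kunneth decomposition `ρ` of `X` with
`F^0_ρ CH^i(X) = {x | x - deg(v x) α ∈ F^0_π CH^i(X)}`; if `α = (π b)_* α` for some `b > 2 i` then
`ρ` is obtained from `π` by an elementary move. -/
theorem basic_family {π : ℕ → C.A (X.prod X)} (hπ : IsCK H X π) {i : ℕ} {v α : C.A X}
    (hv : v ∈ C.gr X ((X.dim : ℤ) - i)) (hα : α ∈ C.gr X i) :
    ∃ ρ, IsCK H X ρ ∧
      (∀ (x : C.A X) (q : ℚ), x ∈ C.gr X i → HasDegree C (v * x) q →
        (x ∈ ckFil C ρ i 0 ↔ x - q • α ∈ ckFil C π i 0)) ∧
      (∀ b, 2 * i < b → C.act (π b) α = α → ElementaryMove C i π ρ) := by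
  let P : ℕ → Cor C X := π
  have hP : IsCK H X P := hπ
  have hPm : ∀ i, P i ∈ cor0 C X := hπ.deg
  set Q : Cor C X := upper P i with hQ
  let E : Cor C X := C.ext v α
  have hE : E ∈ cor0 C X := by
    have := ext_mem (C := C) (H := H) hv hα
    rwa [sub_add_cancel] at this
  have hQm : Q ∈ cor0 C X := upper_mem hP i
  have hPQ : ∀ j, P j * Q = if 2 * i < j then P j else 0 := mul_upper hP i
  set n : Cor C X := Q * E * P (2 * i) with hn
  have hnm : n ∈ cor0 C X := (cor0 C X).mul_mem ((cor0 C X).mul_mem hQm hE) (hPm _)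
  have hPQ0 : P (2 * i) * Q = 0 := by rw [hPQ, if_neg (by omega)]
  have hnn : n * n = 0 := by
    have : n * n = Q * E * (P (2 * i) * Q) * E * P (2 * i) := by simp only [n, mul_assoc]
    rw [this, hPQ0, mul_zero, zero_mul, zero_mul]
  have hnact : ∀ a : H.A X, actH C X H n a = 0 := by
    intro a
    have h1 : n = ∑ j ∈ (Finset.range (2 * X.dim + 1)).filter (fun j => 2 * i < j),
        P j * E * P (2 * i) := by
      rw [hn, hQ, upper, Finset.sum_mul, Finset.sum_mul]
    rw [h1, map_sum, LinearMap.sum_apply]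
    apply Finset.sum_eq_zero
    intro j hj
    exact actH_off hP hE (by have := (Finset.mem_filter.1 hj).2; omega) a
  have hst := one_add_mul (H := H) hnn
  have hts := one_sub_mul (H := H) hnn
  have hs : 1 + n ∈ cor0 C X := (cor0 C X).add_mem (cor0 C X).one_mem hnm
  have ht : 1 - n ∈ cor0 C X := (cor0 C X).sub_mem (cor0 C X).one_mem hnm
  have hact := actH_one_add (H := H) hnact
  have hn' : n = (C.ext (C.act (tp C (π (2 * i))) v) (actC C X Q α) : C.A (X.prod X)) := by
    change C.comp (X := X) (Y := X) (Z := X) (π (2 * i))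
      (C.comp (X := X) (Y := X) (Z := X) (C.ext v α) Q) = _
    rw [ext_comp, comp_ext]
    rfl
  refine ⟨fun j => ((1 + n) * P j * (1 - n) : Cor C X), hP.conj hs ht hst hts hact, ?_, ?_⟩
  · intro x q hx hq
    rw [mem_conj hP hs ht hst hts hact]
    -- the action of `n` on `x`
    have hnx : actC C X n x = q • actC C X Q α := by
      rw [hn, actC_mul' (H := H), actC_mul' (H := H), ← map_smul]
      congr 1
      change C.act (C.ext v α) (C.act (π (2 * i)) x) = q • α
      apply act_ext'
      have h1 : C.act (π (2 * i)) x ∈ C.gr X i := act_mem0 C (hπ.deg _) hx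
      have h2 : v * C.act (π (2 * i)) x = v * x + v * (C.act (π (2 * i)) x - x) := by
        rw [mul_sub]; abel
      rw [h2, ← add_zero q]
      refine hasDegree_add hq (hasDegree_zero_of_cl H ?_ ?_)
      · have := C.mul_mem hv (Submodule.sub_mem _ h1 hx)
        rwa [sub_add_cancel] at this
      · rw [map_mul, map_sub, cl_act H]
        have h3 := hπ.act_self (2 * i) (H.cl x) (by
          have := H.cl_mem hx
          exact_mod_cast this)
        rw [h3, sub_self, mul_zero]
    have h4 : actC C X (1 - n) x = x - q • actC C X Q α := by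
      rw [map_sub, map_one, LinearMap.sub_apply, hnx]; rfl
    have hQα : actC C X Q α ∈ C.gr X i := actC_mem (H := H) hQm hα
    rw [h4, mem_iff_upper hP (Submodule.sub_mem _ hx (Submodule.smul_mem _ q hQα)),
      mem_iff_upper hP (Submodule.sub_mem _ hx (Submodule.smul_mem _ q hα)), map_sub, map_sub,
      map_smul, map_smul, ← actC_mul' (H := H), ← hQ]
    have h5 : Q * Q = Q := upper_mul_upper hP i
    rw [h5]
  · intro b hb hbα
    have hb' : actC C X (P b) α = α := hbα
    have hPα : ∀ j, j ≠ b → actC C X (P j) α = 0 := by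
      intro j hj
      rw [← hb', ← actC_mul' (H := H), hP.mul_eq, if_neg hj, map_zero]; rfl
    have hQα : actC C X Q α = α := by
      have h1 : Q * P b = P b := by
        rw [hQ, upper, Finset.sum_mul]
        simp_rw [hP.mul_eq]
        by_cases hbd : 2 * X.dim < b
        · have h2 : P b = 0 := hP.out b hbd
          rw [h2]
          apply Finset.sum_eq_zero
          intro j _
          split_ifs with h3
          · rw [h3, h2]
          · rfl
        · rw [Finset.sum_eq_single b]
          · rw [if_pos rfl]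
          · intro j _ hj
            rw [if_neg hj]
          · intro h2
            exact absurd (Finset.mem_filter.2 ⟨Finset.mem_range.2 (by omega), hb⟩) h2
      conv_lhs => rw [← hb']
      rw [← actC_mul' (H := H), h1, hb']
    rw [hQα] at hn'
    set y := C.act (tp C (π (2 * i))) v with hy
    have hPn : ∀ j, P j * n = (C.ext y (actC C X (P j) α) : C.A (X.prod X)) := by
      intro j
      rw [hn']
      change C.comp (X := X) (Y := X) (Z := X) (C.ext y α) (π j) = _
      rw [ext_comp]
      rfl
    have hPn0 : ∀ j, j ≠ b → P j * n = 0 := by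
      intro j hj
      rw [hPn, hPα j hj]
      exact ext_zero y
    have hPnb : P b * n = n := by rw [hPn, hb', hn']
    have hnP : ∀ j, n * P j = if j = 2 * i then n else 0 := by
      intro j
      rw [hn, mul_assoc, hP.mul_eq]
      split_ifs with h1 h2
      · rfl
      · exact absurd h1.symm h2
      · exact absurd (Eq.symm (by assumption)) h1
      · rw [mul_zero]
    refine ⟨b, y, α, hb, act_mem0 C (tp_mem C (hπ.deg _)) hv, hα, ?_, ?_, ?_⟩
    · change (1 + n) * P (2 * i) * (1 - n) = P (2 * i) + _
      rw [add_mul, one_mul, hnP, if_pos rfl, mul_sub, mul_one, add_mul, hPn0 _ (by omega), hnn,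
        add_zero, sub_zero, hn']
    · change (1 + n) * P b * (1 - n) = P b - _
      rw [add_mul, one_mul, hnP, if_neg (by omega), add_zero, mul_sub, mul_one, hPnb, hn']
    · intro j hj hjb
      change (1 + n) * P j * (1 - n) = P j
      rw [add_mul, one_mul, hnP, if_neg hj, add_zero, mul_sub, mul_one, hPn0 _ hjb, sub_zero]

end weil

end Pool.Agent.H92.ZO
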