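import Pool.Agent.H92.ZO.Blow

/-!
# One cycle class decides the independence of `F^0`: self-dual decompositions of products
-/

open CategoryTheory AlgebraicGeometry

universe u v w

namespace Pool.Agent.H92.ZO

open Pool.Agent.H914 Pool.Agent.H914.VarClass Pool.Agent.H914.VarClass.Obj Pool.Agent.W492.BB
  Pool.Agent.W550.Corr Pool.Agent.TH133

set_option linter.unusedSectionVars false

variable {k : Type u} [Field k] {𝒱 : VarClass k}

section weil

variable {C : TheoryData.{u, v, 0} 𝒱 ℚ} [hC : IsChowProj C] {K : Type w} [Field K]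
  {H : WeilTheoryData.{u, v, w} C K} [hH : IsWeilProj H] {X Y Z V P : 𝒱.Obj}

include hC hH

/-- The product with a variety with a hyperbolic decomposition of the diagonal has a self-dual
decomposition which contains the given decomposition (library theorem `exists_selfDual_prod`, with
an explicit description of a part of the decomposition). -/
theorem selfDual_prod {M : ℕ} {r : Fin M → ℕ} {a b : Fin M → C.A P}
    (hab : ∀ s, r s ≤ P.dim ∧ C.Deg (r s) (a s) ∧ C.Deg ((P.dim : ℤ) - r s) (b s))
    (hab1 : ∀ s t, HasDegree C (a s * b t) (if s = t then 1 else 0))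
    (haa : ∀ s t, HasDegree C (a s * a t) 0) (hbb : ∀ s t, HasDegree C (b s * b t) 0)
    (hdg : dg C P = ∑ s, (C.ext (a s) (b s) + C.ext (b s) (a s)))
    {p : ℕ → C.A (X.prod X)} (hp : IsCK H X p) :
    ∃ π, (IsCK H (X.prod P) π ∧ IsSelfDual C π) ∧ ∀ (s : Fin M) (j : ℕ) (z : C.A X),
      C.act (p j) z = z → C.act (π (j + 2 * r s)) (C.ext z (a s)) = C.ext z (a s) := by
  set e := P.dim with he
  have hp' := hp.dual
  set p' := dualCK C p with hp'def
  have hEE : ∀ s t, C.comp (C.ext (b s) (a s)) (C.ext (b t) (a t)) =
      if s = t then C.ext (b s) (a s) else 0 := by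
    intro s t
    rw [comp_ext_ext (hab1 s t)]
    split_ifs with h
    · rw [one_smul, h]
    · rw [zero_smul]
  have hFF : ∀ s t, C.comp (C.ext (a s) (b s)) (C.ext (a t) (b t)) =
      if s = t then C.ext (a s) (b s) else 0 := by
    intro s t
    have h1 : HasDegree C (b s * a t) (if t = s then 1 else 0) := by
      rw [ch_comm C]; exact hab1 t s
    rw [comp_ext_ext h1]
    by_cases h : s = t
    · rw [if_pos h.symm, if_pos h, one_smul, h]
    · rw [if_neg (Ne.symm h), if_neg h, zero_smul]
  have hEF : ∀ s t, C.comp (C.ext (b s) (a s)) (C.ext (a t) (b t)) = 0 := by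
    intro s t
    rw [comp_ext_ext (haa s t), zero_smul]
  have hFE : ∀ s t, C.comp (C.ext (a s) (b s)) (C.ext (b t) (a t)) = 0 := by
    intro s t
    rw [comp_ext_ext (hbb s t), zero_smul]
  let A : Fin M → ℕ → C.A ((X.prod P).prod (X.prod P)) := fun s n =>
    tens C (sh p (2 * r s) n) (C.ext (b s) (a s))
  let B : Fin M → ℕ → C.A ((X.prod P).prod (X.prod P)) := fun s n =>
    tens C (sh p' (2 * e - 2 * r s) n) (C.ext (a s) (b s))
  have hAA : ∀ s t m n, C.comp (A s m) (A t n) = if s = t ∧ m = n then A s m else 0 := by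
    intro s t m n
    simp only [A]
    rw [tens_mul, hEE]
    by_cases hst : s = t
    · subst hst
      rw [if_pos rfl, sh_comp hp]
      by_cases hmn : m = n
      · rw [if_pos hmn, if_pos ⟨rfl, hmn⟩]
      · rw [if_neg hmn, if_neg (fun h => hmn h.2), tens_zero_left]
    · rw [if_neg hst, if_neg (fun h => hst h.1), tens_zero_right]
  have hBB : ∀ s t m n, C.comp (B s m) (B t n) = if s = t ∧ m = n then B s m else 0 := by
    intro s t m n
    simp only [B]
    rw [tens_mul, hFF]
    by_cases hst : s = t
    · subst hst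
      rw [if_pos rfl, sh_comp hp']
      by_cases hmn : m = n
      · rw [if_pos hmn, if_pos ⟨rfl, hmn⟩]
      · rw [if_neg hmn, if_neg (fun h => hmn h.2), tens_zero_left]
    · rw [if_neg hst, if_neg (fun h => hst h.1), tens_zero_right]
  have hAB : ∀ s t m n, C.comp (A s m) (B t n) = 0 := by
    intro s t m n
    simp only [A, B]
    rw [tens_mul, hEF, tens_zero_right]
  have hBA : ∀ s t m n, C.comp (B s m) (A t n) = 0 := by
    intro s t m n
    simp only [A, B]
    rw [tens_mul, hFE, tens_zero_right]
  let Q : ℕ → C.A ((X.prod P).prod (X.prod P)) := fun n => ∑ s, (A s n + B s n)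
  have hQQ : ∀ m n, C.comp (Q m) (Q n) = if m = n then Q m else 0 := by
    intro m n
    simp only [Q]
    rw [comp_sum]
    simp_rw [sum_comp, comp_add, add_comp, hAA, hBB, hAB, hBA, add_zero, zero_add]
    split_ifs with hmn
    · apply Finset.sum_congr rfl
      intro s _
      rw [Finset.sum_eq_single s]
      · rw [if_pos ⟨rfl, hmn⟩, if_pos ⟨rfl, hmn⟩]
      · intro t _ hts
        rw [if_neg (fun h => hts h.1), if_neg (fun h => hts h.1), add_zero]
      · intro h
        exact absurd (Finset.mem_univ s) h
    · apply Finset.sum_eq_zero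
      intro s _
      apply Finset.sum_eq_zero
      intro t _
      rw [if_neg (fun h => hmn h.2), if_neg (fun h => hmn h.2), add_zero]
  have hdimr : ∀ s, 2 * r s ≤ 2 * e := fun s => by have := (hab s).1; omega
  have hact : ∀ (n : ℕ) (m : ℤ), ∀ c ∈ H.gr (X.prod P) m,
      H.act (H.cl (Q n)) c = if m = n then c else 0 := by
    intro n m c hc
    have h1 := H.kunneth X P m hc
    clear hc
    induction h1 using Submodule.span_induction with
    | mem z hz =>
      obtain ⟨l, x, y, hx, hy, rfl⟩ := hz
      have e0 : H.pull (fst X P) x * H.pull (snd X P) y = H.ext x y := rfl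
      rw [e0]
      simp only [Q, A, B]
      rw [map_sum, act_sum]
      simp_rw [map_add, TheoryData.act_add, actH_tens_ext, sh_act hp _ _ _ hx,
        sh_act hp' _ _ _ hx]
      -- the components of `y`
      have hy1 : ∀ s, m - l ≠ 2 * r s → H.act (H.cl (C.ext (b s) (a s))) y = 0 := fun s hs =>
        act_ext_ne (hab s).2.1 (hab s).2.2 hs hy
      have hy2 : ∀ s, m - l ≠ ((2 * e - 2 * r s : ℕ) : ℤ) →
          H.act (H.cl (C.ext (a s) (b s))) y = 0 := fun s hs => by
        have hr := (hab s).1
        have hb' : b s ∈ C.gr P ((e - r s : ℕ) : ℤ) := by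
          rw [Nat.cast_sub hr]; exact (hab s).2.2
        have ha' : a s ∈ C.gr P ((P.dim : ℤ) - ((e - r s : ℕ) : ℤ)) := by
          rw [Nat.cast_sub hr, ← he, sub_sub_cancel]; exact (hab s).2.1
        exact act_ext_ne hb' ha' (by omega) hy
      have hysum : ∑ s, (H.act (H.cl (C.ext (b s) (a s))) y +
          H.act (H.cl (C.ext (a s) (b s))) y) = y := by
        have h2 : H.act (H.cl (dg C P)) y = y := actH_dg H y
        rw [hdg, map_sum, act_sum] at h2
        simp_rw [map_add, TheoryData.act_add] at h2
        conv_rhs => rw [← h2]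
        exact Finset.sum_congr rfl fun s _ => add_comm _ _
      have hextsum : H.ext x y = ∑ s, (H.ext x (H.act (H.cl (C.ext (b s) (a s))) y) +
          H.ext x (H.act (H.cl (C.ext (a s) (b s))) y)) := by
        conv_lhs => rw [← hysum]
        simp only [TheoryData.ext, map_sum, map_add, Finset.mul_sum, mul_add]
      by_cases hmn : m = n
      · rw [if_pos hmn]
        conv_rhs => rw [hextsum]
        apply Finset.sum_congr rfl
        intro s _
        congr 1
        · by_cases hs : m - l = 2 * r s
          · rw [if_pos (by push_cast; omega)]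
          · rw [hy1 s hs, TheoryData.ext_zero_right, TheoryData.ext_zero_right]
        · by_cases hs : m - l = ((2 * e - 2 * r s : ℕ) : ℤ)
          · rw [if_pos (by omega)]
          · rw [hy2 s hs, TheoryData.ext_zero_right, TheoryData.ext_zero_right]
      · rw [if_neg hmn]
        apply Finset.sum_eq_zero
        intro s _
        have e1 : H.ext (if l + ((2 * r s : ℕ) : ℤ) = n then x else 0)
            (H.act (H.cl (C.ext (b s) (a s))) y) = 0 := by
          by_cases hs : m - l = 2 * r s
          · rw [if_neg (by push_cast; omega), TheoryData.ext_zero_left]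
          · rw [hy1 s hs, TheoryData.ext_zero_right]
        have e2 : H.ext (if l + ((2 * e - 2 * r s : ℕ) : ℤ) = n then x else 0)
            (H.act (H.cl (C.ext (a s) (b s))) y) = 0 := by
          by_cases hs : m - l = ((2 * e - 2 * r s : ℕ) : ℤ)
          · rw [if_neg (by omega), TheoryData.ext_zero_left]
          · rw [hy2 s hs, TheoryData.ext_zero_right]
        rw [e1, e2, add_zero]
    | zero =>
      rw [TheoryData.act_map_zero]
      split_ifs <;> rfl
    | add x y _ _ hx hy =>
      rw [act_map_add, hx, hy]
      split_ifs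
      · rfl
      · exact add_zero 0
    | smul r x _ hx =>
      rw [act_map_smul, hx]
      split_ifs
      · rfl
      · exact smul_zero r
  have hraise : ∀ (s : Fin M) (j : ℕ) (z : C.A X), C.act (p j) z = z →
      C.act (Q (j + 2 * r s)) (C.ext z (a s)) = C.ext z (a s) := by
    intro s j z hz
    simp only [Q, A, B]
    rw [act_sum, Finset.sum_eq_single s]
    · rw [TheoryData.act_add, act_tens_ext C _ _ (fun f c => ch_comm C _ _),
        act_tens_ext C _ _ (fun f c => ch_comm C _ _)]
      have h1 : C.act (C.ext (b s) (a s)) (a s) = a s := by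
        have h2 : HasDegree C (b s * a s) 1 := by
          rw [ch_comm C]
          have := hab1 s s
          rwa [if_pos rfl] at this
        rw [act_ext' h2, one_smul]
      have h2 : C.act (C.ext (a s) (b s)) (a s) = 0 := by
        rw [act_ext' (haa s s), zero_smul]
      have h3 : sh p (2 * r s) (j + 2 * r s) = p j := by
        unfold sh
        rw [if_pos (by omega), Nat.add_sub_cancel]
      rw [h1, h2, h3, hz]
      have h4 : ∀ y : C.A X, C.ext y (0 : C.A P) = 0 := fun y => ext_zero y
      rw [h4, add_zero]
    · intro t _ hts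
      rw [TheoryData.act_add, act_tens_ext C _ _ (fun f c => ch_comm C _ _),
        act_tens_ext C _ _ (fun f c => ch_comm C _ _)]
      have h1 : C.act (C.ext (b t) (a t)) (a s) = 0 := by
        have h2 : HasDegree C (b t * a s) 0 := by
          rw [ch_comm C]
          have := hab1 s t
          rwa [if_neg (Ne.symm hts)] at this
        rw [act_ext' h2, zero_smul]
      have h2 : C.act (C.ext (a t) (b t)) (a s) = 0 := by
        rw [act_ext' (haa t s), zero_smul]
      have h4 : ∀ y : C.A X, C.ext y (0 : C.A P) = 0 := fun y => ext_zero y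
      rw [h1, h2, h4, h4, add_zero]
    · intro h
      exact absurd (Finset.mem_univ s) h
  refine ⟨Q, ⟨⟨fun n => ?_, fun n hn => ?_, fun n => ?_, fun m n hmn => ?_, ?_, fun n c hc => ?_,
    fun n m c hm hc => ?_⟩, fun n hn => ?_⟩, hraise⟩
  · simp only [Q, A, B]
    apply Submodule.sum_mem
    intro s _
    have e1 : (((X.prod P).dim : ℕ) : ℤ) = X.dim + (((P.dim : ℤ) - r s) + r s) := by
      rw [dim_prod]; push_cast; ring
    have e2 : (((X.prod P).dim : ℕ) : ℤ) = X.dim + ((r s : ℤ) + ((P.dim : ℤ) - r s)) := by
      rw [dim_prod]; push_cast; ring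
    apply Submodule.add_mem
    · have := tens_mem C (sh_mem hp (2 * r s) n) (ext_mem' (hab s).2.2 (hab s).2.1)
      change _ ∈ C.gr _ (((X.prod P).dim : ℕ) : ℤ)
      rw [e1]
      exact this
    · have := tens_mem C (sh_mem hp' (2 * e - 2 * r s) n) (ext_mem' (hab s).2.1 (hab s).2.2)
      change _ ∈ C.gr _ (((X.prod P).dim : ℕ) : ℤ)
      rw [e2]
      exact this
  · simp only [Q, A, B]
    rw [dim_prod] at hn
    apply Finset.sum_eq_zero
    intro s _
    have hs := hdimr s
    rw [sh_out hp _ _ (by omega), sh_out hp' _ _ (by omega), tens_zero_left, tens_zero_left,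
      add_zero]
  · rw [hQQ, if_pos rfl]
  · rw [hQQ, if_neg hmn]
  · simp only [Q, A, B]
    rw [Finset.sum_comm, ← tens_dg C, hdg, tens_sum_right]
    apply Finset.sum_congr rfl
    intro s _
    have hs := hdimr s
    rw [Finset.sum_add_distrib, ← tens_sum_left, ← tens_sum_left,
      sh_sum hp _ _ (by rw [dim_prod]; omega), sh_sum hp' _ _ (by rw [dim_prod]; omega),
      tens_add_right, add_comm]
  · rw [hact _ _ _ hc, if_pos rfl]
  · rw [hact _ _ _ hc, if_neg hm]
  · simp only [Q, A, B]
    rw [dim_prod] at hn ⊢
    rw [tp_sum]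
    apply Finset.sum_congr rfl
    intro s _
    have hs := hdimr s
    rw [tp_add, tp_tens, tp_tens, tp_ext, tp_ext, sh_tp hp _ e _ hs hn,
      sh_tp hp' _ e _ (by omega) hn, dualCK_dualCK hp, add_comm]
    congr 3
    omega

end weil

end Pool.Agent.H92.ZO
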