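import Pool.Agent.H92.ZO.Main2
import Pool.Agent.H92.ZO.DefsN

/-!
# The step `F^s` for any `s ≥ 1`
-/

open CategoryTheory AlgebraicGeometry

universe u v w

namespace Pool.Agent.H92.ZO

open Pool.Agent.H914 Pool.Agent.H914.VarClass Pool.Agent.H914.VarClass.Obj Pool.Agent.W492.BB
  Pool.Agent.W550.Corr Pool.Agent.TH133

set_option linter.unusedSectionVars false

variable {k : Type u} [Field k] {𝒱 : VarClass k}

section weil

variable {C : TheoryData.{u, v, 0} 𝒱 ℚ} [hC : IsChowProj C] {K : Type w} [Field K]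
  {H : WeilTheoryData.{u, v, w} C K} [hH : IsWeilProj H] {X Y Z V W T P : 𝒱.Obj}

include hC hH

/-- The product decomposition in terms of the members of the decomposition of the second factor. -/
lemma prodCK_eq {ρ : ℕ → C.A (X.prod X)} {τ : ℕ → C.A (Y.prod Y)} (hτ : IsCK H Y τ) (n : ℕ) :
    prodCK C ρ τ n = ∑ j ∈ Finset.range (2 * Y.dim + 1), tens C (sh ρ j n) (τ j) := by
  have h3 : ∀ j, 2 * Y.dim + 1 ≤ j → τ j = 0 := fun j hj => hτ.out j (by omega)
  have e1 : prodCK C ρ τ n = ∑ j ∈ Finset.range (n + 1), tens C (sh ρ j n) (τ j) := by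
    unfold prodCK
    rw [← Finset.sum_range_reflect]
    apply Finset.sum_congr rfl
    intro j hj
    rw [Finset.mem_range] at hj
    have a1 : n + 1 - 1 - j = n - j := by omega
    have a2 : n - (n - j) = j := by omega
    rw [a1, a2]
    unfold sh
    rw [if_pos (by omega)]
  have e2 : ∀ N M : ℕ, N ≤ M → (∀ j, N ≤ j → tens C (sh ρ j n) (τ j) = 0) →
      ∑ j ∈ Finset.range N, tens C (sh ρ j n) (τ j) =
        ∑ j ∈ Finset.range M, tens C (sh ρ j n) (τ j) := by
    intro N M hNM h0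
    apply Finset.sum_subset
    · intro j hj
      rw [Finset.mem_range] at *
      omega
    · intro j _ hj
      rw [Finset.mem_range] at hj
      exact h0 j (by omega)
  rw [e1]
  have hA : ∀ j, n + 1 ≤ j → tens C (sh ρ j n) (τ j) = 0 := by
    intro j hj
    unfold sh
    rw [if_neg (by omega), tens_zero_left]
  have hB : ∀ j, 2 * Y.dim + 1 ≤ j → tens C (sh ρ j n) (τ j) = 0 := by
    intro j hj
    rw [h3 j hj, tens_zero_right]
  rw [e2 (n + 1) (max (n + 1) (2 * Y.dim + 1)) (le_max_left _ _) hA,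
    e2 (2 * Y.dim + 1) (max (n + 1) (2 * Y.dim + 1)) (le_max_right _ _) hB]

/-- The product of self-dual decompositions is self-dual. -/
lemma prodCK_sd {ρ : ℕ → C.A (X.prod X)} {τ : ℕ → C.A (Y.prod Y)}
    (hρ : IsCK H X ρ) (hρs : IsSelfDual C ρ) (hτ : IsCK H Y τ) (hτs : IsSelfDual C τ) :
    IsSelfDual C (prodCK C ρ τ) := by
  have hd : dualCK C ρ = ρ := by
    funext i
    unfold dualCK
    split_ifs with h1
    · rw [hρs _ (by omega)]
      congr 1
      omega
    · exact (hρ.out i (by omega)).symm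
  intro n hn
  have hn' : n ≤ 2 * (X.dim + Y.dim) := by rw [dim_prod] at hn; exact hn
  rw [prodCK_eq hτ, prodCK_eq hτ, tp_sum]
  simp_rw [tp_tens]
  rw [← Finset.sum_range_reflect]
  apply Finset.sum_congr rfl
  intro j hj
  rw [Finset.mem_range] at hj
  have a1 : 2 * Y.dim + 1 - 1 - j = 2 * Y.dim - j := by omega
  have a2 : 2 * Y.dim - (2 * Y.dim - j) = j := by omega
  rw [a1, sh_tp hρ (2 * Y.dim - j) Y.dim n (by omega) hn', hd, hτs _ (by omega), a2, dim_prod]

/-- The action of the product decomposition on `x × y`. -/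
lemma prodCK_ext_s {ρ : ℕ → C.A (X.prod X)} {τ : ℕ → C.A (Y.prod Y)} {y : C.A Y} {s : ℕ}
    (hy : ∀ j, C.act (τ j) y = if j = s then y else 0) (x : C.A X) (b : ℕ) :
    C.act (prodCK C ρ τ (b + s)) (C.ext x y) = C.ext (C.act (ρ b) x) y := by
  unfold prodCK
  rw [act_sum, Finset.sum_eq_single b]
  · rw [act_tens_ext', hy, if_pos (by omega)]
  · intro i _ hi
    rw [act_tens_ext', hy]
    by_cases h1 : b + s - i = s
    · by_cases h2 : i ≤ b + s
      · exfalso
        apply hi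
        omega
      · have h3 : s = 0 := by omega
        rename_i hmem
        rw [Finset.mem_range] at hmem
        omega
    · rw [if_neg h1, TheoryData.ext_zero_right]
  · intro h
    exfalso
    apply h
    rw [Finset.mem_range]
    omega

omit hH in
/-- Products of curves have self-dual decompositions for which `c_1 × ⋯ × c_s` has weight `s`. -/
theorem exists_SD_of_curveCycle (H : WeilTheoryData.{u, v, w} C K) [hH : IsWeilProj H] {s : ℕ}
    {𝒯 : 𝒱.Obj → Prop} {Y : 𝒱.Obj} {y : C.A Y} (h : ProductCycle C 𝒯 s Y y) : Y.dim = s ∧ y ∈ C.gr Y s ∧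
      ∃ τ : ℕ → C.A (Y.prod Y), IsCK H Y τ ∧ IsSelfDual C τ ∧
        ∀ j, C.act (τ j) y = if j = s then y else 0 := by
  induction h with
  | one T c _ hT hc hd =>
    obtain ⟨e, τ, _, _, hτ, hτs, _, h1⟩ := exists_SD_curve (C := C) H T hT
    exact ⟨hT, by exact_mod_cast hc, τ, hτ, hτs, h1 c hc hd⟩
  | cons s T Y c y _ hT hc hd hy ih =>
    obtain ⟨ihd, ihm, ρ, hρ, hρs, h2⟩ := ih
    obtain ⟨e, τ, _, _, hτ, hτs, _, h1⟩ := exists_SD_curve (C := C) H T hT
    refine ⟨by rw [dim_prod, hT, ihd, add_comm], ?_, prodCK C τ ρ, hτ.prod hρ,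
      prodCK_sd hτ hτs hρ hρs, fun j => ?_⟩
    · have := ext_mem' hc ihm
      push_cast
      rwa [add_comm]
    · unfold prodCK
      rw [act_sum]
      simp_rw [act_tens_ext', h1 c hc hd, h2]
      by_cases hj : j = s + 1
      · subst hj
        rw [if_pos rfl, Finset.sum_eq_single 1]
        · rw [if_pos rfl, if_pos (by omega)]
        · intro i _ hi
          rw [if_neg hi, TheoryData.ext_zero_left]
        · intro h
          exfalso; apply h; rw [Finset.mem_range]; omega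
      · rw [if_neg hj]
        apply Finset.sum_eq_zero
        intro i hi
        rw [Finset.mem_range] at hi
        by_cases hi1 : i = 1
        · subst hi1
          rw [if_neg (c := j - 1 = s) (by omega), TheoryData.ext_zero_right]
        · rw [if_neg hi1, TheoryData.ext_zero_left]

/-- Membership of `x × y` in `F^s` of a product decomposition. -/
lemma mem_prod_s {ρ : ℕ → C.A (W.prod W)} {τ : ℕ → C.A (Y.prod Y)} (hρ : IsCK H W ρ)
    (hτ : IsCK H Y τ) {m s : ℕ} {x : C.A W} {y : C.A Y} (hx : x ∈ C.gr W m) (hym : y ∈ C.gr Y s)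
    (hy : ∀ j, C.act (τ j) y = if j = s then y else 0) :
    C.ext x y ∈ ckFil C (prodCK C ρ τ) (m + s) s ↔
      ∀ b, 2 * m < b → C.ext (C.act (ρ b) x) y = 0 := by
  rw [(hρ.prod hτ).mem_ckFil]
  constructor
  · rintro ⟨_, h⟩ b hb
    rw [← prodCK_ext_s (H := H) hy]
    exact h (b + s) (by omega)
  · intro h
    refine ⟨?_, fun j hj => ?_⟩
    · have := ext_mem (C := C) (H := H) hx hym
      exact_mod_cast this
    · obtain ⟨b, rfl⟩ : ∃ b, j = b + s := ⟨j - s, by omega⟩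
      rw [prodCK_ext_s (H := H) hy]
      exact h b (by omega)

/-- The one-class test for `F^s`. -/
lemma ext_zero_of_mem_s {s : ℕ} {τ : ℕ → C.A (Y.prod Y)} (hτ : IsCK H Y τ)
    (hτs : IsSelfDual C τ) {y : C.A Y} (hym : y ∈ C.gr Y s)
    (hy : ∀ j, C.act (τ j) y = if j = s then y else 0) {m : ℕ} {t : C.A W}
    (ht : NumNontrivial H m t) (h : ∀ P, IsSelfDualCK H (W.prod Y) P →
      C.ext t y ∈ ckFil C P (m + s) s) {σ : ℕ → C.A (W.prod W)} (hσ : IsSelfDualCK H W σ) {j : ℕ}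
    (hj : 2 * m < j) {β : C.A W} (hβ : β ∈ C.gr W m) (hβj : C.act (σ j) β = β) :
    C.ext β y = 0 := by
  obtain ⟨v, hv, hd⟩ := ht.normal
  obtain ⟨ρ, ⟨hρ, hρs⟩, hact⟩ := eichler_act hσ.1 hσ.2 hv hβ
  have h1 := h _ ⟨hσ.1.prod hτ, prodCK_sd hσ.1 hσ.2 hτ hτs⟩
  have h2 := h _ ⟨hρ.prod hτ, prodCK_sd hρ hρs hτ hτs⟩
  rw [mem_prod_s hσ.1 hτ ht.1 hym hy] at h1
  rw [mem_prod_s hρ hτ ht.1 hym hy] at h2
  have h3 := h1 j hj
  have h4 := h2 j hj
  rw [hact t 1 ht.1 hd j hj, one_smul, hβj, ext_sub_left, h3, zero_sub, neg_eq_zero] at h4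
  exact h4

/-- The finiteness test for `F^s`. -/
lemma ext_zero_of_finite_s {s : ℕ} {τ : ℕ → C.A (Y.prod Y)} (hτ : IsCK H Y τ)
    (hτs : IsSelfDual C τ) {c : C.A Y} (hcm : c ∈ C.gr Y s)
    (hc : ∀ j, C.act (τ j) c = if j = s then c else 0) {m : ℕ} {t : C.A W}
    (ht : NumNontrivial H m t) (h : (selfDualSteps H (W.prod Y) (m + s) s).Finite)
    {σ : ℕ → C.A (W.prod W)} (hσ : IsSelfDualCK H W σ) {j : ℕ}
    (hj : 2 * m < j) {β : C.A W} (hβ : β ∈ C.gr W m) (hβj : C.act (σ j) β = β) :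
    C.ext β c = 0 := by
  obtain ⟨v, hv, hd⟩ := ht.normal
  have hex : ∀ l : ℕ, ∃ ρ, (IsCK H W ρ ∧ IsSelfDual C ρ) ∧
      (∀ (x : C.A W) (q : ℚ), x ∈ C.gr W m → HasDegree C (v * x) q → ∀ b, 2 * m < b →
        C.act (ρ b) x = C.act (σ b) x - q • C.act (σ b) ((l : ℚ) • β)) := fun l =>
    eichler_act hσ.1 hσ.2 hv (Submodule.smul_mem _ _ hβ)
  choose ρ hρ hact using hex
  set x0 := C.act (σ (2 * m)) t with hx0
  have hx0m : x0 ∈ C.gr W m := act_mem0 C (hσ.1.deg _) ht.1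
  have hx0b : ∀ b, 2 * m < b → C.act (σ b) x0 = 0 := by
    intro b hb
    rw [hx0, ← C.act_comp, hσ.1.comp_eq, if_neg (by omega), TheoryData.act_zero]
  have hx0d : HasDegree C (v * x0) 1 := by
    have h3 : v * x0 = v * t + v * (x0 - t) := by rw [mul_sub]; abel
    rw [h3, ← add_zero (1 : ℚ)]
    refine hasDegree_add hd (hasDegree_mul_hom (H := H) hv (Submodule.sub_mem _ hx0m ht.1) ?_)
    rw [map_sub, hx0, cl_act H]
    have h4 := hσ.1.act_self (2 * m) (H.cl t) (by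
      have := H.cl_mem ht.1
      exact_mod_cast this)
    rw [h4, sub_self]
  have hβh : H.cl β = 0 := by
    rw [← hβj, cl_act H]
    exact hσ.1.act_ne j (2 * m) _ (by omega) (H.cl_mem hβ)
  let y : ℕ → C.A W := fun l => x0 + (l : ℚ) • β
  have hym : ∀ l, y l ∈ C.gr W m := fun l => Submodule.add_mem _ hx0m (Submodule.smul_mem _ _ hβ)
  have hyd : ∀ l, HasDegree C (v * y l) 1 := by
    intro l
    have h3 := hasDegree_add hx0d (hasDegree_smul (hasDegree_mul_hom (H := H) hv hβ hβh) (l : ℚ))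
    rw [mul_zero, add_zero] at h3
    change HasDegree C (v * (x0 + (l : ℚ) • β)) 1
    rwa [mul_add, mul_smul_comm]
  let F : ℕ → Submodule ℚ (C.A (W.prod Y)) := fun l => ckFil C (prodCK C (ρ l) τ) (m + s) s
  by_contra hne
  have hinj : Function.Injective F := by
    intro a b hab
    have h1 : C.ext (y a) c ∈ F a := by
      rw [mem_prod_s (hρ a).1 hτ (hym a) hcm hc]
      intro b' hb'
      rw [hact a (y a) 1 (hym a) (hyd a) b' hb', one_smul]
      change C.ext (C.act (σ b') (x0 + (a : ℚ) • β) - _) c = 0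
      rw [act_map_add, hx0b b' hb', zero_add, sub_self, TheoryData.ext_zero_left]
    have h2 : C.ext (y a) c ∈ F b := by rw [← hab]; exact h1
    rw [mem_prod_s (hρ b).1 hτ (hym a) hcm hc] at h2
    have h3 := h2 j hj
    rw [hact b (y a) 1 (hym a) (hyd a) j hj, one_smul] at h3
    have h4 : C.act (σ j) (y a) - C.act (σ j) ((b : ℚ) • β) = ((a : ℚ) - b) • β := by
      change C.act (σ j) (x0 + (a : ℚ) • β) - _ = _
      rw [act_map_add, hx0b j hj, zero_add, act_map_smul, act_map_smul, hβj, sub_smul]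
    rw [h4, ext_smul_left] at h3
    rcases smul_eq_zero.1 h3 with h5 | h5
    · exact_mod_cast sub_eq_zero.1 h5
    · exact absurd h5 hne
  refine (Set.infinite_range_of_injective hinj) (h.subset ?_)
  rintro _ ⟨l, rfl⟩
  exact ⟨_, ⟨(hρ l).1.prod hτ, prodCK_sd (hρ l).1 (hρ l).2 hτ hτs⟩, rfl⟩

omit hC hH in
/-- The vanishing of the external products of all classes of too large weight with the classes
`c_1 × ⋯ × c_s`. -/
def ExcessZeroN (H : WeilTheoryData.{u, v, w} C K) (𝒯 : 𝒱.Obj → Prop) (s : ℕ) : Prop :=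
  ∀ (X : 𝒱.Obj) (π : ℕ → C.A (X.prod X)), IsCK H X π → ∀ (i b : ℕ) (z : C.A X),
      z ∈ C.gr X i → 2 * i < b → C.act (π b) z = z → ∀ (Y : 𝒱.Obj) (y : C.A Y),
      ProductCycle C 𝒯 s Y y → C.ext z y = 0

/-- The vanishing of these products implies that the powers of algebraic equivalence are in
`F^s`. -/
theorem powers_of_excessZero {𝒯 : 𝒱.Obj → Prop} {s : ℕ} (hZ : ExcessZeroN H 𝒯 s) :
    PowersInSteps H 𝒯 s := by
  intro X π hπ i Y y Γ hy hΓ
  obtain ⟨hYd, hym, τ, hτ, hτs, hτy⟩ := exists_SD_of_curveCycle (C := C) H hy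
  have hidem : C.comp (τ s) (τ s) = τ s := hτ.idem s
  have hpm : τ s ∈ C.gr (Y.prod Y) Y.dim := hτ.deg s
  have htp : ∀ j ≤ 2 * s, tp C (τ j) = τ (2 * s - j) := fun j hj => by
    have := hτs j (by rw [hYd]; omega)
    rwa [hYd] at this
  have tpp : tp C (τ s) = τ s := by
    rw [htp s (by omega)]
    congr 1
    omega
  have hy1 : C.act (τ s) y = y := by
    have := hτy s
    rwa [if_pos rfl] at this
  have hΓm : Γ ∈ C.gr (Y.prod X) (Y.dim + ((i : ℤ) - s)) := by
    rw [hYd, add_sub_cancel]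
    exact hΓ
  rw [hπ.mem_ckFil]
  refine ⟨?_, fun b hb => ?_⟩
  · have h1 := act_mem' C hΓm hym
    rwa [add_sub_cancel] at h1
  · set n := C.comp (C.comp (τ s) Γ) (π b) with hn
    have hnm : n ∈ C.gr (Y.prod X) i := by
      have a2 := comp_mem C (e := 0) (e' := (i : ℤ) - s) (Γ := τ s) (Δ := Γ)
        (by rw [add_zero]; exact hpm) hΓm
      have a3 := comp_mem C (e := 0 + ((i : ℤ) - s)) (e' := 0) (Γ := C.comp (τ s) Γ)
        (Δ := π b) a2 (by rw [add_zero]; exact hπ.deg b)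
      have e1 : (Y.dim : ℤ) + (0 + ((i : ℤ) - s) + 0) = i := by rw [hYd]; ring
      rwa [e1] at a3
    have hnb : C.act (prodCK C τ π (s + b)) n = n := by
      unfold prodCK
      rw [act_sum, Finset.sum_eq_single s]
      · rw [act_tens C (ch_comm C), tpp, Nat.add_sub_cancel_left, hn]
        rw [← comp_assoc C (τ s) (C.comp (τ s) Γ) (π b), ← comp_assoc C (τ s) (τ s),
          hidem, comp_assoc C (C.comp (τ s) Γ) (π b) (π b), hπ.idem]
      · intro j _ hj
        by_cases hj2 : j ≤ 2 * s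
        · rw [act_tens C (ch_comm C), htp j hj2, hn,
            ← comp_assoc C (τ (2 * s - j)) (C.comp (τ s) Γ) (π b),
            ← comp_assoc C (τ (2 * s - j)) (τ s), hτ.orth _ _ (by omega), zero_comp, zero_comp,
            zero_comp]
        · rw [hτ.out j (by omega), tens_zero_left, C.act_zero]
      · intro h
        exfalso
        apply h
        rw [Finset.mem_range]
        omega
    have h3 := hZ (Y.prod X) (prodCK C τ π) (hτ.prod hπ) i (s + b) n hnm (by omega) hnb Y y hy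
    have h4 : C.act n y = 0 := by
      rw [act_eq_ext, h3, map_zero, map_zero]
    rw [hn, C.act_comp, C.act_comp, hy1] at h4
    exact h4

/-- If the powers are in `F^s` then so are the classes `t × y`. -/
theorem mem_of_powers {𝒯 : 𝒱.Obj → Prop} {s : ℕ} (h : PowersInSteps H 𝒯 s) {m : ℕ} {t : C.A V}
    (ht : t ∈ C.gr V m) {y : C.A Y} (hy : ProductCycle C 𝒯 s Y y)
    {π : ℕ → C.A ((V.prod Y).prod (V.prod Y))} (hπ : IsCK H (V.prod Y) π) :
    C.ext t y ∈ ckFil C π (m + s) s := by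
  obtain ⟨hYd, hym, _⟩ := exists_SD_of_curveCycle (C := C) H hy
  have h1 := h _ π hπ (m + s) Y y (tp C (zp C t (dg C Y))) hy ?_
  · rwa [act_tp, zp_apply, tp_dg, act_dg] at h1
  · apply tp_mem
    have h2 := C.pull_mem (aI V Y Y) (ext_mem' ht (dg_mem C Y))
    rw [hYd] at h2
    exact_mod_cast h2

/-- The tests imply the vanishing of the external products. -/
theorem excessZeroN_of_tests {𝒯 : 𝒱.Obj → Prop} {s : ℕ} {Rat : 𝒱.Obj → Prop} {P : 𝒱.Obj}
    (hR : IsRationalClass C Rat P) (t : ∀ V : 𝒱.Obj, C.A V)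
    (ht : ∀ V m, Rat V → V.dim = 2 * m → NumNontrivial H m (t V))
    (h : Infinitely fun m => ∀ V, Rat V → V.dim = 2 * m → ∀ (Y : 𝒱.Obj) (y : C.A Y),
      ProductCycle C 𝒯 s Y y → (∀ P, IsSelfDualCK H (V.prod Y) P →
        C.ext (t V) y ∈ ckFil C P (m + s) s) ∨
      (selfDualSteps H (V.prod Y) (m + s) s).Finite) : ExcessZeroN H 𝒯 s := by
  intro X π hπ i b z hz hb hzb Y y hy
  obtain ⟨hYd, hym, τ, hτ, hτs, hτy⟩ := exists_SD_of_curveCycle (C := C) H hy
  obtain ⟨m, V, b', β, l, l', σ, j', hm, hVP, hdim, hσ, hβm, hj', hβj, hll, rfl⟩ :=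
    raise hR h hπ hz hb hzb
  have h1 : C.ext (C.ext β l) y = 0 := by
    rcases hm _ hVP hdim Y y hy with h1 | h1
    · exact ext_zero_of_mem_s hτ hτs hym hτy (ht _ m hVP hdim) h1 hσ hj' hβm hβj
    · exact ext_zero_of_finite_s hτ hτs hym hτy (ht _ m hVP hdim) h1 hσ hj' hβm hβj
  have h2 := ext_zero_cancel hll h1
  have h3 := act_tens_ext C b' (dg C Y) (fun f c => ch_comm C _ _) β y
  rw [h2, C.act_map_zero, act_dg] at h3
  exact h3.symm

omit hH in
/-- Nonzero products with classes `c_1 × ⋯ × c_s`. -/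
theorem exists_curveCycle {𝒯 : 𝒱.Obj → Prop} (hS : NonzeroProducts C 𝒯) (s : ℕ) :
    ∀ (X : 𝒱.Obj) (z : C.A X), z ≠ 0 →
    ∃ (Y : 𝒱.Obj) (y : C.A Y), ProductCycle C 𝒯 (s + 1) Y y ∧ C.ext z y ≠ 0 := by
  induction s with
  | zero =>
    intro X z hz
    obtain ⟨T, c, h𝒯, hT, hc, hd, hne⟩ := hS X z hz
    exact ⟨T, c, ProductCycle.one T c h𝒯 hT hc hd, hne⟩
  | succ s ih =>
    intro X z hz
    obtain ⟨T, c, h𝒯, hT, hc, hd, hne⟩ := hS X z hz
    obtain ⟨Y, y, hy, hne'⟩ := ih (X.prod T) (C.ext z c) hne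
    refine ⟨T.prod Y, C.ext c y, ProductCycle.cons (s + 1) T Y c y h𝒯 hT hc hd hy, fun h0 => hne' ?_⟩
    have e1 : aI X T Y ≫ fst X (T.prod Y) = fst (X.prod T) Y ≫ fst X T := lift_fst _ _
    have e2 : aI X T Y ≫ snd X (T.prod Y) ≫ fst T Y = fst (X.prod T) Y ≫ snd X T := by
      simp [aI]
    have e3 : aI X T Y ≫ snd X (T.prod Y) ≫ snd T Y = snd (X.prod T) Y := by
      simp [aI]
    have h1 : C.ext (C.ext z c) y = C.pull (aI X T Y) (C.ext z (C.ext c y)) := by
      simp only [TheoryData.ext, map_mul, ← C.pull_comp]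
      rw [e1, e2, e3, mul_assoc]
    rw [h1, h0, map_zero]

/-- The vanishing of the external products implies (C), by the theorem of Schoen. -/
theorem murreC_of_excessZeroN {𝒯 : 𝒱.Obj → Prop} (hS : NonzeroProducts C 𝒯) {s : ℕ}
    (hZ : ExcessZeroN H 𝒯 (s + 1))
    (X : 𝒱.Obj) : MurreC H X := by
  apply murreC_of_middle
  intro ρ hρ z hz j hj
  by_contra hne
  obtain ⟨Y, y, hy, h1⟩ := exists_curveCycle hS s _ _ hne
  exact h1 (hZ _ ρ hρ _ j _ (act_mem0 C (hρ.deg j) hz) hj (by rw [← C.act_comp, hρ.idem]) Y y hy)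

/-- (C) implies the vanishing of all classes of too large weight. -/
theorem excessZeroN_of_murreC (𝒯 : 𝒱.Obj → Prop) (h : ∀ X : 𝒱.Obj, MurreC H X) (s : ℕ) :
    ExcessZeroN H 𝒯 s := by
  intro X π hπ i b z hz hb hzb Y y hy
  have h1 := b0_of_C h X i hπ
  rw [← h1, hπ.mem_ckFil] at hz
  have h2 := hz.2 b (by omega)
  rw [← hzb, h2, TheoryData.ext_zero_left]

/-- **Any step decides.** -/
theorem any_step {Rat : 𝒱.Obj → Prop} {P : 𝒱.Obj} (hR : IsRationalClass C Rat P)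
    (t : ∀ V : 𝒱.Obj, C.A V)
    (ht : ∀ V m, Rat V → V.dim = 2 * m → NumNontrivial H m (t V)) (𝒯 : 𝒱.Obj → Prop) (s : ℕ)
    (hs : 1 ≤ s) :
    (PowersInSteps H 𝒯 s ↔ ForRational Rat fun m V => ∀ (Y : 𝒱.Obj) (y : C.A Y),
      ProductCycle C 𝒯 s Y y → TestClass H (m + s) s (V.prod Y) (C.ext (t V) y)) ∧
    ((ForRational Rat fun m V => ∀ (Y : 𝒱.Obj) (y : C.A Y), ProductCycle C 𝒯 s Y y →
      (selfDualSteps H (V.prod Y) (m + s) s).Finite) → PowersInSteps H 𝒯 s) ∧
    (NonzeroProducts C 𝒯 → (PowersInSteps H 𝒯 s ↔ ∀ X : 𝒱.Obj, MurreC H X)) := by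
  have hA : PowersInSteps H 𝒯 s → ForRational Rat fun m V => ∀ (Y : 𝒱.Obj) (y : C.A Y),
      ProductCycle C 𝒯 s Y y → TestClass H (m + s) s (V.prod Y) (C.ext (t V) y) := fun h n =>
    ⟨n, le_rfl, fun V hV hd Y y hy π hπ => mem_of_powers h (ht V n hV hd).1 hy hπ.1⟩
  have hB : (ForRational Rat fun m V => ∀ (Y : 𝒱.Obj) (y : C.A Y),
      ProductCycle C 𝒯 s Y y → TestClass H (m + s) s (V.prod Y) (C.ext (t V) y)) →
      ExcessZeroN H 𝒯 s := fun h =>
    excessZeroN_of_tests hR t ht (fun n => by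
      obtain ⟨m, hm, h1⟩ := h n
      exact ⟨m, hm, fun V hV hd Y y hy => Or.inl (h1 V hV hd Y y hy)⟩)
  refine ⟨⟨hA, fun h => powers_of_excessZero (hB h)⟩, fun h =>
    powers_of_excessZero (excessZeroN_of_tests hR t ht (fun n => by
      obtain ⟨m, hm, h1⟩ := h n
      exact ⟨m, hm, fun V hV hd Y y hy => Or.inr (h1 V hV hd Y y hy)⟩)), fun hS =>
    ⟨fun h => ?_, fun h => powers_of_excessZero (excessZeroN_of_murreC 𝒯 h s)⟩⟩
  obtain ⟨s', rfl⟩ : ∃ s', s = s' + 1 := ⟨s - 1, by omega⟩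
  exact murreC_of_excessZeroN hS (hB (hA h))

end weil

end Pool.Agent.H92.ZO
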