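import Pool.Agent.H92.ZO.Local

/-!
# One or infinitely many filtrations
-/

open CategoryTheory AlgebraicGeometry

universe u v w

namespace Pool.Agent.H92.ZO

open Pool.Agent.H914 Pool.Agent.H914.VarClass Pool.Agent.H914.VarClass.Obj Pool.Agent.W492.BB
  Pool.Agent.W550.Corr Pool.Agent.TH133

set_option linter.unusedSectionVars false

section linear

open Polynomial

variable {V : Type*} [AddCommGroup V] [Module ℚ V]

/-- If a power `(1 + N) ^ k`, `k > 0`, of a unipotent endomorphism maps a subspace to itself then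
so does `N`. -/
lemma mem_of_pow {N : Module.End ℚ V} {K : ℕ} (hN : N ^ K = 0) {F : Submodule ℚ V} {k : ℕ}
    (hk : 0 < k) (h : ∀ x ∈ F, ((1 + N) ^ k) x ∈ F) {x : V} (hx : x ∈ F) : N x ∈ F := by
  have key : ∀ d j : ℕ, K ≤ j + d → ∀ x ∈ F, (N ^ j) x ∈ F := by
    intro d
    induction d with
    | zero =>
      intro j hj x _
      rw [pow_eq_zero_of_le (by omega) hN]
      exact Submodule.zero_mem _
    | succ d ih =>
      intro j hj x hx
      by_cases hj0 : j = 0
      · rw [hj0, pow_zero]
        exact hx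
      have ih' : ∀ j', j < j' → ∀ x ∈ F, (N ^ j') x ∈ F := fun j' hj' => ih j' (by omega)
      -- polynomials
      have hpoly : ∀ (r : ℚ[X]), ∀ x ∈ F, (aeval N (X ^ (j + 1) * r)) x ∈ F := by
        intro r
        induction r using Polynomial.induction_on' with
        | add p q hp hq =>
          intro x hx
          rw [mul_add, map_add, LinearMap.add_apply]
          exact Submodule.add_mem _ (hp x hx) (hq x hx)
        | monomial n a =>
          intro x hx
          have e : (X ^ (j + 1) * monomial n a : ℚ[X]) = C a * X ^ (j + 1 + n) := by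
            rw [← C_mul_X_pow_eq_monomial, pow_add]
            ring
          rw [e, map_mul, aeval_C, map_pow, aeval_X, Algebra.algebraMap_eq_smul_one,
            smul_mul_assoc, one_mul, LinearMap.smul_apply]
          exact Submodule.smul_mem _ _ (ih' _ (by omega) x hx)
      obtain ⟨p1, hp1⟩ : X ∣ ((1 + X : ℚ[X]) ^ k - 1) := by
        rw [X_dvd_iff, coeff_sub, coeff_one_add_X_pow, coeff_one_zero]
        simp
      have hc1 : p1.coeff 0 = k := by
        have h1 := congrArg (fun p : ℚ[X] => p.coeff 1) hp1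
        simp only [coeff_sub, coeff_one_add_X_pow, coeff_X_mul, Nat.choose_one_right] at h1
        rw [← h1, coeff_one, if_neg one_ne_zero, sub_zero]
      obtain ⟨r, hr⟩ : X ∣ (p1 ^ j - C ((k : ℚ) ^ j)) := by
        rw [X_dvd_iff, coeff_sub, coeff_C_zero, coeff_zero_eq_eval_zero, eval_pow,
          ← coeff_zero_eq_eval_zero, hc1, sub_self]
      have hU : ((1 + X : ℚ[X]) ^ k - 1) ^ j = C ((k : ℚ) ^ j) * X ^ j + X ^ (j + 1) * r := by
        rw [hp1, mul_pow, show p1 ^ j = C ((k : ℚ) ^ j) + X * r by rw [← hr]; ring]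
        ring
      have hUx : ∀ n : ℕ, ∀ x ∈ F, ((((1 + N) ^ k - 1) : Module.End ℚ V) ^ n) x ∈ F := by
        intro n
        induction n with
        | zero => exact fun x hx => by rw [pow_zero]; exact hx
        | succ n ihn =>
          intro x hx
          rw [pow_succ, Module.End.mul_apply]
          apply ihn
          rw [LinearMap.sub_apply]
          exact Submodule.sub_mem _ (h x hx) hx
      have h1 := hUx j x hx
      have h2 : (((1 + N) ^ k - 1) : Module.End ℚ V) ^ j = aeval N (((1 + X : ℚ[X]) ^ k - 1) ^ j) := by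
        simp
      rw [h2, hU, map_add, LinearMap.add_apply] at h1
      have h3 := Submodule.sub_mem _ h1 (hpoly r x hx)
      rw [add_sub_cancel_right, map_mul, aeval_C, aeval_X_pow,
        Algebra.algebraMap_eq_smul_one, smul_mul_assoc, one_mul, LinearMap.smul_apply] at h3
      have h4 := Submodule.smul_mem _ (((k : ℚ) ^ j)⁻¹) h3
      have hk' : ((k : ℚ) ^ j) ≠ 0 := pow_ne_zero _ (by exact_mod_cast hk.ne')
      rwa [smul_smul, inv_mul_cancel₀ hk', one_smul] at h4
  have := key K 1 (by omega) x hx
  rwa [pow_one] at this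

/-- Membership is then preserved by `1 + N` in both directions. -/
lemma mem_iff_of_pow {N : Module.End ℚ V} {K : ℕ} (hN : N ^ K = 0) {F : Submodule ℚ V} {k : ℕ}
    (hk : 0 < k) (h : ∀ x ∈ F, ((1 + N) ^ k) x ∈ F) (x : V) : (1 + N) x ∈ F ↔ x ∈ F := by
  have hNF : ∀ x ∈ F, N x ∈ F := fun x hx => mem_of_pow hN hk h hx
  constructor
  · intro hx
    have hpow : ∀ n : ℕ, ∀ y ∈ F, (N ^ n) y ∈ F := by
      intro n
      induction n with
      | zero => exact fun y hy => by rw [pow_zero]; exact hy
      | succ n ihn =>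
        intro y hy
        rw [pow_succ, Module.End.mul_apply]
        exact ihn _ (hNF y hy)
    have hx' : ∀ n : ℕ, x - ((-N) ^ n) x ∈ F := by
      intro n
      induction n with
      | zero =>
        rw [pow_zero, Module.End.one_apply, sub_self]
        exact Submodule.zero_mem _
      | succ n ihn =>
        have e : ((-N) ^ (n + 1)) x = ((-N) ^ n) x - ((-N) ^ n) ((1 + N) x) := by
          rw [pow_succ, Module.End.mul_apply, LinearMap.add_apply, Module.End.one_apply, map_add,
            LinearMap.neg_apply, map_neg]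
          abel
        have h1 : ((-N) ^ n) ((1 + N) x) ∈ F := by
          rw [neg_pow, Module.End.mul_apply]
          have h2 := hpow n _ hx
          rcases neg_one_pow_eq_or (Module.End ℚ V) n with h3 | h3
          · rw [h3]; exact h2
          · rw [h3, LinearMap.neg_apply]
            exact Submodule.neg_mem _ h2
        rw [e]
        have e2 : x - (((-N) ^ n) x - ((-N) ^ n) ((1 + N) x)) =
            (x - ((-N) ^ n) x) + ((-N) ^ n) ((1 + N) x) := by abel
        rw [e2]
        exact Submodule.add_mem _ ihn h1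
    have h5 := hx' K
    rw [neg_pow, hN, mul_zero, LinearMap.zero_apply, sub_zero] at h5
    exact h5
  · intro hx
    rw [LinearMap.add_apply, Module.End.one_apply]
    exact Submodule.add_mem _ hx (hNF x hx)

end linear

section weil

variable {k : Type u} [Field k] {𝒱 : VarClass k}

variable {C : TheoryData.{u, v, 0} 𝒱 ℚ} [hC : IsChowProj C] {K : Type w} [Field K]
  {H : WeilTheoryData.{u, v, w} C K} [hH : IsWeilProj H] {X Y Z W : 𝒱.Obj}

include hC

lemma iterate_eq_pow (γ : Cor C X) (m : ℕ) :
    γ ^ m = ((fun Γ : C.A (X.prod X) => C.comp γ Γ)^[m] (dg C X) : C.A (X.prod X)) := by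
  induction m with
  | zero => rfl
  | succ m ih =>
    rw [pow_succ, Function.iterate_succ_apply', ← ih]
    rfl

include hH

/-- Two Chow-Kunneth decompositions are conjugate by a unipotent correspondence if the
homologically trivial self-correspondences are nilpotent. -/
lemma exists_conj (hN : HomNilpotent H X) {P P' : ℕ → Cor C X} (hP : IsCK H X P)
    (hP' : IsCK H X P') : ∃ s t : Cor C X, s ∈ cor0 C X ∧ t ∈ cor0 C X ∧ s * t = 1 ∧ t * s = 1 ∧
      (∀ a : H.A X, actH C X H s a = a) ∧ (∃ n, (t - 1) ^ n = 0) ∧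
      ∀ j, P' j = s * P j * t := by
  have hPm : ∀ i, P i ∈ cor0 C X := hP.deg
  have hPm' : ∀ i, P' i ∈ cor0 C X := hP'.deg
  set I := Finset.range (2 * X.dim + 1) with hI
  have mk : ∀ {A B : ℕ → Cor C X}, IsCK H X A → IsCK H X B →
      (∑ i ∈ I, A i * B i) ∈ cor0 C X ∧
      (∀ a : H.A X, actH C X H (∑ i ∈ I, A i * B i) a = a) ∧
      (∃ n, ((∑ i ∈ I, A i * B i) - 1) ^ n = 0) ∧
      (∀ j, A j * (∑ i ∈ I, A i * B i) = (∑ i ∈ I, A i * B i) * B j) := by
    intro A B hA hB
    have hm : (∑ i ∈ I, A i * B i) ∈ cor0 C X :=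
      Subalgebra.sum_mem _ fun i _ => (cor0 C X).mul_mem (hA.deg i) (hB.deg i)
    have hact : ∀ a : H.A X, actH C X H (∑ i ∈ I, A i * B i) a = a := by
      have h1 : actH C X H (∑ i ∈ I, A i * B i) = actH C X H 1 := by
        apply ext_gr H
        intro m a ha
        rw [← hA.sum_eq, map_sum, map_sum, LinearMap.sum_apply, LinearMap.sum_apply]
        apply Finset.sum_congr rfl
        intro i _
        rw [map_mul, Module.End.mul_apply, hB.actH_eq' _ _ ha]
        split_ifs with hmi
        · rfl
        · rw [map_zero, hA.actH_eq' _ _ ha, if_neg hmi]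
      intro a
      rw [h1, map_one]
      rfl
    refine ⟨hm, hact, ?_, ?_⟩
    · have h1 : (∑ i ∈ I, A i * B i) - 1 ∈ cor0 C X := (cor0 C X).sub_mem hm (cor0 C X).one_mem
      have h2 : H.cl (X := X.prod X) ((∑ i ∈ I, A i * B i) - 1 : Cor C X) = 0 := by
        apply hom_zero_of_act H
        intro a
        have h3 : actH C X H ((∑ i ∈ I, A i * B i) - 1) a = 0 := by
          rw [map_sub, LinearMap.sub_apply, hact, map_one]
          exact sub_self a
        exact h3
      obtain ⟨n, hn⟩ := hN _ h1 h2
      exact ⟨n, (iterate_eq_pow _ n).trans hn⟩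
    · intro j
      rw [Finset.mul_sum, Finset.sum_mul]
      apply Finset.sum_congr rfl
      intro i _
      rw [← mul_assoc, hA.mul_eq, mul_assoc, hB.mul_eq]
      by_cases hij : j = i
      · subst hij
        rw [if_pos rfl, if_pos rfl]
      · rw [if_neg hij, if_neg (Ne.symm hij), zero_mul, mul_zero]
  obtain ⟨h1, h2, ⟨n, h3⟩, h4⟩ := mk hP' hP
  set s := ∑ i ∈ I, P' i * P i with hs
  -- the inverse
  have hunit : ∃ t ∈ cor0 C X, s * t = 1 ∧ t * s = 1 ∧ ∃ n, (t - 1) ^ n = 0 := by
    let ν : Cor C X := 1 - s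
    have hν : ν ^ n = 0 := by
      have e : ν = -(s - 1) := by simp only [ν]; abel
      rw [e, neg_pow, h3, mul_zero]
    have hνm : ν ∈ cor0 C X := (cor0 C X).sub_mem (cor0 C X).one_mem h1
    let t : Cor C X := ∑ i ∈ Finset.range n, ν ^ i
    have hs' : s = 1 - ν := by simp only [ν]; abel
    have hst : s * t = 1 := by
      rw [hs', mul_neg_geom_sum, hν, sub_zero]
    have hts : t * s = 1 := by
      rw [hs', geom_sum_mul_neg, hν, sub_zero]
    refine ⟨t, Subalgebra.sum_mem _ fun i _ => (cor0 C X).pow_mem hνm i, hst, hts, n, ?_⟩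
    have e : t - 1 = t * ν := by
      rw [show ν = 1 - s from rfl, mul_sub, mul_one, hts]
    have hcomm : Commute t ν := by
      have : t * ν = ν * t := by
        rw [show ν = 1 - s from rfl, mul_sub, sub_mul, mul_one, one_mul, hst, hts]
      exact this
    rw [e, hcomm.mul_pow, hν, mul_zero]
  obtain ⟨t, ht, hst, hts, hn⟩ := hunit
  refine ⟨s, t, h1, ht, hst, hts, h2, hn, fun j => ?_⟩
  rw [← h4 j, mul_assoc, hst, mul_one]

/-- **One or infinitely many.** If the homologically trivial self-correspondences of `X` of degree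
zero are nilpotent then, for every `i` and `n`, there are either one or infinitely many subgroups
`F^n CH^i(X)`. -/
theorem one_or_infinite (hN : HomNilpotent H X) (i n : ℕ) (hfin : (steps H X i n).Finite)
    {π π' : ℕ → C.A (X.prod X)} (hπ : IsCK H X π) (hπ' : IsCK H X π') :
    ckFil C π i n = ckFil C π' i n := by
  let P : ℕ → Cor C X := π
  let P' : ℕ → Cor C X := π'
  have hP : IsCK H X P := hπ
  have hP' : IsCK H X P' := hπ'
  obtain ⟨s, t, hs, ht, hst, hts, hact, ⟨K', hK⟩, hconj⟩ := exists_conj hN hP hP'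
  -- the powers
  have hpow : ∀ m : ℕ, s ^ m * t ^ m = 1 ∧ t ^ m * s ^ m = 1 := by
    intro m
    induction m with
    | zero => simp
    | succ m ih =>
      constructor
      · rw [pow_succ, pow_succ' t, mul_assoc, ← mul_assoc s t, hst, one_mul, ih.1]
      · rw [pow_succ, pow_succ' s, mul_assoc, ← mul_assoc t s, hts, one_mul, ih.2]
  have hactm : ∀ m : ℕ, ∀ a : H.A X, actH C X H (s ^ m) a = a := by
    intro m
    induction m with
    | zero => intro a; rw [pow_zero, map_one]; rfl
    | succ m ih =>
      intro a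
      rw [pow_succ, map_mul, Module.End.mul_apply, hact, ih]
  have hsm : ∀ m : ℕ, s ^ m ∈ cor0 C X := fun m => (cor0 C X).pow_mem hs m
  have htm : ∀ m : ℕ, t ^ m ∈ cor0 C X := fun m => (cor0 C X).pow_mem ht m
  let ρ : ℕ → ℕ → Cor C X := fun m j => s ^ m * P j * t ^ m
  have hρ : ∀ m, IsCK H X (ρ m) := fun m =>
    hP.conj (hsm m) (htm m) (hpow m).1 (hpow m).2 (hactm m)
  have hmem : ∀ m x, x ∈ ckFil C (ρ m) i n ↔ actC C X (t ^ m) x ∈ ckFil C P i n := fun m x =>
    mem_conj hP (hsm m) (htm m) (hpow m).1 (hpow m).2 (hactm m) i n x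
  -- two of them agree
  obtain ⟨m, m', hmm, he⟩ : ∃ m m' : ℕ, m < m' ∧ ckFil C (ρ m) i n = ckFil C (ρ m') i n := by
    by_contra hcon
    push Not at hcon
    have hinj : Function.Injective (fun m : ℕ => ckFil C (ρ m) i n) := by
      intro a b hab
      rcases lt_trichotomy a b with h | h | h
      · exact absurd hab (hcon a b h)
      · exact h
      · exact absurd hab.symm (hcon b a h)
    refine (Set.infinite_range_of_injective hinj) (hfin.subset ?_)
    rintro _ ⟨m, rfl⟩
    exact ⟨_, hρ m, rfl⟩
  -- a power of `t` preserves `F`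
  set F := ckFil C P i n with hF
  have hk : ∀ x ∈ F, actC C X (t ^ (m' - m)) x ∈ F := by
    intro x hx
    have h1 : actC C X (s ^ m) x ∈ ckFil C (ρ m) i n := by
      rw [hmem, ← actC_mul' (H := H), (hpow m).2, map_one]
      exact hx
    rw [he, hmem, ← actC_mul' (H := H)] at h1
    have e : t ^ m' * s ^ m = t ^ (m' - m) := by
      have e1 : t ^ m' = t ^ (m' - m) * t ^ m := by rw [← pow_add]; congr 1; omega
      rw [e1, mul_assoc, (hpow m).2, mul_one]
    rwa [e] at h1
  set N : Module.End ℚ (C.A X) := actC C X (t - 1) with hNdef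
  have hNK : N ^ K' = 0 := by rw [hNdef, ← map_pow, hK, map_zero]
  have hT : actC C X t = 1 + N := by
    rw [hNdef, map_sub, map_one]; abel
  have hk' : ∀ x ∈ F, ((1 + N) ^ (m' - m)) x ∈ F := by
    intro x hx
    rw [← hT, ← map_pow]
    exact hk x hx
  have hfinal := mem_iff_of_pow hNK (by omega : 0 < m' - m) hk'
  ext x
  have h2 : x ∈ ckFil C (fun j => (s * P j * t : Cor C X)) i n ↔ actC C X t x ∈ ckFil C P i n :=
    mem_conj hP hs ht hst hts hact i n x
  have h3 : (fun j => (s * P j * t : Cor C X)) = P' := funext fun j => (hconj j).symm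
  rw [h3, hT, hfinal x] at h2
  exact h2.symm

end weil

end Pool.Agent.H92.ZO
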